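import Pool.Agent.Helper158.Num.Tools

/-!
For every `n ≥ 2` there is a family `A` of `n`-c.e. sets which has, up to equivalence, exactly one
`Σ⁻¹_n`-computable positive numbering `ν`; this `ν` is not least; and the Rogers semilattice of `A`
has exactly two minimal elements (the classes of `ν` and of a non-positive numbering `μ`).
-/

namespace Pool.Agent.Results.MP_5566a7_lc.ErshovTwoMinimal

/-- `S` is `n`-c.e., i.e. `S ∈ Σ⁻¹_n`: it has a computable approximation `f` with `f x 0 = false`
for all `x`, which changes its mind at most `n` times on each `x` and has the limit `S`. -/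
def IsNCE (n : ℕ) (S : Set ℕ) : Prop :=
  ∃ f : ℕ → ℕ → Bool, Computable₂ f ∧ (∀ x, f x 0 = false) ∧
    (∀ x, {s | f x s ≠ f x (s + 1)}.encard ≤ n) ∧
    ∀ x, ∃ s₀, ∀ s ≥ s₀, (f x s = true ↔ x ∈ S)

/-- `β ≤ α`: `β = α ∘ f` for some computable `f`. -/
def Red (β α : ℕ → Set ℕ) : Prop := ∃ f : ℕ → ℕ, Computable f ∧ ∀ k, β k = α (f k)

/-- The `Σ⁻¹_n`-computable numberings of the family `A`: maps of `ℕ` onto `A` such that the set of
all `⟨x, k⟩` with `x ∈ α k` is in `Σ⁻¹_n`. -/
structure Numb (n : ℕ) (A : Set (Set ℕ)) where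
  /-- the map -/
  map : ℕ → Set ℕ
  range_eq : Set.range map = A
  comp : IsNCE n {z | (Nat.unpair z).1 ∈ map (Nat.unpair z).2}

/-- The numberings are preordered by reducibility. -/
instance (n : ℕ) (A : Set (Set ℕ)) : Preorder (Numb n A) where
  le β α := Red β.map α.map
  le_refl _ := ⟨id, Computable.id, fun _ => rfl⟩
  le_trans _ _ _ h h' := by
    obtain ⟨f, hf, h1⟩ := h
    obtain ⟨g, hg, h2⟩ := h'
    exact ⟨fun k => g (f k), hg.comp hf, fun k => by rw [h1, h2]⟩

/-- The Rogers semilattice: the equivalence classes of the `Σ⁻¹_n`-computable numberings of `A`,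
ordered by the relation induced by reducibility. -/
abbrev Rogers (n : ℕ) (A : Set (Set ℕ)) := Antisymmetrization (Numb n A) (· ≤ ·)

/-- the class of a numbering -/
abbrev cls {n : ℕ} {A : Set (Set ℕ)} (α : Numb n A) : Rogers n A :=
  toAntisymmetrization (· ≤ ·) α

/-- `α` is positive: the set of the pairs `(x, y)` with `α x = α y` is c.e. -/
def Positive (α : ℕ → Set ℕ) : Prop := REPred fun p : ℕ × ℕ => α p.1 = α p.2

open Helper158.Num Nat.Partrec Encodable

lemma Positive.of_red {β α : ℕ → Set ℕ} (h : Red β α) (hα : Positive α) : Positive β := by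
  obtain ⟨f, hf, h1⟩ := h
  have h2 : Computable fun p : ℕ × ℕ => (f p.1, f p.2) :=
    (hf.comp Computable.fst).pair (hf.comp Computable.snd)
  have h3 : REPred fun p : ℕ × ℕ => α (f p.1) = α (f p.2) := Partrec.comp hα h2
  exact h3.of_eq fun p => by rw [h1, h1]

lemma nce_preimage {n : ℕ} {S : Set ℕ} (h : IsNCE n S) {g : ℕ → ℕ} (hg : Computable g) :
    IsNCE n (g ⁻¹' S) := by
  obtain ⟨f, hf, h0, h1, h2⟩ := h
  refine ⟨fun x s => f (g x) s, hf.comp (hg.comp Computable.fst) Computable.snd,
    fun x => h0 _, fun x => h1 _, fun x => h2 _⟩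

/-- `nu` is positive -/
lemma nu_positive {n : ℕ} (hn : 2 ≤ n) : Positive (nu (parU n) n) := by
  classical
  have h1 : PrimrecPred fun q : (ℕ × ℕ) × ℕ =>
      ∃ c ∈ (st (parU n) q.2).1, (3 * q.1.1, 0) ∈ c.mem ∧ (3 * q.1.2, 0) ∈ c.mem :=
    Pr.same (parU_prim n) Primrec.snd (Primrec.fst.comp Primrec.fst)
      (Primrec.snd.comp Primrec.fst)
  have h2 : Partrec fun p : ℕ × ℕ => Nat.rfind
      (fun s => Part.some (decide (∃ c ∈ (st (parU n) s).1, (3 * p.1, 0) ∈ c.mem ∧
        (3 * p.2, 0) ∈ c.mem)) : ℕ →. Bool) := by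
    refine Partrec.rfind ?_
    exact Computable.partrec h1.decide.to_comp
  refine h2.dom_re.of_eq fun p => ?_
  rw [nu_pos hn (parU_ok n)]
  refine Nat.rfind_dom.trans ?_
  constructor
  · rintro ⟨s, h3, -⟩
    have h4 := Part.mem_some_iff.1 h3
    exact ⟨s, by simpa using h4.symm⟩
  · rintro ⟨s, h3⟩
    exact ⟨s, Part.mem_some_iff.2 (by simpa using h3), fun _ => trivial⟩

/-- `mu` is not positive -/
lemma mu_not_positive {n : ℕ} (hn : 2 ≤ n) : ¬ Positive (mu (parU n) n) := by
  intro h
  have h1 : Partrec fun w : ℕ => ((Part.assert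
      (mu (parU n) n (Nat.unpair w).1 = mu (parU n) n (Nat.unpair w).2)
        fun _ => Part.some ()).map fun _ => (0 : ℕ)) :=
    (Partrec.comp h Computable.unpair).map (Computable.const 0).to₂
  obtain ⟨c, hc⟩ := Code.exists_code.1 (Partrec.nat_iff.1 h1)
  have h2 : ∀ a b, (Code.eval c (Nat.pair a b)).Dom ↔
      mu (parU n) n a = mu (parU n) n b := by
    intro a b
    rw [hc]
    constructor
    · intro h3
      have h4 : mu (parU n) n (Nat.unpair (Nat.pair a b)).1 =
        mu (parU n) n (Nat.unpair (Nat.pair a b)).2 := h3.1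
      rwa [Nat.unpair_pair] at h4
    · intro h3
      have h4 : mu (parU n) n (Nat.unpair (Nat.pair a b)).1 =
        mu (parU n) n (Nat.unpair (Nat.pair a b)).2 := by rwa [Nat.unpair_pair]
      exact ⟨h4, trivial⟩
  obtain ⟨X, ⟨h3, h4⟩ | ⟨h3, s, h4⟩⟩ := mu_not_pos hn (parU_ok n) (encode c)
  · obtain ⟨s, hs⟩ := evaln_dom.1 ((h2 _ _).2 h3)
    have h5 := h4 s
    change (Code.evaln s (cd (encode c)) (Nat.pair (2 * X) (2 * X + 1))).isSome = false at h5
    rw [cd, Denumerable.ofNat_encode, hs] at h5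
    exact absurd h5 (by simp)
  · change (Code.evaln s (cd (encode c)) (Nat.pair (2 * X) (2 * X + 1))).isSome = true at h4
    rw [cd, Denumerable.ofNat_encode] at h4
    exact h3 ((h2 _ _).1 (evaln_dom.2 ⟨s, h4⟩))

/-- `nu` does not reduce to `mu` -/
lemma nu_not_red_mu {n : ℕ} (hn : 2 ≤ n) : ¬ Red (nu (parU n) n) (mu (parU n) n) := by
  rintro ⟨f, hf, h1⟩
  obtain ⟨c, hc⟩ := Code.exists_code.1 (Partrec.nat_iff.1 hf.partrec)
  obtain ⟨X, hX⟩ := nu_not_le hn (parU_ok n) (encode c)
  have h2 : f X ∈ Code.eval c X := by rw [hc]; exact Part.mem_some _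
  obtain ⟨s, hs⟩ := Code.evaln_complete.1 h2
  refine hX s (f X) ?_ (h1 X)
  change Code.evaln s (cd (encode c)) X = some (f X)
  rw [cd, Denumerable.ofNat_encode]
  exact hs

/-- the dichotomy -/
lemma dichotomy {n : ℕ} (hn : 2 ≤ n) (β : Numb n (Set.range (nu (parU n) n))) :
    (Red β.map (nu (parU n) n) ∧ Red (nu (parU n) n) β.map) ∨ Red (mu (parU n) n) β.map := by
  classical
  obtain ⟨β, hr, f, hf, h0, h1, h2⟩ := β
  simp only
  obtain ⟨e, he⟩ := opp_ex hf h0 h1 h2
  have hβ : ∀ i, ∃ X, β i = nu (parU n) n X := by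
    intro i
    have h3 : β i ∈ Set.range (nu (parU n) n) := by rw [← hr]; exact ⟨i, rfl⟩
    obtain ⟨X, hX⟩ := h3
    exact ⟨X, hX.symm⟩
  have hβ' : ∀ X, ∃ i, nu (parU n) n X = β i := by
    intro X
    have h3 : nu (parU n) n X ∈ Set.range β := by rw [hr]; exact ⟨X, rfl⟩
    obtain ⟨i, hi⟩ := h3
    exact ⟨i, hi.symm⟩
  have hO : Opp (parU_ok n) e β := by
    refine ⟨fun i x => ?_, fun i => ?_⟩
    · rw [← he]
      simp
    · obtain ⟨X, hX⟩ := hβ i
      exact ⟨3 * X, hX⟩
  by_cases hE : (Ee (parU_ok n) e).Finite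
  · left
    constructor
    · obtain ⟨g, hg, h3⟩ := unif (R := fun s i X => GR (parU n) e s i X)
        (Pr.GR (parU_prim n) (Pr.cst e) Primrec.fst (Primrec.fst.comp Primrec.snd)
          (Primrec.snd.comp Primrec.snd)) (gr_ex hn hO)
      have hfin : {i | ¬ β i = nu (parU n) n (g i)}.Finite := by
        have hb : ∀ X, ∃ B, X ∈ Ee (parU_ok n) e → ∀ s i, GR (parU n) e s i X → i < B := by
          intro X
          by_cases hX : X ∈ Ee (parU_ok n) e
          · obtain ⟨B, hB⟩ := gr_bd hX
            exact ⟨B, fun _ => hB⟩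
          · exact ⟨0, fun h => absurd h hX⟩
        choose B hB using hb
        apply (hE.biUnion fun X _ => Set.finite_lt_nat (B X)).subset
        intro i hi
        obtain ⟨s, hs⟩ := h3 i
        rcases gr_ok hO hs with h5 | h5
        · exact absurd h5 hi
        · simp only [Set.mem_iUnion]
          exact ⟨g i, h5, hB _ h5 s i hs⟩
      obtain ⟨g', hg', h4⟩ := patch (Q := fun i X => β i = nu (parU n) n X) hg hfin hβ
      exact ⟨g', hg', h4⟩
    · obtain ⟨g, hg, h3⟩ := unif (R := fun s X i => HR (parU n) e s X i)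
        (Pr.HR (parU_prim n) (Pr.cst e) Primrec.fst (Primrec.fst.comp Primrec.snd)
          (Primrec.snd.comp Primrec.snd)) (fun X => by
            obtain ⟨i, hi⟩ := hβ' X
            obtain ⟨s, hs⟩ := hr_ex hn hO hi.symm
            exact ⟨s, i, hs⟩)
      have hfin : {X | ¬ nu (parU n) n X = β (g X)}.Finite := by
        apply hE.subset
        intro X hX
        obtain ⟨s, hs⟩ := h3 X
        rcases hr_ok hO hs with h5 | h5
        · exact absurd h5.symm hX
        · exact h5
      obtain ⟨g', hg', h4⟩ := patch (Q := fun X i => nu (parU n) n X = β i) hg hfin hβ'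
      exact ⟨g', hg', h4⟩
  · right
    have hT := fr_ex hn hO hE (fun X => by
      obtain ⟨i, hi⟩ := hβ' X
      exact ⟨i, hi.symm⟩)
    obtain ⟨g, hg, h3⟩ := unif
      (R := fun s y i => FR (parU n) e s y i ∨ y ∈ hT.toFinset.toList)
      (PrimrecPred.or (Pr.FR (parU_prim n) (Pr.cst e) Primrec.fst (Primrec.fst.comp Primrec.snd)
          (Primrec.snd.comp Primrec.snd))
          (Pr.memL (Primrec.fst.comp Primrec.snd) (Primrec.const _))) (fun y => by
            by_cases hy : ∃ s i, FR (parU n) e s y i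
            · obtain ⟨s, i, h⟩ := hy
              exact ⟨s, i, Or.inl h⟩
            · refine ⟨0, 0, Or.inr ?_⟩
              rw [Finset.mem_toList, Set.Finite.mem_toFinset]
              exact hy)
    have hfin : {y | ¬ mu (parU n) n y = β (g y)}.Finite := by
      apply hT.subset
      intro y hy
      obtain ⟨s, hs⟩ := h3 y
      rcases hs with h5 | h5
      · exact absurd (fr_ok hO h5).symm hy
      · rwa [Finset.mem_toList, Set.Finite.mem_toFinset] at h5
    obtain ⟨g', hg', h4⟩ := patch (Q := fun y i => mu (parU n) n y = β i) hg hfin (fun y => by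
      obtain ⟨X, hX⟩ := mu_eq_nu (parU_ok n) y
      rw [hX]
      exact hβ' X)
    exact ⟨g', hg', h4⟩

/-- For every `n ≥ 2` there are a family `A` of `n`-c.e. sets and `Σ⁻¹_n`-computable numberings
`ν` and `μ` of `A` such that: `ν` is positive, each positive `Σ⁻¹_n`-computable numbering of `A`
is equivalent to `ν`, `ν` is not least, and the Rogers semilattice of `A` has exactly two minimal
elements. -/
theorem result (n : ℕ) (hn : 2 ≤ n) :
    ∃ A : Set (Set ℕ), (∀ S ∈ A, IsNCE n S) ∧
      ∃ ν μ : Numb n A,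
        Positive ν.map ∧
        (∀ β : Numb n A, Positive β.map → β ≤ ν ∧ ν ≤ β) ∧
        ¬ (∀ β : Numb n A, ν ≤ β) ∧
        {a : Rogers n A | IsMin a} = {cls ν, cls μ} ∧
        {a : Rogers n A | IsMin a}.encard = 2 ∧
        -- moreover:
        ¬ Positive μ.map ∧ ¬ ν ≤ μ ∧ ∀ β : Numb n A, (β ≤ ν ∧ ν ≤ β) ∨ μ ≤ β := by
  set A : Set (Set ℕ) := Set.range (nu (parU n) n) with hA
  have hnu : IsNCE n {z | (Nat.unpair z).1 ∈ nu (parU n) n (Nat.unpair z).2} :=
    nce_F hn (a := fun X => 3 * X) (Pr.mul (Pr.cst 3) Primrec.id)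
  have hmu : IsNCE n {z | (Nat.unpair z).1 ∈ mu (parU n) n (Nat.unpair z).2} :=
    nce_F hn (a := ag) (Pr.ag Primrec.id)
  have hr : Set.range (mu (parU n) n) = A := by
    rw [hA]
    ext S
    constructor
    · rintro ⟨y, rfl⟩
      obtain ⟨X, hX⟩ := mu_eq_nu (parU_ok n) y
      exact ⟨X, hX.symm⟩
    · rintro ⟨X, rfl⟩
      obtain ⟨y, hy⟩ := nu_eq_mu (parU_ok n) X
      exact ⟨y, hy.symm⟩
  let ν : Numb n A := ⟨nu (parU n) n, rfl, hnu⟩
  let μ : Numb n A := ⟨mu (parU n) n, hr, hmu⟩
  have hνp : Positive ν.map := nu_positive hn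
  have hμp : ¬ Positive μ.map := mu_not_positive hn
  have hle : ∀ β α : Numb n A, β ≤ α ↔ Red β.map α.map := fun _ _ => Iff.rfl
  have hνμ : ¬ ν ≤ μ := nu_not_red_mu hn
  have hdich : ∀ β : Numb n A, (β ≤ ν ∧ ν ≤ β) ∨ μ ≤ β := fun β => dichotomy hn β
  have hminν : IsMin (cls ν) := by
    intro b hb
    induction b using Antisymmetrization.ind with
    | _ β =>
      rw [toAntisymmetrization_le_toAntisymmetrization_iff] at hb ⊢
      rcases hdich β with h | h
      · exact h.2
      · exact absurd (hνp.of_red ((hle _ _).1 (h.trans hb))) hμp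
  have hminμ : IsMin (cls μ) := by
    intro b hb
    induction b using Antisymmetrization.ind with
    | _ β =>
      rw [toAntisymmetrization_le_toAntisymmetrization_iff] at hb ⊢
      rcases hdich β with h | h
      · exact absurd (h.2.trans hb) hνμ
      · exact h
  have hne : cls ν ≠ cls μ := by
    intro h
    exact hνμ (toAntisymmetrization_le_toAntisymmetrization_iff.1 h.le)
  have hset : {a : Rogers n A | IsMin a} = {cls ν, cls μ} := by
    ext a
    constructor
    · intro ha
      replace ha : IsMin a := ha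
      induction a using Antisymmetrization.ind with
      | _ β =>
        rcases hdich β with h | h
        · left
          exact le_antisymm (toAntisymmetrization_le_toAntisymmetrization_iff.2 h.1)
            (toAntisymmetrization_le_toAntisymmetrization_iff.2 h.2)
        · right
          have h1 : cls μ ≤ cls β := toAntisymmetrization_le_toAntisymmetrization_iff.2 h
          exact le_antisymm (ha h1) h1
    · rintro (rfl | rfl)
      · exact hminν
      · exact hminμ
  refine ⟨A, ?_, ν, μ, hνp, ?_, ?_, hset, ?_, hμp, hνμ, hdich⟩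
  · rintro S ⟨X, rfl⟩
    have h1 : Computable fun x : ℕ => Nat.pair x X :=
      (Primrec₂.natPair.comp Primrec.id (Primrec.const X)).to_comp
    have h2 := nce_preimage hnu h1
    have h3 : (fun x : ℕ => Nat.pair x X) ⁻¹'
        {z | (Nat.unpair z).1 ∈ nu (parU n) n (Nat.unpair z).2} = nu (parU n) n X := by
      ext x
      simp
    rwa [h3] at h2
  · intro β hβ
    rcases hdich β with h | h
    · exact h
    · exact absurd (hβ.of_red ((hle _ _).1 h)) hμp
  · intro h
    exact hνμ (h μ)
  · rw [hset]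
    exact Set.encard_pair hne

end Pool.Agent.Results.MP_5566a7_lc.ErshovTwoMinimal
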