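import Mathlib

set_option autoImplicit false

namespace Pool.Agent.Results.MP_5566a7_lc.UniqueMinimal

open Nat.Partrec (Code)

/-- `X` is `n`-c.e., that is, belongs to the level `n` of the Ershov hierarchy: its characteristic
function is the limit of a computable function `g` with `g x 0 = 0` and at most `n` changes. -/
def NCE (n : ℕ) (X : Set ℕ) : Prop :=
  ∃ g : ℕ → ℕ → Bool, Computable₂ g ∧ ∀ x, g x 0 = false ∧
    (∃ s₀, ∀ s ≥ s₀, (g x s = true ↔ x ∈ X)) ∧ {s | g x (s + 1) ≠ g x s}.encard ≤ n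

/-- `α` is a numbering of the family `A`, computable at level `n` of the Ershov hierarchy. -/
structure CompNum (n : ℕ) (A : Set (Set ℕ)) (α : ℕ → Set ℕ) : Prop where
  range_eq : Set.range α = A
  nce : NCE n {z | z.unpair.2 ∈ α z.unpair.1}

/-- `α ≤ β` -/
def Red (α β : ℕ → Set ℕ) : Prop := ∃ f : ℕ → ℕ, Computable f ∧ ∀ x, α x = β (f x)

/-- `α` and `β` are equivalent -/
def Equi (α β : ℕ → Set ℕ) : Prop := Red α β ∧ Red β α

/-- `α` is positive: its equality relation is computably enumerable -/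
def Positive (α : ℕ → Set ℕ) : Prop := REPred fun p : ℕ × ℕ => α p.1 = α p.2

/-- `α` is the least computable numbering of `A` -/
def Least (n : ℕ) (A : Set (Set ℕ)) (α : ℕ → Set ℕ) : Prop := ∀ β, CompNum n A β → Red α β

/-- the class of `α` is a minimal element of the Rogers semilattice of `A` -/
def MinimalElement (n : ℕ) (A : Set (Set ℕ)) (α : ℕ → Set ℕ) : Prop :=
  CompNum n A α ∧ ∀ β, CompNum n A β → Red β α → Red α β

/-! ### Helper lemmas on primitive recursive predicates -/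

section Aux
variable {α : Type*} [Primcodable α]

theorem ex_lt {R : ℕ → α → Prop} {f : α → ℕ} (hR : PrimrecRel R) (hf : Primrec f) :
    PrimrecPred fun a => ∃ x < f a, R x a :=
  (hR.exists_mem_list.comp (Primrec.list_range.comp hf) Primrec.id).of_eq (by simp)

theorem all_lt {R : ℕ → α → Prop} {f : α → ℕ} (hR : PrimrecRel R) (hf : Primrec f) :
    PrimrecPred fun a => ∀ x < f a, R x a :=
  (hR.forall_mem_list.comp (Primrec.list_range.comp hf) Primrec.id).of_eq (by simp)

theorem imp_pred {p q : α → Prop} (hp : PrimrecPred p) (hq : PrimrecPred q) :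
    PrimrecPred fun a => p a → q a :=
  (hp.not.or hq).of_eq fun a => by tauto

theorem ex_pre {R : List ℕ → α → Prop} {f : α → List ℕ} (hR : PrimrecRel R) (hf : Primrec f) :
    PrimrecPred fun a => ∃ σ < (f a).length + 1, R ((f a).take σ) a := by
  refine ex_lt (R := fun σ a => R ((f a).take σ) a) (f := fun a => (f a).length + 1) ?_
    (Primrec.succ.comp (Primrec.list_length.comp hf))
  exact hR.comp₂ (Primrec.list_take.comp₂ Primrec₂.left (hf.comp₂ Primrec₂.right)) Primrec₂.right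

end Aux

/-! ### Opponents -/

/-- stage `s` of the `e`-th c.e. set -/
def W (s e y : ℕ) : Bool := (Code.evaln s (Denumerable.ofNat Code e) y).isSome

/-- stage `s` of token `w`: the section `w.unpair.2` of the difference of the two c.e. sets coded
by `w.unpair.1` -/
def Dm (s w x : ℕ) : Bool :=
  W s w.unpair.1.unpair.1 (Nat.pair w.unpair.2 x) && !W s w.unpair.1.unpair.2 (Nat.pair w.unpair.2 x)

/-! ### Names -/

def nm (c p w : ℕ) : ℕ := Nat.pair (Nat.pair c p) w
def cN (z : ℕ) : ℕ := z.unpair.1.unpair.1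
def pN (z : ℕ) : ℕ := z.unpair.1.unpair.2
def wN (z : ℕ) : ℕ := z.unpair.2
def eN (z : ℕ) : ℕ := z.unpair.2.unpair.1
def tN (z : ℕ) : ℕ := z.unpair.2.unpair.2

def ev (s i t : ℕ) : Option ℕ := Code.evaln s (Denumerable.ofNat Code i) t

/-! ### Requirements and blocks -/

def eQ (k : ℕ) : ℕ := k.unpair.1
def iQ (k : ℕ) : ℕ := k.unpair.2
def rB (b : ℕ) : ℕ := b.unpair.1
def GB (b : ℕ) : List ℕ := Denumerable.ofNat (List ℕ) b.unpair.2.unpair.1

/-- the other position in the same block -/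
def sw (p : ℕ) : ℕ := if p % 2 = 0 then p + 1 else p - 1

/-! ### The state of a block -/

/-- effect of a history entry `x` on the state of the block `b` -/
def stf (b : ℕ) (a : ℕ × ℕ) (x : ℕ) : ℕ × ℕ :=
  if x ≠ 0 ∧ (x - 1).unpair.1 = b then (a.1 + 1, (x - 1).unpair.2) else a

def st (L : List ℕ) (b : ℕ) : ℕ × ℕ := L.foldl (stf b) (0, Nat.pair (rB b) 0)
/-- number of configuration changes of the block -/
def cfg (L : List ℕ) (b : ℕ) : ℕ := (st L b).1
/-- holder of the block -/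
def hol (L : List ℕ) (b : ℕ) : ℕ := (st L b).2.unpair.1
/-- the token used by the holder -/
def xx (L : List ℕ) (b : ℕ) : ℕ := (st L b).2.unpair.2

/-- the token `t` of `e` shows at present the valid name of the position `p` -/
def Sh (L : List ℕ) (e t p : ℕ) : Prop :=
  Dm L.length (Nat.pair e t) (nm (cfg L (p / 2)) p (Nat.pair e t)) = true

/-- the token has shown the name of the position `p` in the configuration `c` -/
def ES (L : List ℕ) (e t c p : ℕ) : Prop :=
  ∃ σ < L.length + 1, cfg (L.take σ) (p / 2) = c ∧ Sh (L.take σ) e t p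

def Fst0 (L : List ℕ) (e p t : ℕ) : Prop :=
  Sh L e t p ∧ (∀ t' < t, ¬ Sh L e t' p) ∧ ∀ σ < L.length, ∀ t' < σ, ¬ Sh (L.take σ) e t' p

/-- `t` is the first token of `e` shown at the position `p` -/
def Fst (L : List ℕ) (e p t : ℕ) : Prop := ∃ σ < L.length + 1, Fst0 (L.take σ) e p t

/-- the two first tokens of the block have been shown in the present configuration -/
def Wt (L : List ℕ) (e b : ℕ) : Prop :=
  (∃ t < L.length, Fst L e (2 * b) t ∧ ES L e t (cfg L b) (2 * b)) ∧
    ∃ t < L.length, Fst L e (2 * b + 1) t ∧ ES L e t (cfg L b) (2 * b + 1)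

def Cc (L : List ℕ) (e b : ℕ) : Prop :=
  b ≤ L.length ∧ ∀ b' < b + 1, cfg L b' % 2 = 0 → e ∈ GB b' → ¬ hol L b' < e → Wt L e b'

def seen (L : List ℕ) (e b : ℕ) : Prop := ∃ σ < L.length + 1, Cc (L.take σ) e b

/-- the block `b` is frozen for `k` -/
def Fz (L : List ℕ) (b k : ℕ) : Prop := ∃ e < k + 1, e ∉ GB b ∧ seen L e b

/-- the two blocks have the same guess up to `k` -/
def SV (k b b' : ℕ) : Prop :=
  (∀ j < k + 1, j ∈ GB b → j ∈ GB b') ∧ ∀ j < k + 1, j ∈ GB b' → j ∈ GB b

/-- the block `b` is active and the first token of the odd position moved to the even one -/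
def EvA (L : List ℕ) (e b : ℕ) : Prop :=
  L.length.unpair.1 = b ∧ cfg L b % 2 = 1 ∧ (∃ x < L.length, Sh L e x (2 * b + 1)) ∧
    ∃ t < L.length, Fst L e (2 * b + 1) t ∧ Sh L e t (2 * b)

def EvB (L : List ℕ) (e b : ℕ) : Prop := ∃ σ < L.length, EvA (L.take σ) e b

def Need (L : List ℕ) (b k : ℕ) : Prop :=
  ∀ b' < L.length, 2 ≤ cfg L b' → hol L b' = k → SV k b' b → Fz L b' k

/-- `k` can attack the block `b` with the token `x` -/
def Elig (L : List ℕ) (b k x : ℕ) : Prop :=
  k < hol L b ∧ b ≠ 0 ∧ eQ k ∈ GB b ∧ EvA L (eQ k) b ∧ ¬ EvB L (eQ k) b ∧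
    Sh L (eQ k) x (2 * b + 1) ∧ ¬ Fz L b k ∧ Need L b k

def Brk (L : List ℕ) (b : ℕ) : Prop :=
  cfg L b = 0 ∧ (∀ e < rB b + 1, e ∈ GB b → seen L e b) ∧ ¬ Fz L b (rB b) ∧
    ev L.length (rB b) (2 * b + 1) = some (3 * b + 1) ∧
    ∀ b' < L.length, rB b' = rB b → SV (rB b) b' b → cfg L b' % 2 = 0

def Ret (L : List ℕ) (b : ℕ) : Prop :=
  cfg L b ≠ 0 ∧ cfg L b % 2 = 0 ∧ ev L.length (iQ (hol L b)) (xx L b) ≠ none ∧
    Fst L (eQ (hol L b)) (2 * b + 1)
      ((ev L.length (iQ (hol L b)) (xx L b)).getD 0).unpair.1 ∧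
    (∀ e < hol L b + 1, e ∈ GB b → Wt L e b) ∧ ¬ Fz L b (hol L b)

/-- the entry `a` describes an attack on the block `b` -/
def Att (L : List ℕ) (b a : ℕ) : Prop :=
  a ≠ 0 ∧ (a - 1).unpair.1 = b ∧ (a - 1).unpair.2.unpair.1 < L.length ∧
    Elig L b (a - 1).unpair.2.unpair.1 (a - 1).unpair.2.unpair.2 ∧
    ∀ k' < (a - 1).unpair.2.unpair.1, ∀ x' < L.length, ¬ Elig L b k' x'

open Classical in
/-- the action at the stage after history `L` -/
noncomputable def step (L : List ℕ) : ℕ :=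
  if Brk L L.length.unpair.1 then
    Nat.pair L.length.unpair.1 (Nat.pair (rB L.length.unpair.1) 0) + 1
  else if Ret L L.length.unpair.1 then
    Nat.pair L.length.unpair.1 (st L L.length.unpair.1).2 + 1
  else Nat.findGreatest (Att L L.length.unpair.1)
    (Nat.pair L.length (Nat.pair L.length L.length) + 1)

noncomputable def hist (s : ℕ) : List ℕ := Nat.rec [] (fun _ H => H ++ [step H]) s

/-! ### Primitive recursiveness -/

theorem primrec_W : Primrec (fun p : ℕ × ℕ × ℕ => W p.1 p.2.1 p.2.2) := by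
  unfold W
  refine Primrec.option_isSome.comp ?_
  exact Code.primrec_evaln.comp
    ((Primrec.fst.pair ((Primrec.ofNat Code).comp (Primrec.fst.comp Primrec.snd))).pair
      (Primrec.snd.comp Primrec.snd))

theorem primrec_u1 : Primrec (fun n : ℕ => n.unpair.1) := Primrec.fst.comp Primrec.unpair
theorem primrec_u2 : Primrec (fun n : ℕ => n.unpair.2) := Primrec.snd.comp Primrec.unpair

theorem primrec_Dm {α : Type*} [Primcodable α] {f g h : α → ℕ} (hf : Primrec f) (hg : Primrec g)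
    (hh : Primrec h) : Primrec (fun a => Dm (f a) (g a) (h a)) := by
  unfold Dm
  have h1 : Primrec (fun a => Nat.pair (g a).unpair.2 (h a)) :=
    Primrec₂.natPair.comp (primrec_u2.comp hg) hh
  refine Primrec.and.comp (primrec_W.comp (hf.pair ((primrec_u1.comp (primrec_u1.comp hg)).pair h1)))
    (Primrec.not.comp (primrec_W.comp (hf.pair ((primrec_u2.comp (primrec_u1.comp hg)).pair h1))))

theorem primrec_ev {α : Type*} [Primcodable α] {f g h : α → ℕ} (hf : Primrec f) (hg : Primrec g)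
    (hh : Primrec h) : Primrec (fun a => ev (f a) (g a) (h a)) := by
  unfold ev
  exact Code.primrec_evaln.comp ((hf.pair ((Primrec.ofNat Code).comp hg)).pair hh)

theorem primrec_cN : Primrec cN := primrec_u1.comp primrec_u1
theorem primrec_pN : Primrec pN := primrec_u2.comp primrec_u1
theorem primrec_wN : Primrec wN := primrec_u2
theorem primrec_eN : Primrec eN := primrec_u1.comp primrec_u2
theorem primrec_tN : Primrec tN := primrec_u2.comp primrec_u2
theorem primrec_mem : PrimrecRel (fun (x : ℕ) (L : List ℕ) => x ∈ L) := by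
  have h : PrimrecRel (fun (L : List ℕ) (x : ℕ) => ∃ a ∈ L, a = x) :=
    PrimrecRel.exists_mem_list Primrec.eq
  exact (h.comp₂ Primrec₂.right Primrec₂.left).of_eq fun x L => by simp

theorem primrec_eQ : Primrec eQ := primrec_u1
theorem primrec_iQ : Primrec iQ := primrec_u2
theorem primrec_rB : Primrec rB := primrec_u1
theorem primrec_GB : Primrec GB := (Primrec.ofNat (List ℕ)).comp (primrec_u1.comp primrec_u2)

theorem primrec_half {α : Type*} [Primcodable α] {f : α → ℕ} (hf : Primrec f) :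
    Primrec (fun a => f a / 2) := Primrec.nat_div.comp hf (Primrec.const 2)

theorem primrec_mod2 {α : Type*} [Primcodable α] {f : α → ℕ} (hf : Primrec f) :
    Primrec (fun a => f a % 2) := Primrec.nat_mod.comp hf (Primrec.const 2)

theorem primrec_dbl {α : Type*} [Primcodable α] {f : α → ℕ} (hf : Primrec f) :
    Primrec (fun a => 2 * f a) := Primrec.nat_mul.comp (Primrec.const 2) hf

theorem primrec_dbl1 {α : Type*} [Primcodable α] {f : α → ℕ} (hf : Primrec f) :
    Primrec (fun a => 2 * f a + 1) := Primrec.succ.comp (primrec_dbl hf)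

theorem primrec_sw : Primrec sw := by
  unfold sw
  exact Primrec.ite (Primrec.eq.comp (Primrec.nat_mod.comp Primrec.id (Primrec.const 2))
    (Primrec.const 0)) Primrec.succ Primrec.pred

section P
variable {α : Type*} [Primcodable α]

theorem primrec_nm {f g h : α → ℕ} (hf : Primrec f) (hg : Primrec g) (hh : Primrec h) :
    Primrec (fun a => nm (f a) (g a) (h a)) := by
  unfold nm
  exact Primrec₂.natPair.comp (Primrec₂.natPair.comp hf hg) hh

theorem primrec_inGB {f g : α → ℕ} (hf : Primrec f) (hg : Primrec g) :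
    PrimrecPred (fun a => f a ∈ GB (g a)) := primrec_mem.comp hf (primrec_GB.comp hg)

theorem primrec_st {L : α → List ℕ} {b : α → ℕ} (hL : Primrec L) (hb : Primrec b) :
    Primrec (fun a => st (L a) (b a)) := by
  unfold st
  refine Primrec.list_foldl (h := fun a (x : (ℕ × ℕ) × ℕ) => stf (b a) x.1 x.2) hL
    ((Primrec.const 0).pair (Primrec₂.natPair.comp (primrec_rB.comp hb) (Primrec.const 0))) ?_
  unfold stf
  have x1 : Primrec (fun q : α × ((ℕ × ℕ) × ℕ) => q.2.1) := Primrec.fst.comp Primrec.snd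
  have x2 : Primrec (fun q : α × ((ℕ × ℕ) × ℕ) => q.2.2) := Primrec.snd.comp Primrec.snd
  have x3 : Primrec (fun q : α × ((ℕ × ℕ) × ℕ) => q.2.2 - 1) := Primrec.pred.comp x2
  refine Primrec.ite ?_ ?_ x1
  · exact (Primrec.eq.comp x2 (Primrec.const 0)).not.and
      (Primrec.eq.comp (primrec_u1.comp x3) (hb.comp Primrec.fst))
  · exact (Primrec.succ.comp (Primrec.fst.comp x1)).pair (primrec_u2.comp x3)

theorem primrec_cfg {L : α → List ℕ} {b : α → ℕ} (hL : Primrec L) (hb : Primrec b) :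
    Primrec (fun a => cfg (L a) (b a)) := Primrec.fst.comp (primrec_st hL hb)

theorem primrec_hol {L : α → List ℕ} {b : α → ℕ} (hL : Primrec L) (hb : Primrec b) :
    Primrec (fun a => hol (L a) (b a)) :=
  primrec_u1.comp (Primrec.snd.comp (primrec_st hL hb))

theorem primrec_xx {L : α → List ℕ} {b : α → ℕ} (hL : Primrec L) (hb : Primrec b) :
    Primrec (fun a => xx (L a) (b a)) :=
  primrec_u2.comp (Primrec.snd.comp (primrec_st hL hb))

theorem primrec_Sh {L : α → List ℕ} {e t p : α → ℕ} (hL : Primrec L) (he : Primrec e)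
    (ht : Primrec t) (hp : Primrec p) :
    PrimrecPred (fun a => Sh (L a) (e a) (t a) (p a)) := by
  unfold Sh
  have hw : Primrec (fun a => Nat.pair (e a) (t a)) := Primrec₂.natPair.comp he ht
  exact Primrec.eq.comp (primrec_Dm (Primrec.list_length.comp hL) hw
    (primrec_nm (primrec_cfg hL (primrec_half hp)) hp hw)) (Primrec.const true)

theorem primrec_ES {L : α → List ℕ} {e t c p : α → ℕ} (hL : Primrec L) (he : Primrec e)
    (ht : Primrec t) (hc : Primrec c) (hp : Primrec p) :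
    PrimrecPred (fun a => ES (L a) (e a) (t a) (c a) (p a)) := by
  unfold ES
  refine ex_pre (R := fun M a => cfg M (p a / 2) = c a ∧ Sh M (e a) (t a) (p a)) ?_ hL
  exact (Primrec.eq.comp (primrec_cfg Primrec.fst (primrec_half (hp.comp Primrec.snd)))
    (hc.comp Primrec.snd)).and
    (primrec_Sh Primrec.fst (he.comp Primrec.snd) (ht.comp Primrec.snd) (hp.comp Primrec.snd))

theorem primrec_Fst0 {L : α → List ℕ} {e p t : α → ℕ} (hL : Primrec L) (he : Primrec e)
    (hp : Primrec p) (ht : Primrec t) :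
    PrimrecPred (fun a => Fst0 (L a) (e a) (p a) (t a)) := by
  unfold Fst0
  refine (primrec_Sh hL he ht hp).and (PrimrecPred.and ?_ ?_)
  · exact all_lt (R := fun t' a => ¬ Sh (L a) (e a) t' (p a))
      (primrec_Sh (hL.comp Primrec.snd) (he.comp Primrec.snd) Primrec.fst
        (hp.comp Primrec.snd)).not ht
  · refine all_lt (R := fun σ a => ∀ t' < σ, ¬ Sh ((L a).take σ) (e a) t' (p a)) ?_
      (Primrec.list_length.comp hL)
    refine all_lt (R := fun t' (x : ℕ × α) => ¬ Sh ((L x.2).take x.1) (e x.2) t' (p x.2)) ?_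
      Primrec.fst
    have h1 : Primrec (fun y : ℕ × (ℕ × α) => (L y.2.2).take y.2.1) :=
      Primrec.list_take.comp (Primrec.fst.comp Primrec.snd)
        (hL.comp (Primrec.snd.comp Primrec.snd))
    exact (primrec_Sh h1 (he.comp (Primrec.snd.comp Primrec.snd)) Primrec.fst
      (hp.comp (Primrec.snd.comp Primrec.snd))).not

theorem primrec_Fst {L : α → List ℕ} {e p t : α → ℕ} (hL : Primrec L) (he : Primrec e)
    (hp : Primrec p) (ht : Primrec t) :
    PrimrecPred (fun a => Fst (L a) (e a) (p a) (t a)) := by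
  unfold Fst
  exact ex_pre (R := fun M a => Fst0 M (e a) (p a) (t a))
    (primrec_Fst0 Primrec.fst (he.comp Primrec.snd) (hp.comp Primrec.snd)
      (ht.comp Primrec.snd)) hL

theorem primrec_Wt {L : α → List ℕ} {e b : α → ℕ} (hL : Primrec L) (he : Primrec e)
    (hb : Primrec b) : PrimrecPred (fun a => Wt (L a) (e a) (b a)) := by
  unfold Wt
  have hb2 := hb.comp (Primrec.snd (α := ℕ))
  have hL2 := hL.comp (Primrec.snd (α := ℕ))
  have he2 := he.comp (Primrec.snd (α := ℕ))
  refine PrimrecPred.and ?_ ?_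
  · refine ex_lt (R := fun t a => Fst (L a) (e a) (2 * b a) t ∧
      ES (L a) (e a) t (cfg (L a) (b a)) (2 * b a)) ?_ (Primrec.list_length.comp hL)
    exact (primrec_Fst hL2 he2 (primrec_dbl hb2) Primrec.fst).and
      (primrec_ES hL2 he2 Primrec.fst (primrec_cfg hL2 hb2) (primrec_dbl hb2))
  · refine ex_lt (R := fun t a => Fst (L a) (e a) (2 * b a + 1) t ∧
      ES (L a) (e a) t (cfg (L a) (b a)) (2 * b a + 1)) ?_ (Primrec.list_length.comp hL)
    exact (primrec_Fst hL2 he2 (primrec_dbl1 hb2) Primrec.fst).and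
      (primrec_ES hL2 he2 Primrec.fst (primrec_cfg hL2 hb2) (primrec_dbl1 hb2))

theorem primrec_Cc {L : α → List ℕ} {e b : α → ℕ} (hL : Primrec L) (he : Primrec e)
    (hb : Primrec b) : PrimrecPred (fun a => Cc (L a) (e a) (b a)) := by
  unfold Cc
  have hL2 := hL.comp (Primrec.snd (α := ℕ))
  have he2 := he.comp (Primrec.snd (α := ℕ))
  refine (Primrec.nat_le.comp hb (Primrec.list_length.comp hL)).and ?_
  refine all_lt (R := fun b' a => cfg (L a) b' % 2 = 0 → e a ∈ GB b' → ¬ hol (L a) b' < e a →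
    Wt (L a) (e a) b') ?_ (Primrec.succ.comp hb)
  refine imp_pred (Primrec.eq.comp (primrec_mod2 (primrec_cfg hL2 Primrec.fst))
    (Primrec.const 0)) (imp_pred (primrec_inGB he2 Primrec.fst) (imp_pred ?_ ?_))
  · exact (Primrec.nat_lt.comp (primrec_hol hL2 Primrec.fst) he2).not
  · exact primrec_Wt hL2 he2 Primrec.fst

theorem primrec_seen {L : α → List ℕ} {e b : α → ℕ} (hL : Primrec L) (he : Primrec e)
    (hb : Primrec b) : PrimrecPred (fun a => seen (L a) (e a) (b a)) := by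
  unfold seen
  exact ex_pre (R := fun M a => Cc M (e a) (b a))
    (primrec_Cc Primrec.fst (he.comp Primrec.snd) (hb.comp Primrec.snd)) hL

theorem primrec_Fz {L : α → List ℕ} {b k : α → ℕ} (hL : Primrec L) (hb : Primrec b)
    (hk : Primrec k) : PrimrecPred (fun a => Fz (L a) (b a) (k a)) := by
  unfold Fz
  refine ex_lt (R := fun e a => e ∉ GB (b a) ∧ seen (L a) e (b a)) ?_ (Primrec.succ.comp hk)
  exact (primrec_inGB Primrec.fst (hb.comp Primrec.snd)).not.and
    (primrec_seen (hL.comp Primrec.snd) Primrec.fst (hb.comp Primrec.snd))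

theorem primrec_SV {k b c : α → ℕ} (hk : Primrec k) (hb : Primrec b) (hc : Primrec c) :
    PrimrecPred (fun a => SV (k a) (b a) (c a)) := by
  unfold SV
  have hb2 := hb.comp (Primrec.snd (α := ℕ))
  have hc2 := hc.comp (Primrec.snd (α := ℕ))
  refine PrimrecPred.and ?_ ?_
  · exact all_lt (R := fun j a => j ∈ GB (b a) → j ∈ GB (c a))
      (imp_pred (primrec_inGB Primrec.fst hb2) (primrec_inGB Primrec.fst hc2))
      (Primrec.succ.comp hk)
  · exact all_lt (R := fun j a => j ∈ GB (c a) → j ∈ GB (b a))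
      (imp_pred (primrec_inGB Primrec.fst hc2) (primrec_inGB Primrec.fst hb2))
      (Primrec.succ.comp hk)

theorem primrec_EvA {L : α → List ℕ} {e b : α → ℕ} (hL : Primrec L) (he : Primrec e)
    (hb : Primrec b) : PrimrecPred (fun a => EvA (L a) (e a) (b a)) := by
  unfold EvA
  have hb2 := hb.comp (Primrec.snd (α := ℕ))
  have hL2 := hL.comp (Primrec.snd (α := ℕ))
  have he2 := he.comp (Primrec.snd (α := ℕ))
  have hlen := Primrec.list_length.comp hL
  refine (Primrec.eq.comp (primrec_u1.comp hlen) hb).and ((Primrec.eq.comp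
    (primrec_mod2 (primrec_cfg hL hb)) (Primrec.const 1)).and (PrimrecPred.and ?_ ?_))
  · exact ex_lt (R := fun x a => Sh (L a) (e a) x (2 * b a + 1))
      (primrec_Sh hL2 he2 Primrec.fst (primrec_dbl1 hb2)) hlen
  · exact ex_lt (R := fun t a => Fst (L a) (e a) (2 * b a + 1) t ∧ Sh (L a) (e a) t (2 * b a))
      ((primrec_Fst hL2 he2 (primrec_dbl1 hb2) Primrec.fst).and
        (primrec_Sh hL2 he2 Primrec.fst (primrec_dbl hb2))) hlen

theorem primrec_EvB {L : α → List ℕ} {e b : α → ℕ} (hL : Primrec L) (he : Primrec e)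
    (hb : Primrec b) : PrimrecPred (fun a => EvB (L a) (e a) (b a)) := by
  unfold EvB
  refine ex_lt (R := fun σ a => EvA ((L a).take σ) (e a) (b a)) ?_ (Primrec.list_length.comp hL)
  exact primrec_EvA (Primrec.list_take.comp Primrec.fst (hL.comp Primrec.snd))
    (he.comp Primrec.snd) (hb.comp Primrec.snd)

theorem primrec_Need {L : α → List ℕ} {b k : α → ℕ} (hL : Primrec L) (hb : Primrec b)
    (hk : Primrec k) : PrimrecPred (fun a => Need (L a) (b a) (k a)) := by
  unfold Need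
  have hb2 := hb.comp (Primrec.snd (α := ℕ))
  have hL2 := hL.comp (Primrec.snd (α := ℕ))
  have hk2 := hk.comp (Primrec.snd (α := ℕ))
  refine all_lt (R := fun b' a => 2 ≤ cfg (L a) b' → hol (L a) b' = k a → SV (k a) b' (b a) →
    Fz (L a) b' (k a)) ?_ (Primrec.list_length.comp hL)
  refine imp_pred (Primrec.nat_le.comp (Primrec.const 2) (primrec_cfg hL2 Primrec.fst))
    (imp_pred (Primrec.eq.comp (primrec_hol hL2 Primrec.fst) hk2)
      (imp_pred (primrec_SV hk2 Primrec.fst hb2) (primrec_Fz hL2 Primrec.fst hk2)))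

theorem primrec_Elig {L : α → List ℕ} {b k x : α → ℕ} (hL : Primrec L) (hb : Primrec b)
    (hk : Primrec k) (hx : Primrec x) :
    PrimrecPred (fun a => Elig (L a) (b a) (k a) (x a)) := by
  unfold Elig
  have hek := primrec_eQ.comp hk
  exact (Primrec.nat_lt.comp hk (primrec_hol hL hb)).and
    ((Primrec.eq.comp hb (Primrec.const 0)).not.and ((primrec_inGB hek hb).and
    ((primrec_EvA hL hek hb).and ((primrec_EvB hL hek hb).not.and
    ((primrec_Sh hL hek hx (primrec_dbl1 hb)).and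
    ((primrec_Fz hL hb hk).not.and (primrec_Need hL hb hk)))))))

theorem primrec_Brk {L : α → List ℕ} {b : α → ℕ} (hL : Primrec L) (hb : Primrec b) :
    PrimrecPred (fun a => Brk (L a) (b a)) := by
  unfold Brk
  have hb2 := hb.comp (Primrec.snd (α := ℕ))
  have hL2 := hL.comp (Primrec.snd (α := ℕ))
  have hlen := Primrec.list_length.comp hL
  have hr := primrec_rB.comp hb
  refine (Primrec.eq.comp (primrec_cfg hL hb) (Primrec.const 0)).and (PrimrecPred.and ?_
    ((primrec_Fz hL hb hr).not.and (PrimrecPred.and ?_ ?_)))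
  · exact all_lt (R := fun e a => e ∈ GB (b a) → seen (L a) e (b a))
      (imp_pred (primrec_inGB Primrec.fst hb2) (primrec_seen hL2 Primrec.fst hb2))
      (Primrec.succ.comp hr)
  · exact Primrec.eq.comp (primrec_ev hlen hr (primrec_dbl1 hb)) (Primrec.option_some.comp
      (Primrec.succ.comp (Primrec.nat_mul.comp (Primrec.const 3) hb)))
  · refine all_lt (R := fun b' a => rB b' = rB (b a) → SV (rB (b a)) b' (b a) →
      cfg (L a) b' % 2 = 0) ?_ hlen
    exact imp_pred (Primrec.eq.comp (primrec_rB.comp Primrec.fst) (primrec_rB.comp hb2))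
      (imp_pred (primrec_SV (primrec_rB.comp hb2) Primrec.fst hb2)
        (Primrec.eq.comp (primrec_mod2 (primrec_cfg hL2 Primrec.fst)) (Primrec.const 0)))

theorem primrec_Ret {L : α → List ℕ} {b : α → ℕ} (hL : Primrec L) (hb : Primrec b) :
    PrimrecPred (fun a => Ret (L a) (b a)) := by
  unfold Ret
  have hb2 := hb.comp (Primrec.snd (α := ℕ))
  have hL2 := hL.comp (Primrec.snd (α := ℕ))
  have hlen := Primrec.list_length.comp hL
  have hh := primrec_hol hL hb
  have hev := primrec_ev hlen (primrec_iQ.comp hh) (primrec_xx hL hb)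
  refine (Primrec.eq.comp (primrec_cfg hL hb) (Primrec.const 0)).not.and
    ((Primrec.eq.comp (primrec_mod2 (primrec_cfg hL hb)) (Primrec.const 0)).and
    ((Primrec.eq.comp hev (Primrec.const none)).not.and (PrimrecPred.and ?_
    (PrimrecPred.and ?_ (primrec_Fz hL hb hh).not))))
  · exact primrec_Fst hL (primrec_eQ.comp hh) (primrec_dbl1 hb)
      (primrec_u1.comp (Primrec.option_getD.comp hev (Primrec.const 0)))
  · exact all_lt (R := fun e a => e ∈ GB (b a) → Wt (L a) e (b a))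
      (imp_pred (primrec_inGB Primrec.fst hb2) (primrec_Wt hL2 Primrec.fst hb2))
      (Primrec.succ.comp hh)

theorem primrec_Att {L : α → List ℕ} {b a : α → ℕ} (hL : Primrec L) (hb : Primrec b)
    (ha : Primrec a) : PrimrecPred (fun x => Att (L x) (b x) (a x)) := by
  unfold Att
  have h1 : Primrec (fun x => a x - 1) := Primrec.pred.comp ha
  have hk := primrec_u1.comp (primrec_u2.comp h1)
  have hx := primrec_u2.comp (primrec_u2.comp h1)
  have hlen := Primrec.list_length.comp hL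
  refine (Primrec.eq.comp ha (Primrec.const 0)).not.and
    ((Primrec.eq.comp (primrec_u1.comp h1) hb).and ((Primrec.nat_lt.comp hk hlen).and
      ((primrec_Elig hL hb hk hx).and ?_)))
  refine all_lt (R := fun k' x => ∀ x' < (L x).length, ¬ Elig (L x) (b x) k' x') ?_ hk
  refine all_lt (R := fun x' (y : ℕ × α) => ¬ Elig (L y.2) (b y.2) y.1 x') ?_
    (Primrec.list_length.comp (hL.comp Primrec.snd))
  have y2 : Primrec (fun y : ℕ × (ℕ × α) => y.2.2) := Primrec.snd.comp Primrec.snd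
  exact (primrec_Elig (hL.comp y2) (hb.comp y2) (Primrec.fst.comp Primrec.snd) Primrec.fst).not

end P

open Classical in
theorem primrec_step : Primrec step := by
  unfold step
  have h1 : Primrec (fun L : List ℕ => L.length.unpair.1) := primrec_u1.comp Primrec.list_length
  refine Primrec.ite (primrec_Brk Primrec.id h1) ?_ (Primrec.ite (primrec_Ret Primrec.id h1) ?_ ?_)
  · exact Primrec.succ.comp (Primrec₂.natPair.comp h1
      (Primrec₂.natPair.comp (primrec_rB.comp h1) (Primrec.const 0)))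
  · exact Primrec.succ.comp (Primrec₂.natPair.comp h1
      (Primrec.snd.comp (primrec_st Primrec.id h1)))
  · refine Primrec.nat_findGreatest (p := fun L a => Att L L.length.unpair.1 a) ?_ ?_
    · exact Primrec.succ.comp (Primrec₂.natPair.comp Primrec.list_length
        (Primrec₂.natPair.comp Primrec.list_length Primrec.list_length))
    · exact primrec_Att Primrec.fst (h1.comp Primrec.fst) Primrec.snd

theorem primrec_hist : Primrec hist := by
  unfold hist
  refine Primrec.nat_rec₁ [] ?_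
  exact Primrec.list_concat.comp Primrec.snd (primrec_step.comp Primrec.snd)

/-! ### Basic facts on the history -/

theorem hist_succ (s : ℕ) : hist (s + 1) = hist s ++ [step (hist s)] := rfl

@[simp] theorem hist_length (s : ℕ) : (hist s).length = s := by
  induction s with
  | zero => rfl
  | succ s ih => rw [hist_succ, List.length_append, ih]; rfl

theorem hist_prefix {σ s : ℕ} (h : σ ≤ s) : hist σ <+: hist s := by
  induction h with
  | refl => exact List.prefix_rfl
  | step _ ih => rw [hist_succ]; exact ih.trans (List.prefix_append _ _)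

theorem hist_take {σ s : ℕ} (h : σ ≤ s) : (hist s).take σ = hist σ := by
  have := List.prefix_iff_eq_take.1 (hist_prefix h)
  rw [hist_length] at this
  exact this.symm

theorem pre_iff {R : List ℕ → Prop} {s : ℕ} :
    (∃ σ < (hist s).length + 1, R ((hist s).take σ)) ↔ ∃ σ ≤ s, R (hist σ) := by
  rw [hist_length]
  constructor
  · rintro ⟨σ, h, h'⟩
    rw [hist_take (by omega)] at h'
    exact ⟨σ, by omega, h'⟩
  · rintro ⟨σ, h, h'⟩
    exact ⟨σ, by omega, by rwa [hist_take h]⟩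

theorem ES_iff {s e t c p : ℕ} :
    ES (hist s) e t c p ↔ ∃ σ ≤ s, cfg (hist σ) (p / 2) = c ∧ Sh (hist σ) e t p :=
  pre_iff (R := fun M => cfg M (p / 2) = c ∧ Sh M e t p)

theorem Fst_iff {s e p t : ℕ} : Fst (hist s) e p t ↔ ∃ σ ≤ s, Fst0 (hist σ) e p t :=
  pre_iff (R := fun M => Fst0 M e p t)

theorem seen_iff {s e b : ℕ} : seen (hist s) e b ↔ ∃ σ ≤ s, Cc (hist σ) e b :=
  pre_iff (R := fun M => Cc M e b)

theorem Fst0_iff {s e p t : ℕ} : Fst0 (hist s) e p t ↔ Sh (hist s) e t p ∧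
    (∀ t' < t, ¬ Sh (hist s) e t' p) ∧ ∀ σ < s, ∀ t' < σ, ¬ Sh (hist σ) e t' p := by
  unfold Fst0
  rw [hist_length]
  refine and_congr_right fun _ => and_congr_right fun _ => ?_
  constructor
  · intro h σ hσ
    have := h σ hσ
    rwa [hist_take hσ.le] at this
  · intro h σ hσ
    rw [hist_take hσ.le]
    exact h σ hσ

theorem EvB_iff {s e b : ℕ} : EvB (hist s) e b ↔ ∃ σ < s, EvA (hist σ) e b := by
  unfold EvB
  rw [hist_length]
  constructor
  · rintro ⟨σ, h, h'⟩
    rw [hist_take h.le] at h'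
    exact ⟨σ, h, h'⟩
  · rintro ⟨σ, h, h'⟩
    exact ⟨σ, h, by rwa [hist_take h.le]⟩

theorem seen_mono {s s' e b : ℕ} (h : s ≤ s') (hs : seen (hist s) e b) :
    seen (hist s') e b := by
  rw [seen_iff] at *
  obtain ⟨σ, h1, h2⟩ := hs
  exact ⟨σ, h1.trans h, h2⟩

theorem Cc_anti {L : List ℕ} {e b b' : ℕ} (h : b' ≤ b) (hs : Cc L e b) : Cc L e b' :=
  ⟨h.trans hs.1, fun c hc => hs.2 c (by omega)⟩

theorem seen_anti {s e b b' : ℕ} (h : b' ≤ b) (hs : seen (hist s) e b) :
    seen (hist s) e b' := by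
  rw [seen_iff] at *
  obtain ⟨σ, h1, h2⟩ := hs
  exact ⟨σ, h1, Cc_anti h h2⟩

theorem Fz_mono {s s' b k : ℕ} (h : s ≤ s') (hs : Fz (hist s) b k) : Fz (hist s') b k := by
  obtain ⟨e, h1, h2, h3⟩ := hs
  exact ⟨e, h1, h2, seen_mono h h3⟩

theorem Fst_mono {s s' e p t : ℕ} (h : s ≤ s') (hs : Fst (hist s) e p t) :
    Fst (hist s') e p t := by
  rw [Fst_iff] at *
  obtain ⟨σ, h1, h2⟩ := hs
  exact ⟨σ, h1.trans h, h2⟩

theorem ES_mono {s s' e t c p : ℕ} (h : s ≤ s') (hs : ES (hist s) e t c p) :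
    ES (hist s') e t c p := by
  rw [ES_iff] at *
  obtain ⟨σ, h1, h2⟩ := hs
  exact ⟨σ, h1.trans h, h2⟩

/-! ### The state of a block -/

theorem st_zero (b : ℕ) : st (hist 0) b = (0, Nat.pair (rB b) 0) := rfl

theorem cfg_zero (b : ℕ) : cfg (hist 0) b = 0 := rfl
theorem hol_zero (b : ℕ) : hol (hist 0) b = rB b := by
  unfold hol; rw [st_zero]; simp

theorem st_succ (s b : ℕ) : st (hist (s + 1)) b = stf b (st (hist s) b) (step (hist s)) := by
  unfold st
  rw [hist_succ, List.foldl_append]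
  rfl

/-- the block `b` is broken at the stage `s` -/
def IsB (s b : ℕ) : Prop := s.unpair.1 = b ∧ Brk (hist s) b
/-- the block `b` is returned at the stage `s` -/
def IsR (s b : ℕ) : Prop := s.unpair.1 = b ∧ Ret (hist s) b ∧ cfg (hist s) b ≠ 0
/-- the block `b` is attacked by `k` at the stage `s` -/
def IsA (s b k x : ℕ) : Prop :=
  s.unpair.1 = b ∧ cfg (hist s) b % 2 = 1 ∧ Elig (hist s) b k x ∧
    step (hist s) = Nat.pair b (Nat.pair k x) + 1

theorem step_cases (s : ℕ) :
    step (hist s) = 0 ∨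
    (IsB s s.unpair.1 ∧ step (hist s) = Nat.pair s.unpair.1 (Nat.pair (rB s.unpair.1) 0) + 1) ∨
    (IsR s s.unpair.1 ∧ step (hist s) = Nat.pair s.unpair.1 (st (hist s) s.unpair.1).2 + 1) ∨
    (∃ k x, IsA s s.unpair.1 k x ∧
      step (hist s) = Nat.pair s.unpair.1 (Nat.pair k x) + 1) := by
  classical
  by_cases h1 : Brk (hist s) s.unpair.1
  · right; left
    refine ⟨⟨rfl, h1⟩, ?_⟩
    unfold step
    rw [hist_length, if_pos h1]
  by_cases h2 : Ret (hist s) s.unpair.1
  · right; right; left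
    refine ⟨⟨rfl, h2, h2.1⟩, ?_⟩
    unfold step
    rw [hist_length, if_neg h1, if_pos h2]
  by_cases h3 : step (hist s) = 0
  · left; exact h3
  right; right; right
  have h4 : step (hist s) = Nat.findGreatest (Att (hist s) s.unpair.1)
      (Nat.pair s (Nat.pair s s) + 1) := by
    unfold step
    rw [hist_length, if_neg h1, if_neg h2]
  have h5 := Nat.findGreatest_of_ne_zero h4.symm h3
  obtain ⟨a1, a2, a3, a4, a5⟩ := h5
  refine ⟨_, _, ⟨rfl, a4.2.2.2.1.2.1, a4, ?_⟩, ?_⟩
  · rw [Nat.pair_unpair, ← a2, Nat.pair_unpair]; omega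
  · rw [Nat.pair_unpair, ← a2, Nat.pair_unpair]; omega

theorem stf_ne {b x : ℕ} {a : ℕ × ℕ} (h : x ≠ 0 → (x - 1).unpair.1 ≠ b) : stf b a x = a := by
  unfold stf
  rw [if_neg]
  rintro ⟨h1, h2⟩
  exact h h1 h2

theorem stf_eq (b d : ℕ) (a : ℕ × ℕ) : stf b a (Nat.pair b d + 1) = (a.1 + 1, d) := by
  unfold stf
  rw [if_pos]
  · simp
  · simp

/-- how the state of a block can change -/
theorem st_cases (s b : ℕ) :
    st (hist (s + 1)) b = st (hist s) b ∨
    (IsB s b ∧ cfg (hist s) b = 0 ∧ st (hist (s + 1)) b = (1, Nat.pair (rB b) 0)) ∨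
    (IsR s b ∧ st (hist (s + 1)) b = (cfg (hist s) b + 1, (st (hist s) b).2)) ∨
    (∃ k x, IsA s b k x ∧ st (hist (s + 1)) b = (cfg (hist s) b + 1, Nat.pair k x)) := by
  by_cases hb : s.unpair.1 = b
  · subst hb
    rcases step_cases s with h | ⟨h, h'⟩ | ⟨h, h'⟩ | ⟨k, x, h, h'⟩
    · left; rw [st_succ, h]; exact stf_ne fun h => absurd rfl h
    · right; left
      refine ⟨h, h.2.1, ?_⟩
      have := h.2.1
      rw [st_succ, h', stf_eq]
      unfold cfg at this
      rw [this]
    · right; right; left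
      exact ⟨h, by rw [st_succ, h', stf_eq]; rfl⟩
    · right; right; right
      exact ⟨k, x, h, by rw [st_succ, h', stf_eq]; rfl⟩
  · left
    rw [st_succ]
    refine stf_ne fun h0 => ?_
    rcases step_cases s with h | ⟨h, h'⟩ | ⟨h, h'⟩ | ⟨k, x, h, h'⟩
    · exact absurd h h0
    · rw [h']; simpa using hb
    · rw [h']; simpa using hb
    · rw [h']; simpa using hb

theorem cfg_succ (s b : ℕ) : cfg (hist (s + 1)) b = cfg (hist s) b ∨
    cfg (hist (s + 1)) b = cfg (hist s) b + 1 := by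
  rcases st_cases s b with h | ⟨_, h0, h⟩ | ⟨_, h⟩ | ⟨k, x, _, h⟩
  · left; unfold cfg; rw [h]
  · right; rw [h0]; unfold cfg; rw [h]
  · right; conv_lhs => unfold cfg
    rw [h]
  · right; conv_lhs => unfold cfg
    rw [h]

theorem cfg_mono {s s' b : ℕ} (h : s ≤ s') : cfg (hist s) b ≤ cfg (hist s') b := by
  induction s', h using Nat.le_induction with
  | base => exact le_rfl
  | succ m _ ih => rcases cfg_succ m b with h | h <;> omega

theorem st_eq {s s' b : ℕ} (h : s ≤ s') (hc : cfg (hist s) b = cfg (hist s') b) :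
    st (hist s') b = st (hist s) b := by
  induction s', h using Nat.le_induction with
  | base => rfl
  | succ m hm ih =>
    have h1 := cfg_mono (b := b) hm
    have h2 := cfg_mono (b := b) (Nat.le_add_right m 1)
    have h3 := ih (by omega)
    rcases st_cases m b with h | ⟨_, h0, h⟩ | ⟨_, h⟩ | ⟨k, x, _, h⟩
    · rw [h, h3]
    · exfalso
      have : cfg (hist (m + 1)) b = 1 := by unfold cfg; rw [h]
      omega
    · exfalso
      have : cfg (hist (m + 1)) b = cfg (hist m) b + 1 := by conv_lhs => unfold cfg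
                                                             rw [h]
      omega
    · exfalso
      have : cfg (hist (m + 1)) b = cfg (hist m) b + 1 := by conv_lhs => unfold cfg
                                                             rw [h]
      omega

theorem hol_eq_of_st {s s' b : ℕ} (h : st (hist s') b = st (hist s) b) :
    hol (hist s') b = hol (hist s) b := by unfold hol; rw [h]

theorem hol_succ (s b : ℕ) : hol (hist (s + 1)) b = hol (hist s) b ∨
    (∃ k x, IsA s b k x ∧ hol (hist (s + 1)) b = k ∧ xx (hist (s + 1)) b = x ∧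
      cfg (hist (s + 1)) b = cfg (hist s) b + 1 ∧ k < hol (hist s) b) ∨
    (IsB s b ∧ hol (hist (s + 1)) b = rB b) := by
  rcases st_cases s b with h | ⟨h1, h0, h⟩ | ⟨_, h⟩ | ⟨k, x, h1, h⟩
  · left; exact hol_eq_of_st h
  · right; right; exact ⟨h1, by unfold hol; rw [h]; simp⟩
  · left; unfold hol; rw [h]
  · right; left
    refine ⟨k, x, h1, ?_, ?_, ?_, h1.2.2.1.1⟩
    · unfold hol; rw [h]; simp
    · unfold xx; rw [h]; simp
    · conv_lhs => unfold cfg
      rw [h]

theorem hol_zero_cfg {s b : ℕ} (h : cfg (hist s) b = 0) : hol (hist s) b = rB b := by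
  have := st_eq (Nat.zero_le s) (b := b) (by rw [cfg_zero, h])
  rw [hol_eq_of_st this, hol_zero]

theorem hol_anti {s s' b : ℕ} (h : s ≤ s') : hol (hist s') b ≤ hol (hist s) b := by
  induction s', h using Nat.le_induction with
  | base => exact le_rfl
  | succ m _ ih =>
    rcases hol_succ m b with h | ⟨k, x, _, h, _, _, h'⟩ | ⟨h1, h⟩
    · rw [h]; exact ih
    · rw [h]; omega
    · rw [h, ← hol_zero_cfg h1.2.1]; exact ih

theorem hol_le (s b : ℕ) : hol (hist s) b ≤ rB b := by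
  have := hol_anti (Nat.zero_le s) (b := b)
  rwa [hol_zero] at this

/-- potential function -/
theorem pot (s b : ℕ) : cfg (hist s) b + 2 * hol (hist s) b ≤
    2 * rB b + cfg (hist s) b % 2 := by
  induction s with
  | zero => rw [cfg_zero, hol_zero]; omega
  | succ s ih =>
    rcases st_cases s b with h | ⟨h1, h0, h⟩ | ⟨h1, h⟩ | ⟨k, x, h1, h⟩
    · unfold cfg hol at *; rw [h]; exact ih
    · have e1 : cfg (hist (s + 1)) b = 1 := by unfold cfg; rw [h]
      have e2 : hol (hist (s + 1)) b = rB b := by unfold hol; rw [h]; simp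
      rw [e1, e2]; omega
    · have e1 : cfg (hist (s + 1)) b = cfg (hist s) b + 1 := by conv_lhs => unfold cfg
                                                                rw [h]
      have e2 : hol (hist (s + 1)) b = hol (hist s) b := by unfold hol; rw [h]
      have := h1.2.1.2.1
      rw [e1, e2]; omega
    · have e1 : cfg (hist (s + 1)) b = cfg (hist s) b + 1 := by conv_lhs => unfold cfg
                                                                rw [h]
      have e2 : hol (hist (s + 1)) b = k := by unfold hol; rw [h]; simp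
      have h3 := h1.2.1
      have h4 : k < hol (hist s) b := h1.2.2.1.1
      rw [e1, e2]; omega

theorem st_final (b : ℕ) : ∃ s₀, ∀ s ≥ s₀, st (hist s) b = st (hist s₀) b := by
  by_contra hno
  push Not at hno
  have h1 : ∀ n, ∃ s, n ≤ cfg (hist s) b := by
    intro n
    induction n with
    | zero => exact ⟨0, Nat.zero_le _⟩
    | succ n ih =>
      obtain ⟨s, hs⟩ := ih
      obtain ⟨s', hs', hne⟩ := hno s
      refine ⟨s', ?_⟩
      have h2 := cfg_mono (b := b) hs'
      by_contra hlt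
      exact hne (st_eq hs' (by omega))
  obtain ⟨s, hs⟩ := h1 (2 * rB b + 2)
  have := pot s b
  omega

/-- a stage after which the state of the block is final -/
noncomputable def sF (b : ℕ) : ℕ := Classical.choose (st_final b)
theorem sF_spec (b : ℕ) : ∀ s ≥ sF b, st (hist s) b = st (hist (sF b)) b :=
  Classical.choose_spec (st_final b)

noncomputable def cF (b : ℕ) : ℕ := cfg (hist (sF b)) b
noncomputable def hF (b : ℕ) : ℕ := hol (hist (sF b)) b

theorem cfg_final {b s : ℕ} (h : sF b ≤ s) : cfg (hist s) b = cF b := by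
  unfold cfg cF
  rw [sF_spec b s h]
  rfl

theorem hol_final {b s : ℕ} (h : sF b ≤ s) : hol (hist s) b = hF b := by
  unfold hol hF
  rw [sF_spec b s h]
  rfl

theorem cfg_le_cF (s b : ℕ) : cfg (hist s) b ≤ cF b := by
  have h1 := cfg_mono (b := b) (le_max_left s (sF b))
  rwa [cfg_final (le_max_right s (sF b))] at h1

theorem hF_le_hol (s b : ℕ) : hF b ≤ hol (hist s) b := by
  have h1 := hol_anti (b := b) (le_max_left s (sF b))
  rwa [hol_final (le_max_right s (sF b))] at h1

theorem final_of_cfg {s b : ℕ} (h : cfg (hist s) b = cF b) :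
    ∀ s' ≥ s, st (hist s') b = st (hist s) b := by
  intro s' hs'
  refine st_eq hs' ?_
  have h1 := cfg_mono (b := b) hs'
  have h2 := cfg_le_cF s' b
  omega

/-- the step when the block is acted on -/
theorem cfg_B {s b : ℕ} (h : IsB s b) : cfg (hist (s + 1)) b = 1 := by
  classical
  obtain ⟨h1, h2⟩ := h
  subst h1
  have : step (hist s) = Nat.pair s.unpair.1 (Nat.pair (rB s.unpair.1) 0) + 1 := by
    unfold step
    rw [hist_length, if_pos h2]
  unfold cfg
  rw [st_succ, this, stf_eq]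
  have h3 := h2.1
  unfold cfg at h3
  simp only [h3]

theorem cfg_R {s b : ℕ} (h0 : s.unpair.1 = b) (h : Ret (hist s) b) :
    cfg (hist (s + 1)) b = cfg (hist s) b + 1 := by
  classical
  subst h0
  have h1 : ¬ Brk (hist s) s.unpair.1 := fun h' => h.1 h'.1
  have : step (hist s) = Nat.pair s.unpair.1 (st (hist s) s.unpair.1).2 + 1 := by
    unfold step
    rw [hist_length, if_neg h1, if_pos h]
  unfold cfg
  rw [st_succ, this, stf_eq]

theorem st_A {s b k x : ℕ} (h : IsA s b k x) :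
    st (hist (s + 1)) b = (cfg (hist s) b + 1, Nat.pair k x) := by
  obtain ⟨_, _, _, h4⟩ := h
  rw [st_succ, h4, stf_eq]
  rfl

theorem Sh_lt {s e t p : ℕ} (h : Sh (hist s) e t p) : t < s ∧ p < s := by
  unfold Sh Dm at h
  rw [hist_length] at h
  simp only [Bool.and_eq_true] at h
  have h1 := h.1
  unfold W at h1
  obtain ⟨v, hv⟩ := Option.isSome_iff_exists.1 h1
  have h2 := Code.evaln_bound hv
  simp only [Nat.unpair_pair] at h2
  have h3 : nm (cfg (hist s) (p / 2)) p (Nat.pair e t) < s := (Nat.right_le_pair _ _).trans_lt h2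
  unfold nm at h3
  constructor
  · exact (Nat.right_le_pair e t).trans_lt ((Nat.right_le_pair _ _).trans_lt h3)
  · exact (Nat.right_le_pair _ p).trans_lt ((Nat.left_le_pair _ _).trans_lt h3)

theorem pair_le {a b c d : ℕ} (h1 : a ≤ c) (h2 : b ≤ d) : Nat.pair a b ≤ Nat.pair c d := by
  have e1 : Nat.pair a b ≤ Nat.pair c b := by
    rcases h1.lt_or_eq with h | h
    · exact (Nat.pair_lt_pair_left b h).le
    · rw [h]
  have e2 : Nat.pair c b ≤ Nat.pair c d := by
    rcases h2.lt_or_eq with h | h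
    · exact (Nat.pair_lt_pair_right c h).le
    · rw [h]
  exact e1.trans e2

/-- if some attack is possible then one with a smaller index is carried out -/
theorem exists_attack {s b k x : ℕ} (h0 : s.unpair.1 = b) (hk : k < s)
    (h : Elig (hist s) b k x) : ∃ k' ≤ k, ∃ x', IsA s b k' x' := by
  classical
  have hx : x < s := (Sh_lt h.2.2.2.2.2.1).1
  have hex : ∃ k', ∃ x' < s, Elig (hist s) b k' x' := ⟨k, x, hx, h⟩
  obtain ⟨x', hx', hE⟩ := Nat.find_spec hex
  set k' := Nat.find hex with hk'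
  have hk'k : k' ≤ k := Nat.find_min' hex ⟨x, hx, h⟩
  have hodd : cfg (hist s) b % 2 = 1 := h.2.2.2.1.2.1
  subst h0
  have h1 : ¬ Brk (hist s) s.unpair.1 := fun h' => by rw [h'.1] at hodd; omega
  have h2 : ¬ Ret (hist s) s.unpair.1 := fun h' => by have := h'.2.1; omega
  have h4 : step (hist s) = Nat.findGreatest (Att (hist s) s.unpair.1)
      (Nat.pair s (Nat.pair s s) + 1) := by
    unfold step
    rw [hist_length, if_neg h1, if_neg h2]
  have h5 : Att (hist s) s.unpair.1 (Nat.pair s.unpair.1 (Nat.pair k' x') + 1) := by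
    unfold Att
    simp only [Nat.add_sub_cancel, Nat.unpair_pair, hist_length]
    refine ⟨by omega, trivial, by omega, hE, fun k'' hk'' x'' hx'' hE' => ?_⟩
    exact Nat.find_min hex hk'' ⟨x'', hx'', hE'⟩
  have hle : Nat.pair s.unpair.1 (Nat.pair k' x') + 1 ≤ Nat.pair s (Nat.pair s s) + 1 := by
    exact Nat.succ_le_succ (pair_le (Nat.unpair_left_le s) (pair_le (by omega) hx'.le))
  have h6 := Nat.findGreatest_spec hle h5
  rw [← h4] at h6
  obtain ⟨a1, a2, a3, a4, a5⟩ := h6
  refine ⟨_, ?_, _, rfl, hodd, a4, ?_⟩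
  · by_contra hlt
    exact a5 k (by omega) x (by rwa [hist_length]) h
  · rw [Nat.pair_unpair, ← a2, Nat.pair_unpair]; omega

/-! ### Facts on tokens -/

theorem W_lt {s e y : ℕ} (h : W s e y = true) : y < s := by
  unfold W at h
  obtain ⟨v, hv⟩ := Option.isSome_iff_exists.1 h
  exact Code.evaln_bound hv

theorem W_mono {s t e y : ℕ} (hst : s ≤ t) (h : W s e y = true) : W t e y = true := by
  unfold W at h ⊢
  obtain ⟨v, hv⟩ := Option.isSome_iff_exists.1 h
  exact Option.isSome_iff_exists.2 ⟨v, Code.evaln_mono hst hv⟩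

theorem ev_mono {s t i x n : ℕ} (hst : s ≤ t) (h : ev s i x = some n) : ev t i x = some n :=
  Code.evaln_mono hst h

theorem ev_inj {s t i x n m : ℕ} (h : ev s i x = some n) (h' : ev t i x = some m) : n = m := by
  have h1 := ev_mono (le_max_left s t) h
  have h2 := ev_mono (le_max_right s t) h'
  rw [h1] at h2
  exact Option.some.inj h2

theorem Dm_true {s w x : ℕ} (h : Dm s w x = true) :
    W s w.unpair.1.unpair.1 (Nat.pair w.unpair.2 x) = true ∧
      W s w.unpair.1.unpair.2 (Nat.pair w.unpair.2 x) = false := by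
  unfold Dm at h
  simpa using h

theorem Dm_lt {s w x : ℕ} (h : Dm s w x = true) : x < s :=
  (Nat.right_le_pair _ _).trans_lt (W_lt (Dm_true h).1)

theorem Dm_no_return {s₁ s₂ s₃ w x : ℕ} (h12 : s₁ ≤ s₂) (h23 : s₂ ≤ s₃)
    (h1 : Dm s₁ w x = true) (h2 : Dm s₂ w x = false) : Dm s₃ w x = false := by
  have a := W_mono h12 (Dm_true h1).1
  have b : W s₂ w.unpair.1.unpair.2 (Nat.pair w.unpair.2 x) = true := by
    unfold Dm at h2
    rw [a] at h2
    simpa using h2
  have c := W_mono h23 b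
  unfold Dm
  rw [c]; simp

/-- `x` is finally in the token `w` -/
def Dl (w x : ℕ) : Prop := ∃ s₀, ∀ s ≥ s₀, Dm s w x = true

theorem not_Dl {w x : ℕ} (h : ¬ Dl w x) : ∃ s₀, ∀ s ≥ s₀, Dm s w x = false := by
  by_cases h1 : ∃ s, W s w.unpair.1.unpair.2 (Nat.pair w.unpair.2 x) = true
  · obtain ⟨s, hs⟩ := h1
    refine ⟨s, fun s' hs' => ?_⟩
    unfold Dm
    rw [W_mono hs' hs]; simp
  · push Not at h1
    by_cases h2 : ∃ s, W s w.unpair.1.unpair.1 (Nat.pair w.unpair.2 x) = true
    · obtain ⟨s, hs⟩ := h2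
      refine absurd ⟨s, fun s' hs' => ?_⟩ h
      unfold Dm
      rw [W_mono hs' hs]
      have := h1 s'
      simpa using this
    · push Not at h2
      refine ⟨0, fun s' _ => ?_⟩
      unfold Dm
      have := h2 s'
      simp only [Bool.not_eq_true] at this
      rw [this]; simp

theorem not_Dl_of {s₁ s₂ w x : ℕ} (h12 : s₁ ≤ s₂) (h1 : Dm s₁ w x = true)
    (h2 : Dm s₂ w x = false) : ¬ Dl w x := by
  rintro ⟨s₀, h⟩
  have a := h (max s₀ s₂) (le_max_left _ _)
  have b := Dm_no_return h12 (le_max_right s₀ s₂) h1 h2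
  rw [a] at b
  exact Bool.noConfusion b

theorem bdd_all {n : ℕ} {P : ℕ → ℕ → Prop} (h : ∀ x < n, ∃ s₀, ∀ s ≥ s₀, P x s) :
    ∃ s₀, ∀ s ≥ s₀, ∀ x < n, P x s := by
  induction n with
  | zero => exact ⟨0, fun s _ x hx => absurd hx (Nat.not_lt_zero _)⟩
  | succ n ih =>
    obtain ⟨a, ha⟩ := ih fun x hx => h x (by omega)
    obtain ⟨b, hb⟩ := h n (by omega)
    refine ⟨max a b, fun s hs x hx => ?_⟩
    rcases Nat.lt_succ_iff_lt_or_eq.1 hx with h1 | h1
    · exact ha s (le_trans (le_max_left _ _) hs) x h1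
    · subst h1; exact hb s (le_trans (le_max_right _ _) hs)

theorem exists_empty_token : ∃ w, ∀ s x, Dm s w x = false := by
  obtain ⟨c, hc⟩ := Code.exists_code.1 Nat.Partrec.none
  refine ⟨Nat.pair (Nat.pair (Encodable.encode c) 0) 0, fun s x => ?_⟩
  have : W s (Encodable.encode c) (Nat.pair 0 x) = false := by
    rw [← Bool.not_eq_true]
    intro h
    unfold W at h
    rw [Denumerable.ofNat_encode] at h
    obtain ⟨v, hv⟩ := Option.isSome_iff_exists.1 h
    have := Code.evaln_sound hv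
    rw [hc] at this
    exact Part.notMem_none _ this
  unfold Dm
  simp only [Nat.unpair_pair]
  rw [this]; simp

/-! ### The family -/

/-- `z` is the valid name of its position -/
def shown (L : List ℕ) (z : ℕ) : Prop := Dm L.length (wN z) z = true ∧ cN z = cfg L (pN z / 2)

def aliveF (z : ℕ) : Prop := cN z = cF (pN z / 2)

/-- the token named by `z` dropped the name `z` while it was alive -/
def KF (z : ℕ) : Prop :=
  ∃ s₁ s₂, s₁ < s₂ ∧ shown (hist s₁) z ∧ Dm s₂ (wN z) z = false ∧ cN z = cfg (hist s₂) (pN z / 2)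

/-- the token named by `z` dropped `z` and then showed a name in another block -/
def LF (z : ℕ) : Prop :=
  ∃ s₁ s₂, s₁ < s₂ ∧ shown (hist s₁) z ∧ Dm s₂ (wN z) z = false ∧
    ∃ z', wN z' = wN z ∧ pN z' / 2 ≠ pN z / 2 ∧ shown (hist s₂) z'

/-- the token named by `z` showed and dropped `z` -/
def DF (z : ℕ) : Prop := ∃ s₁ s₂, s₁ < s₂ ∧ shown (hist s₁) z ∧ Dm s₂ (wN z) z = false

/-- `z` can block the other position in the configuration `c` -/
def BL (z c : ℕ) : Prop := c = cN z + 2 ∨ (c = cN z + 1 ∧ (cN z + pN z) % 2 = 0)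

/-- the Friedberg numbering of the family -/
def mu (p : ℕ) : Set ℕ :=
  {z | (pN z = p ∧ aliveF z) ∨ KF z ∨ (LF z ∧ pN z / 2 ≠ p / 2) ∨
    (sw (pN z) = p ∧ DF z ∧ BL z (cF (p / 2)))}

@[simp] theorem cN_nm (c p w : ℕ) : cN (nm c p w) = c := by simp [cN, nm]
@[simp] theorem pN_nm (c p w : ℕ) : pN (nm c p w) = p := by simp [pN, nm]
@[simp] theorem wN_nm (c p w : ℕ) : wN (nm c p w) = w := by simp [wN, nm]

theorem nm_eta (z : ℕ) : nm (cN z) (pN z) (wN z) = z := by
  unfold nm cN pN wN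
  rw [Nat.pair_unpair, Nat.pair_unpair]

theorem sw_half (p : ℕ) : sw p / 2 = p / 2 := by unfold sw; split_ifs <;> omega
theorem sw_sw (p : ℕ) : sw (sw p) = p := by unfold sw; split_ifs <;> omega
theorem sw_ne (p : ℕ) : sw p ≠ p := by unfold sw; split_ifs <;> omega
theorem sw_even (b : ℕ) : sw (2 * b) = 2 * b + 1 := by unfold sw; split_ifs <;> omega
theorem sw_odd (b : ℕ) : sw (2 * b + 1) = 2 * b := by unfold sw; split_ifs <;> omega

theorem eq_or_sw {p q : ℕ} (h : p / 2 = q / 2) : p = q ∨ p = sw q := by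
  unfold sw; split_ifs <;> omega

theorem Sh_iff {s e t p : ℕ} : Sh (hist s) e t p ↔
    ∃ z, shown (hist s) z ∧ wN z = Nat.pair e t ∧ pN z = p ∧ cN z = cfg (hist s) (p / 2) := by
  unfold Sh shown
  constructor
  · intro h
    exact ⟨nm (cfg (hist s) (p / 2)) p (Nat.pair e t), ⟨by rwa [wN_nm], by simp⟩, by simp⟩
  · rintro ⟨z, ⟨h1, h2⟩, h3, h4, h5⟩
    rw [← h3, ← h5, ← h4, nm_eta]
    exact h1

theorem shown_nm {s e t p : ℕ} (h : Sh (hist s) e t p) :
    shown (hist s) (nm (cfg (hist s) (p / 2)) p (Nat.pair e t)) := by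
  unfold Sh at h
  unfold shown
  exact ⟨by rwa [wN_nm], by simp⟩

/-- the final name of position `p` for the token `w` -/
noncomputable def fnm (p w : ℕ) : ℕ := nm (cF (p / 2)) p w

@[simp] theorem pN_fnm (p w : ℕ) : pN (fnm p w) = p := by simp [fnm]
@[simp] theorem wN_fnm (p w : ℕ) : wN (fnm p w) = w := by simp [fnm]
theorem aliveF_fnm (p w : ℕ) : aliveF (fnm p w) := by simp [fnm, aliveF]

/-! ### The tie lemma -/

section Tie
variable {w p₀ : ℕ} (h : ∀ x, Dl w x ↔ x ∈ mu p₀)
include h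

theorem tie_K {z : ℕ} (hz : wN z = w) : ¬ KF z := by
  intro hK
  obtain ⟨s₁, s₂, h1, h2, h3, _⟩ := id hK
  rw [hz] at h3
  have h2' := h2.1
  rw [hist_length, hz] at h2'
  exact not_Dl_of h1.le h2' h3 ((h z).2 (Or.inr (Or.inl hK)))

theorem tie_final : ∃ s₀, ∀ s ≥ s₀, shown (hist s) (fnm p₀ w) := by
  have h1 : Dl w (fnm p₀ w) := (h _).2 (Or.inl ⟨pN_fnm _ _, aliveF_fnm _ _⟩)
  obtain ⟨s₀, hs₀⟩ := h1
  refine ⟨max s₀ (sF (p₀ / 2)), fun s hs => ⟨?_, ?_⟩⟩
  · rw [hist_length, wN_fnm]; exact hs₀ s (le_trans (le_max_left _ _) hs)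
  · rw [pN_fnm, cfg_final (le_trans (le_max_right _ _) hs)]
    simp [fnm]

/-- a name of `w` in another block which is not finally held was the cause of an `LF` event -/
theorem tie_drop {z s : ℕ} (hz : wN z = w) (hs : shown (hist s) z) (hb : pN z / 2 ≠ p₀ / 2)
    (hd : ¬ Dl w z) : LF z := by
  obtain ⟨s₀, hs₀⟩ := not_Dl hd
  obtain ⟨s₁, hs₁⟩ := tie_final h
  refine ⟨s, s₀ + s₁ + s + 1, by omega, hs, ?_, fnm p₀ w, ?_, ?_, hs₁ _ (by omega)⟩
  · rw [hz]; exact hs₀ _ (by omega)
  · rw [wN_fnm, hz]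
  · rw [pN_fnm]; exact hb.symm

omit h in
theorem not_Dl_DF {z : ℕ} (hz : wN z = w) (hD : DF z) : ¬ Dl w z := by
  obtain ⟨s₁, s₂, h1, h2, h3⟩ := hD
  have h2' := h2.1
  rw [hist_length, hz] at h2'
  rw [hz] at h3
  exact not_Dl_of h1.le h2' h3

theorem tie_L {z : ℕ} (hz : wN z = w) : ¬ LF z := by
  intro hL
  obtain ⟨s₁, s₂, h1, h2, h3, z', h4, h5, h6⟩ := id hL
  rw [hz] at h3 h4
  have h2' := h2.1
  rw [hist_length, hz] at h2'
  have hd : ¬ Dl w z := not_Dl_of h1.le h2' h3
  have hb : pN z / 2 = p₀ / 2 := by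
    by_contra hne
    exact hd ((h z).2 (Or.inr (Or.inr (Or.inl ⟨hL, hne⟩))))
  rw [hb] at h5
  have h6' := h6.1
  rw [hist_length, h4] at h6'
  by_cases hd' : Dl w z'
  · rcases (h z').1 hd' with a | a | a | a
    · exact h5 (by rw [a.1])
    · exact tie_K h h4 a
    · obtain ⟨⟨t₁, t₂, b1, b2, b3, _⟩, _⟩ := a
      exact not_Dl_DF h4 ⟨t₁, t₂, b1, b2, b3⟩ hd'
    · exact not_Dl_DF h4 a.2.1 hd'
  · have := tie_drop h h4 h6 h5 hd'
    exact hd' ((h z').2 (Or.inr (Or.inr (Or.inl ⟨this, h5⟩))))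

theorem tie_mem {z : ℕ} (hz : wN z = w) (hd : Dl w z) : pN z = p₀ ∧ aliveF z := by
  rcases (h z).1 hd with a | a | a | a
  · exact a
  · exact absurd a (tie_K h hz)
  · exact absurd a.1 (tie_L h hz)
  · exact absurd hd (not_Dl_DF hz a.2.1)

theorem tie_block {z s : ℕ} (hz : wN z = w) (hs : shown (hist s) z) : pN z / 2 = p₀ / 2 := by
  by_contra hne
  by_cases hd : Dl w z
  · exact hne (by rw [(tie_mem h hz hd).1])
  · exact tie_L h hz (tie_drop h hz hs hne hd)

theorem tie_pos {z s : ℕ} (hz : wN z = w) (hs : shown (hist s) z) (hF : aliveF z) :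
    pN z = p₀ := by
  by_cases hd : Dl w z
  · exact (tie_mem h hz hd).1
  · exfalso
    obtain ⟨s₀, hs₀⟩ := not_Dl hd
    refine tie_K h hz ⟨s, s₀ + sF (pN z / 2) + s + 1, by omega, hs, ?_, ?_⟩
    · rw [hz]; exact hs₀ _ (by omega)
    · rw [cfg_final (by omega)]; exact hF

theorem tie_sw {z s : ℕ} (hz : wN z = w) (hs : shown (hist s) z)
    (hB : BL z (cF (pN z / 2))) : pN z = p₀ := by
  have hb := tie_block h hz hs
  rcases eq_or_sw hb with h1 | h1
  · exact h1
  · exfalso
    have hd : ¬ Dl w z := by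
      intro hd
      have := (tie_mem h hz hd).1
      rw [this] at h1
      exact sw_ne _ h1.symm
    obtain ⟨s₀, hs₀⟩ := not_Dl hd
    have hD : DF z := ⟨s, s₀ + s + 1, by omega, hs, by rw [hz]; exact hs₀ _ (by omega)⟩
    refine hd ((h z).2 (Or.inr (Or.inr (Or.inr ⟨?_, hD, ?_⟩))))
    · rw [h1, sw_sw]
    · rwa [← hb]

end Tie

theorem mu_inj {p p' : ℕ} (h : mu p = mu p') : p = p' := by
  obtain ⟨w, hw⟩ := exists_empty_token
  have h1 : fnm p w ∈ mu p := Or.inl ⟨pN_fnm _ _, aliveF_fnm _ _⟩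
  have hs : ∀ s, ¬ shown (hist s) (fnm p w) := by
    intro s hs
    have := hs.1
    rw [wN_fnm, hw] at this
    exact Bool.noConfusion this
  rw [h] at h1
  rcases h1 with a | ⟨s₁, _, _, a, _⟩ | ⟨⟨s₁, _, _, a, _⟩, _⟩ | ⟨_, ⟨s₁, _, _, a, _⟩, _⟩
  · rw [← a.1, pN_fnm]
  · exact absurd a (hs s₁)
  · exact absurd a (hs s₁)
  · exact absurd a (hs s₁)

/-! ### Ties for tokens of an opponent -/

section Tok
variable {e : ℕ} {pos : ℕ → ℕ} (hpos : ∀ t x, Dl (Nat.pair e t) x ↔ x ∈ mu (pos t))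
include hpos

theorem late (t : ℕ) : ∃ s₀, ∀ s ≥ s₀, Sh (hist s) e t (pos t) := by
  obtain ⟨s₀, hs₀⟩ := tie_final (hpos t)
  refine ⟨s₀, fun s hs => Sh_iff.2 ⟨_, hs₀ s hs, wN_fnm _ _, pN_fnm _ _, ?_⟩⟩
  have := (hs₀ s hs).2
  rwa [pN_fnm] at this

theorem Sh_block {s t p : ℕ} (h : Sh (hist s) e t p) : p / 2 = pos t / 2 := by
  have := tie_block (hpos t) (by simp) (shown_nm h)
  rwa [pN_nm] at this

theorem ES_block {s t c p : ℕ} (h : ES (hist s) e t c p) : p / 2 = pos t / 2 := by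
  rw [ES_iff] at h
  obtain ⟨σ, _, _, h⟩ := h
  exact Sh_block hpos h

/-- shown in the final configuration -/
theorem ES_pos {s t p : ℕ} (h : ES (hist s) e t (cF (p / 2)) p) : pos t = p := by
  rw [ES_iff] at h
  obtain ⟨σ, _, h1, h⟩ := h
  have := tie_pos (hpos t) (by simp) (shown_nm h) (by unfold aliveF; simp [h1])
  rw [pN_nm] at this
  exact this.symm

theorem ES_two {s t c p : ℕ} (h : ES (hist s) e t c p) (hc : cF (p / 2) = c + 2) :
    pos t = p := by
  rw [ES_iff] at h
  obtain ⟨σ, _, h1, h⟩ := h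
  have := tie_sw (hpos t) (by simp) (shown_nm h) (by unfold BL; simp [h1, hc])
  rw [pN_nm] at this
  exact this.symm

theorem ES_one {s t c p : ℕ} (h : ES (hist s) e t c p) (hc : cF (p / 2) = c + 1)
    (hp : (c + p) % 2 = 0) : pos t = p := by
  rw [ES_iff] at h
  obtain ⟨σ, _, h1, h⟩ := h
  have := tie_sw (hpos t) (by simp) (shown_nm h) (by unfold BL; simp [h1, hc, hp])
  rw [pN_nm] at this
  exact this.symm

end Tok

theorem Fst0_Fst {s e p t : ℕ} (h : Fst0 (hist s) e p t) : Fst (hist s) e p t :=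
  Fst_iff.2 ⟨s, le_rfl, h⟩

theorem Fst_unique {s s' e p t t' : ℕ} (h : Fst (hist s) e p t) (h' : Fst (hist s') e p t') :
    t = t' := by
  rw [Fst_iff] at h h'
  obtain ⟨σ, _, h⟩ := h
  obtain ⟨σ', _, h'⟩ := h'
  rw [Fst0_iff] at h h'
  rcases lt_trichotomy σ σ' with h1 | h1 | h1
  · exact absurd h.1 (h'.2.2 σ h1 t (Sh_lt h.1).1)
  · subst h1
    rcases lt_trichotomy t t' with h2 | h2 | h2
    · exact absurd h.1 (h'.2.1 t h2)
    · exact h2
    · exact absurd h'.1 (h.2.1 t' h2)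
  · exact absurd h'.1 (h.2.2 σ' h1 t' (Sh_lt h'.1).1)

theorem Fst_exists {s e p t : ℕ} (h : Sh (hist s) e t p) : ∃ t', Fst (hist s) e p t' := by
  classical
  have hex : ∃ σ, ∃ t', Sh (hist σ) e t' p := ⟨s, t, h⟩
  have h1 := Nat.find_spec hex
  have h2 : Nat.find hex ≤ s := Nat.find_min' hex ⟨t, h⟩
  refine ⟨Nat.find h1, Fst_iff.2 ⟨Nat.find hex, h2, Fst0_iff.2 ⟨Nat.find_spec h1, ?_, ?_⟩⟩⟩
  · intro t' ht'
    exact Nat.find_min h1 ht'
  · intro σ hσ t' _ h'
    exact Nat.find_min hex hσ ⟨t', h'⟩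

theorem Fst_Sh {s e p t : ℕ} (h : Fst (hist s) e p t) : ∃ σ ≤ s, Sh (hist σ) e t p := by
  rw [Fst_iff] at h
  obtain ⟨σ, h1, h⟩ := h
  exact ⟨σ, h1, (Fst0_iff.1 h).1⟩

/-! ### True guesses -/

/-- the opponent `e` looks total -/
def TP (e : ℕ) : Prop := ∀ b, ∃ s, seen (hist s) e b

/-- the guess of the block is correct up to `k` -/
def Cor (k b : ℕ) : Prop := ∀ j < k + 1, (j ∈ GB b ↔ TP j)

theorem Cor_le {k k' b : ℕ} (h : k' ≤ k) (hc : Cor k b) : Cor k' b :=
  fun j hj => hc j (by omega)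

theorem not_TP {e : ℕ} (h : ¬ TP e) : ∃ B, ∀ b ≥ B, ∀ s, ¬ seen (hist s) e b := by
  unfold TP at h
  push Not at h
  obtain ⟨B, hB⟩ := h
  exact ⟨B, fun b hb s hs => hB s (seen_anti hb hs)⟩

/-- the large blocks with a correct guess are never frozen -/
theorem not_Fz (k : ℕ) : ∃ B, ∀ b ≥ B, Cor k b → ∀ s, ¬ Fz (hist s) b k := by
  obtain ⟨B, hB⟩ := bdd_all (n := k + 1) (P := fun e b => ¬ TP e → ∀ s, ¬ seen (hist s) e b) (by
    intro e _
    by_cases h : TP e
    · exact ⟨0, fun b _ h' => absurd h h'⟩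
    · obtain ⟨B, hB⟩ := not_TP h
      exact ⟨B, fun b hb _ => hB b hb⟩)
  refine ⟨B, fun b hb hc s hF => ?_⟩
  obtain ⟨e, h1, h2, h3⟩ := hF
  exact hB b hb e h1 (fun h => h2 ((hc e h1).2 h)) s h3

theorem SV_of_Cor {k b b' : ℕ} (h : Cor k b) (h' : Cor k b') : SV k b b' :=
  ⟨fun j hj hb => (h' j hj).2 ((h j hj).1 hb), fun j hj hb => (h j hj).2 ((h' j hj).1 hb)⟩

theorem Cor_of_SV {k b b' : ℕ} (h : SV k b b') (h' : Cor k b') : Cor k b :=
  fun j hj => ⟨fun hb => (h' j hj).1 (h.1 j hj hb), fun hb => h.2 j hj ((h' j hj).2 hb)⟩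

theorem seen_ev {e b : ℕ} (h : TP e) : ∃ s₀, ∀ s ≥ s₀, seen (hist s) e b := by
  obtain ⟨s, hs⟩ := h b
  exact ⟨s, fun s' hs' => seen_mono hs' hs⟩

theorem Wt_mono {s s' e b : ℕ} (h : s ≤ s') (hc : cfg (hist s) b = cfg (hist s') b)
    (hW : Wt (hist s) e b) : Wt (hist s') e b := by
  obtain ⟨⟨t, h1, h2, h3⟩, ⟨t', h4, h5, h6⟩⟩ := hW
  rw [hist_length] at h1 h4
  rw [hc] at h3 h6
  exact ⟨⟨t, by rw [hist_length]; omega, Fst_mono h h2, ES_mono h h3⟩,
    ⟨t', by rw [hist_length]; omega, Fst_mono h h5, ES_mono h h6⟩⟩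

/-- a total looking opponent recovers its first tokens in the final even configuration -/
theorem Wt_ev {e b : ℕ} (hT : TP e) (hG : e ∈ GB b) (h2 : cF b % 2 = 0) (hh : e ≤ hF b) :
    ∃ s₀, ∀ s ≥ s₀, Wt (hist s) e b := by
  obtain ⟨s, hs⟩ := hT (b + sF b)
  rw [seen_iff] at hs
  obtain ⟨σ, _, h3, h4⟩ := hs
  rw [hist_length] at h3
  have h5 : cfg (hist σ) b = cF b := cfg_final (by omega)
  have h6 := h4 b (by omega) (by rw [h5]; exact h2) hG (by have := hF_le_hol σ b; omega)
  refine ⟨σ, fun s' hs' => Wt_mono hs' ?_ h6⟩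
  rw [h5, cfg_final (by omega)]

/-! ### Finitely many attacks -/

theorem IsA_ge {s b k x : ℕ} (h : IsA s b k x) : b ≤ s := by
  rw [← h.1]; exact Nat.unpair_left_le s

theorem IsA_cfg {s b k x : ℕ} (h : IsA s b k x) : cfg (hist (s + 1)) b = cfg (hist s) b + 1 := by
  have := st_A h
  conv_lhs => unfold cfg
  rw [this]

theorem IsA_hol {s b k x : ℕ} (h : IsA s b k x) : hol (hist (s + 1)) b = k := by
  have := st_A h
  unfold hol
  rw [this]; simp

theorem IsA_xx {s b k x : ℕ} (h : IsA s b k x) : xx (hist (s + 1)) b = x := by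
  have := st_A h
  unfold xx
  rw [this]; simp

theorem IsA_lt_sF {s b k x : ℕ} (h : IsA s b k x) : s < sF b := by
  by_contra hlt
  have h1 := cfg_final (b := b) (s := s) (by omega)
  have h2 := cfg_final (b := b) (s := s + 1) (by omega)
  have := IsA_cfg h
  omega

theorem IsB_lt_sF {s b : ℕ} (h : IsB s b) : s < sF b := by
  by_contra hlt
  have h1 := cfg_final (b := b) (s := s) (by omega)
  have h2 := cfg_final (b := b) (s := s + 1) (by omega)
  have := cfg_B h
  have := h.2.1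
  omega

/-- the holder stays as long as no smaller index attacks -/
theorem hold {s s' b k : ℕ} (hss : s ≤ s') (h1 : hol (hist s) b = k) (h0 : cfg (hist s) b ≠ 0)
    (h2 : ∀ σ, s ≤ σ → σ < s' → ∀ k' < k, ∀ x, ¬ IsA σ b k' x) : hol (hist s') b = k := by
  induction s', hss using Nat.le_induction with
  | base => exact h1
  | succ m hm ih =>
    have ih' := ih fun σ a1 a2 => h2 σ a1 (by omega)
    rcases hol_succ m b with h | ⟨k', x, h, _, _, _, h'⟩ | ⟨h, _⟩
    · rw [h, ih']
    · exact absurd h (h2 m hm (by omega) k' (by rw [← ih']; exact h') x)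
    · have := cfg_mono (b := b) hm
      have := h.2.1
      omega

/-- a correct version attacks finitely often -/
theorem M3 (k : ℕ) : ∃ S, ∀ s ≥ S, ∀ b x, IsA s b k x → ¬ Cor k b := by
  induction k using Nat.strong_induction_on with
  | _ k ih =>
    obtain ⟨S₀, hS₀⟩ := bdd_all (n := k)
      (P := fun k' s => ∀ b x, IsA s b k' x → ¬ Cor k' b) ih
    obtain ⟨B, hB⟩ := not_Fz k
    obtain ⟨S₁, hS₁⟩ := bdd_all (n := B) (P := fun b s => sF b ≤ s)
      fun b _ => ⟨sF b, fun s hs => hs⟩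
    by_contra hno
    push Not at hno
    obtain ⟨s, hs, b, x, hA, hC⟩ := hno (S₀ + S₁)
    have hbB : B ≤ b := by
      by_contra hlt
      have := hS₁ s (by omega) b (by omega)
      have := IsA_lt_sF hA
      omega
    obtain ⟨s', hs', b', x', hA', hC'⟩ := hno (s + 1 + S₀)
    have h1 : hol (hist s') b = k := by
      refine hold (s := s + 1) (by omega) (IsA_hol hA) (by rw [IsA_cfg hA]; omega) ?_
      intro σ h1 _ k' hk' x'' hA''
      exact hS₀ σ (by omega) k' hk' b x'' hA'' (Cor_le hk'.le hC)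
    have h2 : 2 ≤ cfg (hist s') b := by
      have a1 := cfg_mono (b := b) (show s + 1 ≤ s' by omega)
      rw [IsA_cfg hA] at a1
      have := hA.2.1
      omega
    have h3 := hA'.2.2.1.2.2.2.2.2.2.2 b (by rw [hist_length]; have := IsA_ge hA; omega) h2 h1
      (SV_of_Cor hC hC')
    exact hB b hbB hC s' h3

/-- all the large blocks with a correct guess are not attacked -/
theorem M3' (k : ℕ) : ∃ S, ∀ s b x, S ≤ b → ∀ k' ≤ k, Cor k' b → ¬ IsA s b k' x := by
  obtain ⟨S₀, hS₀⟩ := bdd_all (n := k + 1)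
      (P := fun k' s => ∀ b x, IsA s b k' x → ¬ Cor k' b) fun k' _ => M3 k'
  exact ⟨S₀, fun s b x hb k' hk' hC hA => hS₀ s (hb.trans (IsA_ge hA)) k' (by omega) b x hA hC⟩

/-- finitely many blocks with a correct guess and a given label are broken -/
theorem M5 (r : ℕ) : ∃ S, ∀ s ≥ S, ∀ b, IsB s b → rB b = r → ¬ Cor r b := by
  obtain ⟨S₀, hS₀⟩ := bdd_all (n := r)
      (P := fun k' s => ∀ b x, IsA s b k' x → ¬ Cor k' b) fun k' _ => M3 k'
  by_contra hno
  push Not at hno
  obtain ⟨s, hs, b, hB, hr, hC⟩ := hno S₀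
  obtain ⟨s', hs', b', hB', hr', hC'⟩ := hno (s + 1)
  have h1 : ∀ m ≥ s + 1, cfg (hist m) b = 1 := by
    intro m hm
    induction m, hm using Nat.le_induction with
    | base => exact cfg_B hB
    | succ m hm ih =>
      rcases st_cases m b with h | ⟨h, h0, _⟩ | ⟨h, _⟩ | ⟨k, x, h, _⟩
      · unfold cfg at *; rw [h]; exact ih
      · omega
      · have := h.2.1.2.1; omega
      · exfalso
        have h2 : k < r := by
          have := h.2.2.1.1
          have := hol_le m b
          omega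
        exact hS₀ m (by omega) k h2 b x h (Cor_le h2.le hC)
  have h2 : b < s' := by
    have := Nat.unpair_left_le s
    rw [hB.1] at this
    omega
  have h3 := hB'.2.2.2.2.2 b (by rw [hist_length]; exact h2) (by rw [hr, hr'])
    (by rw [hr']; exact SV_of_Cor hC hC')
  rw [h1 s' hs'] at h3
  omega

theorem cfg_pos_B {s b : ℕ} (h : cfg (hist s) b ≠ 0) : ∃ σ < s, IsB σ b := by
  induction s with
  | zero => exact absurd (cfg_zero b) h
  | succ s ih =>
    by_cases h0 : cfg (hist s) b = 0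
    · rcases st_cases s b with h1 | ⟨h1, _, _⟩ | ⟨h1, _⟩ | ⟨k, x, h1, _⟩
      · exfalso
        unfold cfg at h h0
        rw [h1] at h
        exact h h0
      · exact ⟨s, by omega, h1⟩
      · exact absurd h0 h1.2.2
      · have := h1.2.1; omega
    · obtain ⟨σ, h1, h2⟩ := ih h0
      exact ⟨σ, by omega, h2⟩

theorem M5' (r : ℕ) : ∃ S, ∀ b ≥ S, rB b ≤ r → Cor (rB b) b → cF b = 0 := by
  obtain ⟨S₀, hS₀⟩ := bdd_all (n := r + 1)
      (P := fun r s => ∀ b, IsB s b → rB b = r → ¬ Cor r b) fun k' _ => M5 k'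
  refine ⟨S₀, fun b hb hr hC => ?_⟩
  by_contra h0
  obtain ⟨s, _, hs⟩ := cfg_pos_B (s := sF b) (b := b) h0
  have : b ≤ s := by
    have := Nat.unpair_left_le s
    rwa [hs.1] at this
  exact hS₀ s (by omega) (rB b) (by omega) b hs rfl hC

/-- the last attack on a block -/
theorem last_attack {s b : ℕ} (h : 2 ≤ cfg (hist s) b) :
    ∃ s₁ < s, ∃ x, IsA s₁ b (hol (hist s) b) x ∧ xx (hist s) b = x ∧
      ((cfg (hist s) b = cfg (hist s₁) b + 1) ∨
       (cfg (hist s) b = cfg (hist s₁) b + 2 ∧ ∃ s₂ < s, s₁ < s₂ ∧ IsR s₂ b ∧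
          st (hist s₂) b = (cfg (hist s₁) b + 1, Nat.pair (hol (hist s) b) x))) := by
  induction s with
  | zero => rw [cfg_zero] at h; omega
  | succ s ih =>
    rcases st_cases s b with h1 | ⟨h1, _, h2⟩ | ⟨h1, h2⟩ | ⟨k, x, h1, h2⟩
    · have e1 : cfg (hist (s + 1)) b = cfg (hist s) b := by unfold cfg; rw [h1]
      have e2 : hol (hist (s + 1)) b = hol (hist s) b := by unfold hol; rw [h1]
      have e3 : xx (hist (s + 1)) b = xx (hist s) b := by unfold xx; rw [h1]
      rw [e1] at h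
      obtain ⟨s₁, a1, x, a2, a3, a4⟩ := ih h
      rw [e1, e2, e3]
      refine ⟨s₁, by omega, x, a2, a3, ?_⟩
      rcases a4 with a4 | ⟨a4, s₂, a5, a6⟩
      · exact Or.inl a4
      · exact Or.inr ⟨a4, s₂, by omega, a6⟩
    · have : cfg (hist (s + 1)) b = 1 := by unfold cfg; rw [h2]
      omega
    · have e1 : cfg (hist (s + 1)) b = cfg (hist s) b + 1 := by conv_lhs => unfold cfg
                                                                rw [h2]
      have e2 : hol (hist (s + 1)) b = hol (hist s) b := by unfold hol; rw [h2]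
      have e3 : xx (hist (s + 1)) b = xx (hist s) b := by unfold xx; rw [h2]
      have e4 := h1.2.1.2.1
      have e5 := h1.2.2
      obtain ⟨s₁, a1, x, a2, a3, a4⟩ := ih (by omega)
      have e6 := a2.2.1
      rw [e1, e2, e3]
      have a5 : cfg (hist s) b = cfg (hist s₁) b + 1 := by
        rcases a4 with a4 | ⟨a4, _⟩
        · exact a4
        · omega
      refine ⟨s₁, by omega, x, a2, a3, Or.inr ⟨by omega, s, by omega, a1, h1, ?_⟩⟩
      unfold hol xx cfg at *
      rw [← a5, ← a3, Nat.pair_unpair]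
    · have e1 : cfg (hist (s + 1)) b = cfg (hist s) b + 1 := IsA_cfg h1
      refine ⟨s, by omega, x, ?_, IsA_xx h1, Or.inl e1⟩
      rw [IsA_hol h1]; exact h1

/-- in the even configurations the first tokens have been shown -/
theorem Inv {e b : ℕ} (hG : e ∈ GB b) (hh : e ≤ hF b) (s : ℕ) :
    ∀ c < cfg (hist s) b, c % 2 = 0 →
      (∃ t, Fst (hist s) e (2 * b) t ∧ ES (hist s) e t c (2 * b)) ∧
      ∃ t, Fst (hist s) e (2 * b + 1) t ∧ ES (hist s) e t c (2 * b + 1) := by
  have hWt : ∀ σ c, cfg (hist σ) b = c → Wt (hist σ) e b → ∀ s', σ ≤ s' →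
      (∃ t, Fst (hist s') e (2 * b) t ∧ ES (hist s') e t c (2 * b)) ∧
      ∃ t, Fst (hist s') e (2 * b + 1) t ∧ ES (hist s') e t c (2 * b + 1) := by
    intro σ c hc hW s' hs'
    obtain ⟨⟨t, _, h2, h3⟩, ⟨t', _, h5, h6⟩⟩ := hW
    rw [hc] at h3 h6
    exact ⟨⟨t, Fst_mono hs' h2, ES_mono hs' h3⟩, ⟨t', Fst_mono hs' h5, ES_mono hs' h6⟩⟩
  induction s with
  | zero => intro c hc; rw [cfg_zero] at hc; omega
  | succ s ih =>
    intro c hc hc2
    by_cases hlt : c < cfg (hist s) b
    · obtain ⟨⟨t, h2, h3⟩, ⟨t', h5, h6⟩⟩ := ih c hlt hc2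
      exact ⟨⟨t, Fst_mono (Nat.le_succ s) h2, ES_mono (Nat.le_succ s) h3⟩,
        ⟨t', Fst_mono (Nat.le_succ s) h5, ES_mono (Nat.le_succ s) h6⟩⟩
    · have hceq : cfg (hist s) b = c := by
        rcases cfg_succ s b with h | h <;> omega
      rcases st_cases s b with h1 | ⟨h1, h0, _⟩ | ⟨h1, _⟩ | ⟨k, x, h1, _⟩
      · exfalso
        have : cfg (hist (s + 1)) b = cfg (hist s) b := by unfold cfg; rw [h1]
        omega
      · have h2 := h1.2.2.1 e (by have := hF_le_hol 0 b; rw [hol_zero] at this; omega) hG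
        rw [seen_iff] at h2
        obtain ⟨σ, a1, _, a2⟩ := h2
        have a3 : cfg (hist σ) b = 0 := by have := cfg_mono (b := b) a1; omega
        have a4 := a2 b (by omega) (by rw [a3]) hG (by have := hF_le_hol σ b; omega)
        exact hWt σ c (by omega) a4 (s + 1) (by omega)
      · have h2 := h1.2.1.2.2.2.2.1 e (by have := hF_le_hol s b; omega) hG
        exact hWt s c hceq h2 (s + 1) (by omega)
      · have := h1.2.1; omega

/-! ### The smaller numbering -/

def Rsv (L : List ℕ) (e b : ℕ) : Prop :=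
  cfg L b ≠ 0 ∧ cfg L b % 2 = 0 ∧ eQ (hol L b) = e

def Opn (L : List ℕ) (e b : ℕ) : Prop :=
  ∃ σ' < L.length + 1, (∃ σ < σ', EvA (L.take σ) e b) ∧ ¬ Rsv (L.take σ') e b

def InYb (L : List ℕ) (e t b : ℕ) : Prop :=
  e ∉ GB b ∨ rB b < e ∨ hol L b < e ∨ Fst L e (2 * b) t ∨ Fst L e (2 * b + 1) t ∨ Opn L e b

/-- the set of tokens used by the smaller numbering -/
def InY (L : List ℕ) (e t : ℕ) : Prop :=
  ∃ p < L.length + 1, (∃ σ < L.length + 1, Sh (L.take σ) e t p) ∧ InYb L e t (p / 2)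

open Classical in
noncomputable def tau (e d n : ℕ) : ℕ :=
  if InY (hist n.unpair.2) e n.unpair.1 then n.unpair.1 else d

section P3
variable {α : Type*} [Primcodable α]

theorem primrec_Rsv {L : α → List ℕ} {e b : α → ℕ} (hL : Primrec L) (he : Primrec e)
    (hb : Primrec b) : PrimrecPred (fun a => Rsv (L a) (e a) (b a)) := by
  unfold Rsv
  exact (Primrec.eq.comp (primrec_cfg hL hb) (Primrec.const 0)).not.and
    ((Primrec.eq.comp (primrec_mod2 (primrec_cfg hL hb)) (Primrec.const 0)).and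
      (Primrec.eq.comp (primrec_eQ.comp (primrec_hol hL hb)) he))

theorem primrec_Opn {L : α → List ℕ} {e b : α → ℕ} (hL : Primrec L) (he : Primrec e)
    (hb : Primrec b) : PrimrecPred (fun a => Opn (L a) (e a) (b a)) := by
  unfold Opn
  refine ex_lt (R := fun σ' a => (∃ σ < σ', EvA ((L a).take σ) (e a) (b a)) ∧
    ¬ Rsv ((L a).take σ') (e a) (b a)) ?_ (Primrec.succ.comp (Primrec.list_length.comp hL))
  have hL2 := hL.comp (Primrec.snd (α := ℕ))
  have he2 := he.comp (Primrec.snd (α := ℕ))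
  have hb2 := hb.comp (Primrec.snd (α := ℕ))
  refine PrimrecPred.and ?_ (primrec_Rsv (Primrec.list_take.comp Primrec.fst hL2) he2 hb2).not
  refine ex_lt (R := fun σ (x : ℕ × α) => EvA ((L x.2).take σ) (e x.2) (b x.2)) ?_ Primrec.fst
  exact primrec_EvA (Primrec.list_take.comp Primrec.fst (hL2.comp Primrec.snd))
    (he2.comp Primrec.snd) (hb2.comp Primrec.snd)

theorem primrec_InYb {L : α → List ℕ} {e t b : α → ℕ} (hL : Primrec L) (he : Primrec e)
    (ht : Primrec t) (hb : Primrec b) :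
    PrimrecPred (fun a => InYb (L a) (e a) (t a) (b a)) := by
  unfold InYb
  exact (primrec_inGB he hb).not.or ((Primrec.nat_lt.comp (primrec_rB.comp hb) he).or
    ((Primrec.nat_lt.comp (primrec_hol hL hb) he).or
    ((primrec_Fst hL he (primrec_dbl hb) ht).or ((primrec_Fst hL he (primrec_dbl1 hb) ht).or
      (primrec_Opn hL he hb)))))

theorem primrec_InY {L : α → List ℕ} {e t : α → ℕ} (hL : Primrec L) (he : Primrec e)
    (ht : Primrec t) : PrimrecPred (fun a => InY (L a) (e a) (t a)) := by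
  unfold InY
  refine ex_lt (R := fun p a => (∃ σ < (L a).length + 1, Sh ((L a).take σ) (e a) (t a) p) ∧
    InYb (L a) (e a) (t a) (p / 2)) ?_ (Primrec.succ.comp (Primrec.list_length.comp hL))
  have hL2 := hL.comp (Primrec.snd (α := ℕ))
  have he2 := he.comp (Primrec.snd (α := ℕ))
  have ht2 := ht.comp (Primrec.snd (α := ℕ))
  refine PrimrecPred.and ?_ (primrec_InYb hL2 he2 ht2 (primrec_half Primrec.fst))
  exact ex_pre (R := fun M (x : ℕ × α) => Sh M (e x.2) (t x.2) x.1)
    (primrec_Sh Primrec.fst (he2.comp Primrec.snd) (ht2.comp Primrec.snd)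
      (Primrec.fst.comp Primrec.snd)) hL2

end P3

open Classical in
theorem primrec_tau (e d : ℕ) : Primrec (tau e d) := by
  unfold tau
  exact Primrec.ite (primrec_InY (primrec_hist.comp primrec_u2) (Primrec.const e) primrec_u1)
    primrec_u1 (Primrec.const d)

theorem Opn_iff {s e b : ℕ} : Opn (hist s) e b ↔
    ∃ σ' ≤ s, (∃ σ < σ', EvA (hist σ) e b) ∧ ¬ Rsv (hist σ') e b := by
  unfold Opn
  rw [hist_length]
  constructor
  · rintro ⟨σ', h1, ⟨σ, h2, h3⟩, h4⟩
    rw [hist_take (by omega)] at h3 h4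
    exact ⟨σ', by omega, ⟨σ, h2, h3⟩, h4⟩
  · rintro ⟨σ', h1, ⟨σ, h2, h3⟩, h4⟩
    refine ⟨σ', by omega, ⟨σ, h2, ?_⟩, ?_⟩
    · rwa [hist_take (by omega)]
    · rwa [hist_take (by omega)]

theorem InY_iff {s e t : ℕ} : InY (hist s) e t ↔
    ∃ p ≤ s, (∃ σ ≤ s, Sh (hist σ) e t p) ∧ InYb (hist s) e t (p / 2) := by
  unfold InY
  constructor
  · rintro ⟨p, h1, h2, h3⟩
    rw [hist_length] at h1
    exact ⟨p, by omega, (pre_iff (R := fun M => Sh M e t p)).1 h2, h3⟩
  · rintro ⟨p, h1, h2, h3⟩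
    exact ⟨p, by rw [hist_length]; omega, (pre_iff (R := fun M => Sh M e t p)).2 h2, h3⟩

section True
variable {e : ℕ} {pos : ℕ → ℕ} (hpos : ∀ t x, Dl (Nat.pair e t) x ↔ x ∈ mu (pos t))
  (hsurj : ∀ p, ∃ t, pos t = p)
include hpos hsurj

theorem late_Sh (p : ℕ) : ∃ t, pos t = p ∧ ∃ s₀, ∀ s ≥ s₀, Sh (hist s) e t p := by
  obtain ⟨t, rfl⟩ := hsurj p
  exact ⟨t, rfl, late hpos t⟩

theorem fst_pos_zero {p : ℕ} (h0 : cF (p / 2) = 0) : ∃ t s, Fst (hist s) e p t ∧ pos t = p := by
  obtain ⟨t, _, s, hs⟩ := late_Sh hpos hsurj p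
  obtain ⟨t', ht'⟩ := Fst_exists (hs s le_rfl)
  refine ⟨t', s, ht', ?_⟩
  obtain ⟨σ, hσ, hSh⟩ := Fst_Sh ht'
  refine ES_pos hpos (s := σ) (ES_iff.2 ⟨σ, le_rfl, ?_, hSh⟩)
  have := cfg_le_cF σ (p / 2)
  omega

theorem fst_even {b : ℕ} (hG : e ∈ GB b) (hh : e ≤ hF b) :
    ∃ t s, Fst (hist s) e (2 * b) t ∧ pos t = 2 * b := by
  have hb : 2 * b / 2 = b := by omega
  by_cases h0 : cF b = 0
  · exact fst_pos_zero hpos hsurj (by rw [hb]; exact h0)
  by_cases h2 : cF b % 2 = 0
  · obtain ⟨⟨t, h3, h4⟩, _⟩ := Inv hG hh (sF b) (cF b - 2)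
      (by rw [cfg_final le_rfl]; omega) (by omega)
    exact ⟨t, sF b, h3, ES_two hpos h4 (by rw [hb]; omega)⟩
  · obtain ⟨⟨t, h3, h4⟩, _⟩ := Inv hG hh (sF b) (cF b - 1)
      (by rw [cfg_final le_rfl]; omega) (by omega)
    exact ⟨t, sF b, h3, ES_one hpos h4 (by rw [hb]; omega) (by omega)⟩

theorem fst_odd {b : ℕ} (hG : e ∈ GB b) (hh : e ≤ hF b) :
    ∃ t s, Fst (hist s) e (2 * b + 1) t ∧ (cF b % 2 = 0 → pos t = 2 * b + 1) ∧
      pos t / 2 = b := by
  have hb : (2 * b + 1) / 2 = b := by omega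
  by_cases h0 : cF b = 0
  · obtain ⟨t, s, h1, h2⟩ := fst_pos_zero hpos hsurj (p := 2 * b + 1) (by rw [hb]; exact h0)
    exact ⟨t, s, h1, fun _ => h2, by omega⟩
  by_cases h2 : cF b % 2 = 0
  · obtain ⟨_, t, h3, h4⟩ := Inv hG hh (sF b) (cF b - 2)
      (by rw [cfg_final le_rfl]; omega) (by omega)
    have := ES_two hpos h4 (by rw [hb]; omega)
    exact ⟨t, sF b, h3, fun _ => this, by omega⟩
  · obtain ⟨_, t, h3, h4⟩ := Inv hG hh (sF b) (cF b - 1)
      (by rw [cfg_final le_rfl]; omega) (by omega)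
    have := ES_block hpos h4
    exact ⟨t, sF b, h3, fun h => absurd h h2, by omega⟩

theorem TP_true : TP e := by
  intro b
  have h1 : ∀ b' < b + 1, ∃ s₀, ∀ s ≥ s₀, (cfg (hist s) b' % 2 = 0 → e ∈ GB b' →
      ¬ hol (hist s) b' < e → Wt (hist s) e b') := by
    intro b' _
    by_cases hc : cF b' % 2 = 0 ∧ e ∈ GB b' ∧ e ≤ hF b'
    · obtain ⟨hc1, hc2, hc3⟩ := hc
      obtain ⟨t, s, h2, h3⟩ := fst_even hpos hsurj hc2 hc3
      obtain ⟨t', s', h2', h3', _⟩ := fst_odd hpos hsurj hc2 hc3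
      obtain ⟨s₁, h4⟩ := late hpos t
      obtain ⟨s₂, h5⟩ := late hpos t'
      rw [h3] at h4
      rw [h3' hc1] at h5
      refine ⟨s + s' + s₁ + s₂ + sF b', fun σ hσ _ _ _ => ?_⟩
      have e1 : cfg (hist σ) b' = cF b' := cfg_final (by omega)
      have a1 := h4 σ (by omega)
      have a2 := h5 σ (by omega)
      refine ⟨⟨t, by rw [hist_length]; exact (Sh_lt a1).1, Fst_mono (by omega) h2, ?_⟩,
        ⟨t', by rw [hist_length]; exact (Sh_lt a2).1, Fst_mono (by omega) h2', ?_⟩⟩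
      · exact ES_iff.2 ⟨σ, le_rfl, by rw [show 2 * b' / 2 = b' by omega], a1⟩
      · exact ES_iff.2 ⟨σ, le_rfl, by rw [show (2 * b' + 1) / 2 = b' by omega], a2⟩
    · refine ⟨sF b', fun σ hσ c1 c2 c3 => absurd ⟨?_, c2, ?_⟩ hc⟩
      · rwa [cfg_final hσ] at c1
      · rw [hol_final hσ] at c3; omega
  obtain ⟨s₀, hs₀⟩ := bdd_all h1
  refine ⟨s₀ + b, seen_iff.2 ⟨s₀ + b, le_rfl, ?_, ?_⟩⟩
  · rw [hist_length]; omega
  · exact hs₀ (s₀ + b) (by omega)

/-- the smaller numbering still covers the family -/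
theorem cover (p : ℕ) : ∃ t s, InY (hist s) e t ∧ pos t = p := by
  -- any token which is finally in the block, when everything of the block is used
  have all : ∀ p, (∃ s₀, ∀ s ≥ s₀, ∀ t, InYb (hist s) e t (p / 2)) →
      ∃ t s, InY (hist s) e t ∧ pos t = p := by
    rintro p ⟨s₀, h⟩
    obtain ⟨t, ht, s₁, hs₁⟩ := late_Sh hpos hsurj p
    have h1 := hs₁ (s₀ + s₁) (by omega)
    exact ⟨t, s₀ + s₁, InY_iff.2 ⟨p, (Sh_lt h1).2.le, ⟨_, le_rfl, h1⟩, h _ (by omega) t⟩, ht⟩
  by_cases hG : e ∈ GB (p / 2)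
  swap
  · exact all p ⟨0, fun s _ t => Or.inl hG⟩
  by_cases hh : e ≤ hF (p / 2)
  swap
  · exact all p ⟨sF (p / 2), fun s hs t => Or.inr (Or.inr (Or.inl (by
      rw [hol_final hs]; omega)))⟩
  -- a first token which is finally at its position
  have fst : ∀ t s, Fst (hist s) e p t → pos t = p → ∃ t s, InY (hist s) e t ∧ pos t = p := by
    intro t s h1 h2
    obtain ⟨s₁, hs₁⟩ := late hpos t
    have h3 := hs₁ (s + s₁) (by omega)
    rw [h2] at h3
    refine ⟨t, s + s₁, InY_iff.2 ⟨p, (Sh_lt h3).2.le, ⟨_, le_rfl, h3⟩, ?_⟩, h2⟩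
    have h4 := Fst_mono (s' := s + s₁) (by omega) h1
    rcases Nat.even_or_odd' p with ⟨b, hb | hb⟩
    · rw [hb] at h4 ⊢
      rw [show 2 * b / 2 = b by omega]
      exact Or.inr (Or.inr (Or.inr (Or.inl h4)))
    · rw [hb] at h4 ⊢
      rw [show (2 * b + 1) / 2 = b by omega]
      exact Or.inr (Or.inr (Or.inr (Or.inr (Or.inl h4))))
  rcases Nat.even_or_odd' p with ⟨b, hb | hb⟩
  · rw [hb, show 2 * b / 2 = b by omega] at hG hh
    obtain ⟨t, s, h1, h2⟩ := fst_even hpos hsurj hG hh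
    exact fst t s (by rw [hb]; exact h1) (by rw [hb]; exact h2)
  · rw [hb, show (2 * b + 1) / 2 = b by omega] at hG hh
    obtain ⟨t, s, h1, h2, h3⟩ := fst_odd hpos hsurj hG hh
    by_cases ht : pos t = 2 * b + 1
    · exact fst t s (by rw [hb]; exact h1) (by rw [hb]; exact ht)
    have hodd : cF b % 2 = 1 := by
      by_contra hne
      exact ht (h2 (by omega))
    have ht' : pos t = 2 * b := by omega
    -- an event happens
    obtain ⟨x, hx, s₁, hs₁⟩ := late_Sh hpos hsurj (2 * b + 1)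
    obtain ⟨s₂, hs₂⟩ := late hpos t
    rw [ht'] at hs₂
    set N := s + s₁ + s₂ + sF b with hN
    have hNle : N ≤ Nat.pair b N := Nat.right_le_pair _ _
    have a1 := hs₁ (Nat.pair b N) (by omega)
    have a2 := hs₂ (Nat.pair b N) (by omega)
    have hE : EvA (hist (Nat.pair b N)) e b := by
      refine ⟨by rw [hist_length]; simp, ?_, ⟨x, ?_, a1⟩, t, ?_, Fst_mono (by omega) h1, a2⟩
      · rw [cfg_final (by omega)]; exact hodd
      · rw [hist_length]; exact (Sh_lt a1).1
      · rw [hist_length]; exact (Sh_lt a2).1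
    refine all p ⟨Nat.pair b N + 1, fun s' hs' t' => ?_⟩
    rw [hb, show (2 * b + 1) / 2 = b by omega]
    refine Or.inr (Or.inr (Or.inr (Or.inr (Or.inr (Opn_iff.2
      ⟨Nat.pair b N + 1, hs', ⟨Nat.pair b N, by omega, hE⟩, ?_⟩)))))
    rintro ⟨_, h4, _⟩
    rw [cfg_final (by omega)] at h4
    omega

theorem not_held {k d b : ℕ} {φ : ℕ → ℕ} (hk : eQ k = e) (hφ : ∀ x, ∃ s, ev s (iQ k) x = some (φ x))
    (hred : ∀ x, pos x = pos (tau e d (φ x))) (hd : pos d = 0) (hb : hF b = k) (hc : 2 ≤ cF b)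
    (hC : Cor k b) (hz : ∀ s, ¬ Fz (hist s) b k) : False := by
  have hek : e ≤ k := by rw [← hk]; exact Nat.unpair_left_le k
  have hs2 : (2 * b) / 2 = b := by omega
  have hs3 : (2 * b + 1) / 2 = b := by omega
  obtain ⟨s₁, h1, x, h2, h3, h4⟩ := last_attack (s := sF b) (b := b) hc
  have hhF : hol (hist (sF b)) b = k := hb
  rw [hhF] at h2 h4
  have hcF : cfg (hist (sF b)) b = cF b := rfl
  rw [hcF] at h4
  set c := cfg (hist s₁) b with hcdef
  have hodd : c % 2 = 1 := h2.2.1
  obtain ⟨_, b0, hG, hE, hnE, hx, _, _⟩ := h2.2.2.1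
  rw [hk] at hG hE hnE hx
  obtain ⟨_, _, _, t1, _, ht1, ht1'⟩ := hE
  have hESx : ES (hist s₁) e x c (2 * b + 1) :=
    ES_iff.2 ⟨s₁, le_rfl, by rw [hs3], hx⟩
  have hESt : ES (hist s₁) e t1 c (2 * b) :=
    ES_iff.2 ⟨s₁, le_rfl, by rw [hs2], ht1'⟩
  have htau : tau e d (φ x) = d ∨
      (tau e d (φ x) = (φ x).unpair.1 ∧ InY (hist (φ x).unpair.2) e (φ x).unpair.1) := by
    unfold tau
    split_ifs with h
    · exact Or.inr ⟨rfl, h⟩
    · exact Or.inl rfl
  rcases h4 with h4 | ⟨h4, s₂, _, h5, h6, h7⟩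
  · -- the attack is still in progress
    have hx1 : pos x = 2 * b + 1 := ES_one hpos hESx (by rw [hs3]; exact h4) (by omega)
    have hy := hred x
    rw [hx1] at hy
    rcases htau with ht | ⟨ht, hY⟩
    · rw [ht, hd] at hy; omega
    rw [ht] at hy
    rw [InY_iff] at hY
    obtain ⟨p, _, ⟨σ, _, hp⟩, hY⟩ := hY
    have hpb := Sh_block hpos hp
    rw [← hy, hs3] at hpb
    rw [hpb] at hY
    have hafter : ∀ s ≥ s₁ + 1, cfg (hist s) b = cF b := by
      intro s hs
      have a1 := cfg_mono (b := b) hs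
      rw [IsA_cfg h2] at a1
      have a2 := cfg_le_cF s b
      omega
    have hafterst : ∀ s ≥ s₁ + 1, hol (hist s) b = k ∧ xx (hist s) b = x := by
      intro s hs
      have a1 := st_eq hs (b := b) (by rw [hafter _ le_rfl, hafter s hs])
      constructor
      · have := IsA_hol h2
        unfold hol at this ⊢
        rw [a1]; exact this
      · have := IsA_xx h2
        unfold xx at this ⊢
        rw [a1]; exact this
    have hFst : Fst (hist (φ x).unpair.2) e (2 * b + 1) (φ x).unpair.1 := by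
      rcases hY with a | a | a | a | a | a
      · exact absurd hG a
      · have := hF_le_hol 0 b
        rw [hol_zero] at this
        omega
      · have := hF_le_hol (φ x).unpair.2 b
        omega
      · exfalso
        obtain ⟨t, s, a1, a2⟩ := fst_even hpos hsurj hG (by omega)
        have := Fst_unique a a1
        rw [this] at hy
        omega
      · exact a
      · exfalso
        rw [Opn_iff] at a
        obtain ⟨σ', _, ⟨σ, a2, a3⟩, a4⟩ := a
        have a5 : s₁ ≤ σ := by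
          by_contra hlt
          exact hnE (EvB_iff.2 ⟨σ, by omega, a3⟩)
        refine a4 ⟨?_, ?_, ?_⟩
        · rw [hafter σ' (by omega)]; omega
        · rw [hafter σ' (by omega)]; omega
        · rw [(hafterst σ' (by omega)).1, hk]
    obtain ⟨s₃, hs₃⟩ := hφ x
    obtain ⟨s₄, hs₄⟩ := bdd_all (n := k + 1) (P := fun e' s => e' ∈ GB b → Wt (hist s) e' b) (by
      intro e' he'
      by_cases h : e' ∈ GB b
      · obtain ⟨s, hs⟩ := Wt_ev ((hC e' he').1 h) h (by omega) (by omega)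
        exact ⟨s, fun s' hs' _ => hs s' hs'⟩
      · exact ⟨0, fun _ _ h' => absurd h' h⟩)
    set N := s₁ + 1 + (φ x).unpair.2 + s₃ + s₄ with hN
    have hNle : N ≤ Nat.pair b N := Nat.right_le_pair _ _
    obtain ⟨e1, e2⟩ := hafterst (Nat.pair b N) (by omega)
    have e3 := hafter (Nat.pair b N) (by omega)
    have e4 := ev_mono (t := Nat.pair b N) (by omega) hs₃
    have hR : Ret (hist (Nat.pair b N)) b := by
      unfold Ret
      rw [hist_length, e1, e2, e3, e4, hk]
      refine ⟨by omega, by omega, by simp, ?_, ?_, hz _⟩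
      · simp only [Option.getD_some]
        exact Fst_mono (by omega) hFst
      · exact hs₄ _ (by omega)
    have := cfg_R (by simp) hR
    rw [hafter _ (by omega), hafter _ (by omega)] at this
    omega
  · -- the attack was successful
    have hx1 : pos x = 2 * b + 1 := ES_two hpos hESx (by rw [hs3]; exact h4)
    have ht2 : pos t1 = 2 * b := ES_two hpos hESt (by rw [hs2]; exact h4)
    obtain ⟨_, ⟨_, _, g1, g2, _⟩, _⟩ := h6
    have e1 : hol (hist s₂) b = k := by unfold hol; rw [h7]; simp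
    have e2 : xx (hist s₂) b = x := by unfold xx; rw [h7]; simp
    rw [e1, e2, hist_length] at g1 g2
    obtain ⟨m, hm⟩ := Option.ne_none_iff_exists'.1 g1
    rw [hm] at g2
    simp only [Option.getD_some] at g2
    obtain ⟨s₃, hs₃⟩ := hφ x
    have e3 := ev_inj hm hs₃
    rw [e3, hk] at g2
    have e4 := Fst_unique g2 ht1
    have hy := hred x
    rcases htau with ht | ⟨ht, _⟩
    · rw [ht, hd] at hy; omega
    · rw [ht, e4] at hy; omega

end True

theorem hol_cases (s b : ℕ) : hol (hist s) b = rB b ∨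
    ∃ s₁, ∃ x, IsA s₁ b (hol (hist s) b) x := by
  induction s with
  | zero => exact Or.inl (hol_zero b)
  | succ s ih =>
    rcases hol_succ s b with h | ⟨k, x, h, h1, _⟩ | ⟨_, h⟩
    · rw [h]; exact ih
    · right; exact ⟨s, x, by rw [h1]; exact h⟩
    · left; exact h

theorem lt_hol (k : ℕ) : ∃ S, ∀ b ≥ S, Cor k b → k < rB b → ∀ s, k < hol (hist s) b := by
  obtain ⟨S₂, hS₂⟩ := M3' k
  refine ⟨S₂, fun b hb hC hr s => ?_⟩
  rcases hol_cases s b with h | ⟨s₁, x, h⟩
  · omega
  · by_contra hlt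
    exact hS₂ s₁ b x hb _ (by omega) (Cor_le (by omega) hC) h

section Main
variable {e : ℕ} {pos : ℕ → ℕ} (hpos : ∀ t x, Dl (Nat.pair e t) x ↔ x ∈ mu (pos t))
  (hsurj : ∀ p, ∃ t, pos t = p) {k d : ℕ} {φ : ℕ → ℕ} (hk : eQ k = e)
  (hφ : ∀ x, ∃ s, ev s (iQ k) x = some (φ x))
  (hred : ∀ x, pos x = pos (tau e d (φ x))) (hd : pos d = 0)
include hpos hsurj hk hφ hred hd

theorem need_ev : ∃ S, ∀ s ≥ S, ∀ b, Cor k b → Need (hist s) b k := by
  obtain ⟨S₂, hS₂⟩ := M3' k
  obtain ⟨S₃, hS₃⟩ := bdd_all (n := S₂) (P := fun b' s => 2 ≤ cfg (hist s) b' →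
    hol (hist s) b' = k → Cor k b' → Fz (hist s) b' k) (by
      intro b' _
      by_cases h : ∃ s, Fz (hist s) b' k
      · obtain ⟨s, hs⟩ := h
        exact ⟨s, fun s' hs' _ _ _ => Fz_mono hs' hs⟩
      · push Not at h
        refine ⟨sF b', fun s hs h1 h2 h3 => ?_⟩
        rw [cfg_final hs] at h1
        rw [hol_final hs] at h2
        exact (not_held hpos hsurj hk hφ hred hd h2 h1 h3 h).elim)
  refine ⟨S₃, fun s hs b hC b' _ h1 h2 h3 => ?_⟩
  have hC' : Cor k b' := Cor_of_SV h3 hC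
  by_cases hb : b' < S₂
  · exact hS₃ s hs b' hb h1 h2 hC'
  · exfalso
    obtain ⟨s₁, _, x, h4, _⟩ := last_attack h1
    rw [h2] at h4
    exact hS₂ s₁ b' x (by omega) k le_rfl hC' h4

theorem no_event : ∃ S, ∀ b ≥ S, Cor k b → k < rB b → ∀ s, ¬ EvA (hist s) e b := by
  obtain ⟨S₂, hS₂⟩ := M3' k
  obtain ⟨B, hB⟩ := not_Fz k
  obtain ⟨S₃, hS₃⟩ := need_ev hpos hsurj hk hφ hred hd
  obtain ⟨S₄, hS₄⟩ := lt_hol k
  refine ⟨S₂ + B + S₃ + S₄ + k + 1, fun b hb hC hr s hE => ?_⟩
  classical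
  have hex : ∃ s, EvA (hist s) e b := ⟨s, hE⟩
  have h1 := Nat.find_spec hex
  have h2 : ∀ σ < Nat.find hex, ¬ EvA (hist σ) e b := fun σ hσ => Nat.find_min hex hσ
  set s' := Nat.find hex with hs'
  have hsb : s'.unpair.1 = b := by have := h1.1; rwa [hist_length] at this
  have hbs : b ≤ s' := by rw [← hsb]; exact Nat.unpair_left_le s'
  have hek : e ≤ k := by rw [← hk]; exact Nat.unpair_left_le k
  obtain ⟨x, _, hx⟩ := h1.2.2.1
  have hEl : Elig (hist s') b k x := by
    refine ⟨hS₄ b (by omega) hC hr s', by omega, ?_, ?_, ?_, ?_, hB b (by omega) hC s',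
      hS₃ s' (by omega) b hC⟩
    · rw [hk]; exact (hC e (by omega)).2 (TP_true hpos hsurj)
    · rw [hk]; exact h1
    · rw [hk]
      intro h
      obtain ⟨σ, h3, h4⟩ := EvB_iff.1 h
      exact h2 σ h3 h4
    · rw [hk]; exact hx
  obtain ⟨k', hk', x', hA⟩ := exists_attack hsb (by omega) hEl
  exact hS₂ s' b x' (by omega) k' hk' (Cor_le hk' hC) hA

/-- on the blocks with a correct guess the first tokens are correct -/
theorem fst_correct : ∃ S, ∀ b ≥ S, Cor k b → k < rB b → ∀ p, p / 2 = b →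
    ∀ s t, Fst (hist s) e p t → pos t = p := by
  obtain ⟨S₃, hS₃⟩ := no_event hpos hsurj hk hφ hred hd
  obtain ⟨S₄, hS₄⟩ := lt_hol k
  refine ⟨S₃ + S₄, fun b hb hC hr p hp s t hFs => ?_⟩
  have hek : e ≤ k := by rw [← hk]; exact Nat.unpair_left_le k
  have hG : e ∈ GB b := (hC e (by omega)).2 (TP_true hpos hsurj)
  have hh : e ≤ hF b := by
    have := hS₄ b (by omega) hC hr (sF b)
    unfold hF
    omega
  rcases Nat.even_or_odd' p with ⟨b', hb' | hb'⟩
  · have : b' = b := by omega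
    subst this
    obtain ⟨t', s', h1, h2⟩ := fst_even hpos hsurj hG hh
    rw [hb'] at hFs ⊢
    rw [Fst_unique hFs h1, h2]
  · have : b' = b := by omega
    subst this
    obtain ⟨t', s', h1, h2, h3⟩ := fst_odd hpos hsurj hG hh
    rw [hb'] at hFs ⊢
    rw [Fst_unique hFs h1]
    by_contra ht
    have hodd : cF b' % 2 = 1 := by
      by_contra hne
      exact ht (h2 (by omega))
    have ht' : pos t' = 2 * b' := by omega
    obtain ⟨x, hx, s₁, hs₁⟩ := late_Sh hpos hsurj (2 * b' + 1)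
    obtain ⟨s₂, hs₂⟩ := late hpos t'
    rw [ht'] at hs₂
    set N := s' + s₁ + s₂ + sF b' with hN
    have hNle : N ≤ Nat.pair b' N := Nat.right_le_pair _ _
    have a1 := hs₁ (Nat.pair b' N) (by omega)
    have a2 := hs₂ (Nat.pair b' N) (by omega)
    refine hS₃ b' (by omega) hC hr (Nat.pair b' N) ⟨by rw [hist_length]; simp, ?_, ⟨x, ?_, a1⟩,
      t', ?_, Fst_mono (by omega) h1, a2⟩
    · rw [cfg_final (by omega)]; exact hodd
    · rw [hist_length]; exact (Sh_lt a1).1
    · rw [hist_length]; exact (Sh_lt a2).1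

end Main

/-- `m` is the least mistake of the guess of `b` and it is total looking -/
def Mi (T : List ℕ) (b m : ℕ) : Prop :=
  m ∈ T ∧ m ∉ GB b ∧ (∀ j < m, j ∈ GB b → j ∈ T) ∧ ∀ j < m, j ∈ T → j ∈ GB b

theorem primrec_Mi {α : Type*} [Primcodable α] (T : List ℕ) {b m : α → ℕ} (hb : Primrec b)
    (hm : Primrec m) : PrimrecPred (fun a => Mi T (b a) (m a)) := by
  unfold Mi
  have hb2 := hb.comp (Primrec.snd (α := ℕ))
  have hT1 : PrimrecPred (fun x : ℕ × α => x.1 ∈ T) :=
    primrec_mem.comp Primrec.fst (Primrec.const T)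
  refine (primrec_mem.comp hm (Primrec.const T)).and ((primrec_inGB hm hb).not.and
    (PrimrecPred.and ?_ ?_))
  · exact all_lt (R := fun j a => j ∈ GB (b a) → j ∈ T)
      (imp_pred (primrec_inGB Primrec.fst hb2) hT1) hm
  · exact all_lt (R := fun j a => j ∈ T → j ∈ GB (b a))
      (imp_pred hT1 (primrec_inGB Primrec.fst hb2)) hm

/-- a large block with a total looking least mistake is final once the mistake is seen -/
theorem mis_final (k : ℕ) : ∃ S, ∀ b ≥ S, ∀ m ≤ k, m ∉ GB b → (∀ j < m, (j ∈ GB b ↔ TP j)) →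
    ∀ s, seen (hist s) m b → cfg (hist s) b = cF b := by
  obtain ⟨S₂, hS₂⟩ := M3' k
  obtain ⟨S₅, hS₅⟩ := M5' k
  refine ⟨S₂ + S₅, fun b hb m hm hG hlt s hs => ?_⟩
  by_cases hr : rB b < m
  · have h0 := hS₅ b (by omega) (by omega) (fun j hj => hlt j (by omega))
    have := cfg_le_cF s b
    omega
  have h1 : ∀ s' ≥ s, cfg (hist s') b = cfg (hist s) b := by
    intro s' hs'
    induction s', hs' using Nat.le_induction with
    | base => rfl
    | succ n hn ih =>
      have hseen := seen_mono hn hs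
      rcases st_cases n b with h | ⟨h, _, _⟩ | ⟨h, _⟩ | ⟨k', x, h, _⟩
      · unfold cfg at *; rw [h]; exact ih
      · exact absurd ⟨m, by omega, hG, hseen⟩ h.2.2.2.1
      · exfalso
        have h2 : 2 ≤ cfg (hist n) b := by
          have := h.2.2
          have := h.2.1.2.1
          omega
        by_cases hlt' : hol (hist n) b < m
        · obtain ⟨s₁, _, x, h4, _⟩ := last_attack h2
          exact hS₂ s₁ b x (by omega) _ (by omega) (fun j hj => hlt j (by omega)) h4
        · exact h.2.1.2.2.2.2.2 ⟨m, by omega, hG, hseen⟩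
      · exfalso
        by_cases hlt' : k' < m
        · exact hS₂ n b x (by omega) k' (by omega) (fun j hj => hlt j (by omega)) h
        · exact h.2.2.1.2.2.2.2.2.2.1 ⟨m, by omega, hG, hseen⟩
  have := h1 (max s (sF b)) (le_max_left _ _)
  rw [cfg_final (le_max_right _ _)] at this
  exact this.symm

/-- a large block with another least mistake is never broken -/
theorem mis_zero (k : ℕ) : ∃ S, ∀ b ≥ S, ∀ m ≤ k, ¬ TP m → m ∈ GB b →
    (∀ j < m, (j ∈ GB b ↔ TP j)) → cF b = 0 := by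
  obtain ⟨S₅, hS₅⟩ := M5' k
  obtain ⟨B, hB⟩ := bdd_all (n := k + 1) (P := fun e b => ¬ TP e → ∀ s, ¬ seen (hist s) e b) (by
    intro e _
    by_cases h : TP e
    · exact ⟨0, fun b _ h' => absurd h h'⟩
    · obtain ⟨B, hB⟩ := not_TP h
      exact ⟨B, fun b hb _ => hB b hb⟩)
  refine ⟨S₅ + B, fun b hb m hm hT hG hlt => ?_⟩
  by_cases hr : rB b < m
  · exact hS₅ b (by omega) (by omega) (fun j hj => hlt j (by omega))
  by_contra h0
  obtain ⟨s, _, hs⟩ := cfg_pos_B (s := sF b) (b := b) h0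
  exact hB b (by omega) m (by omega) hT s (hs.2.2.1 m (by omega) hG)

theorem exists_list (P : ℕ → Prop) (k : ℕ) : ∃ T : List ℕ, ∀ j < k + 1, (j ∈ T ↔ P j) := by
  classical
  refine ⟨(List.range (k + 1)).filter (fun j => P j), fun j hj => ?_⟩
  simp [hj]

section Main2
variable {e : ℕ} {pos : ℕ → ℕ} (hpos : ∀ t x, Dl (Nat.pair e t) x ↔ x ∈ mu (pos t))
  (hsurj : ∀ p, ∃ t, pos t = p) {k d : ℕ} {φ : ℕ → ℕ} (hk : eQ k = e)
  (hφ : ∀ x, ∃ s, ev s (iQ k) x = some (φ x))
  (hred : ∀ x, pos x = pos (tau e d (φ x))) (hd : pos d = 0)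
include hpos hsurj hk hφ hred hd

theorem main_aux : ∃ f : ℕ → ℕ, Computable f ∧ ∃ N, ∀ p ≥ N, pos (f p) = p := by
  classical
  obtain ⟨T, hT⟩ := exists_list TP k
  obtain ⟨S₁, hS₁⟩ := mis_final k
  obtain ⟨S₂, hS₂⟩ := mis_zero k
  obtain ⟨S₃, hS₃⟩ := fst_correct hpos hsurj hk hφ hred hd
  obtain ⟨S₄, hS₄⟩ := M5' k
  let P : ℕ → ℕ → Prop := fun p n =>
    (∀ m < k + 1, Mi T (p / 2) m → seen (hist n.unpair.1) m (p / 2)) ∧
    (((∃ m < k + 1, Mi T (p / 2) m) ∧ Sh (hist n.unpair.1) e n.unpair.2 p) ∨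
      (¬ (∃ m < k + 1, Mi T (p / 2) m) ∧ Fst (hist n.unpair.1) e p n.unpair.2))
  have hP : ComputablePred (fun q : ℕ × ℕ => P q.1 q.2) := by
    refine PrimrecPred.computablePred ?_
    have u1 : Primrec (fun q : ℕ × ℕ => q.2.unpair.1) := primrec_u1.comp Primrec.snd
    have u2 : Primrec (fun q : ℕ × ℕ => q.2.unpair.2) := primrec_u2.comp Primrec.snd
    have uh : Primrec (fun q : ℕ × ℕ => hist q.2.unpair.1) := primrec_hist.comp u1
    have ub : Primrec (fun q : ℕ × ℕ => q.1 / 2) := primrec_half Primrec.fst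
    have hM : PrimrecPred (fun q : ℕ × ℕ => ∃ m < k + 1, Mi T (q.1 / 2) m) :=
      ex_lt (R := fun m (q : ℕ × ℕ) => Mi T (q.1 / 2) m)
        (primrec_Mi T (ub.comp Primrec.snd) Primrec.fst) (Primrec.const (k + 1))
    refine PrimrecPred.and ?_ (PrimrecPred.or ?_ ?_)
    · exact all_lt (R := fun m (q : ℕ × ℕ) => Mi T (q.1 / 2) m →
        seen (hist q.2.unpair.1) m (q.1 / 2))
        (imp_pred (primrec_Mi T (ub.comp Primrec.snd) Primrec.fst)
          (primrec_seen (uh.comp Primrec.snd) Primrec.fst (ub.comp Primrec.snd)))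
        (Primrec.const (k + 1))
    · exact hM.and (primrec_Sh uh (Primrec.const e) u2 Primrec.fst)
    · exact hM.not.and (primrec_Fst uh (Primrec.const e) Primrec.fst u2)
  have hex : ∀ p, ∃ n, P p n := by
    intro p
    obtain ⟨s₀, hs₀⟩ := bdd_all (n := k + 1) (P := fun m s => Mi T (p / 2) m →
      seen (hist s) m (p / 2)) (by
        intro m hm
        by_cases h : Mi T (p / 2) m
        · obtain ⟨s, hs⟩ := seen_ev (b := p / 2) ((hT m hm).1 h.1)
          exact ⟨s, fun s' hs' _ => hs s' hs'⟩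
        · exact ⟨0, fun _ _ h' => absurd h' h⟩)
    obtain ⟨t, _, s₁, hs₁⟩ := late_Sh hpos hsurj p
    by_cases hM : ∃ m < k + 1, Mi T (p / 2) m
    · refine ⟨Nat.pair (s₀ + s₁) t, ?_, Or.inl ⟨hM, ?_⟩⟩
      · simp only [Nat.unpair_pair]; exact hs₀ _ (by omega)
      · simp only [Nat.unpair_pair]; exact hs₁ _ (by omega)
    · obtain ⟨t', ht'⟩ := Fst_exists (hs₁ s₁ le_rfl)
      refine ⟨Nat.pair (s₀ + s₁) t', ?_, Or.inr ⟨hM, ?_⟩⟩
      · simp only [Nat.unpair_pair]; exact hs₀ _ (by omega)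
      · simp only [Nat.unpair_pair]; exact Fst_mono (by omega) ht'
  refine ⟨fun p => (Nat.find (hex p)).unpair.2,
    primrec_u2.to_comp.comp (Computable.find hP hex), 2 * (S₁ + S₂ + S₃ + S₄) + 2,
    fun p hp => ?_⟩
  obtain ⟨h1, h2⟩ := Nat.find_spec (hex p)
  set n := Nat.find (hex p)
  have hTP : ∀ j < k + 1, (j ∈ T ↔ TP j) := hT
  have zero_case : cF (p / 2) = 0 → Fst (hist n.unpair.1) e p n.unpair.2 →
      pos n.unpair.2 = p := by
    intro h0 hF
    obtain ⟨σ, hσ, hSh⟩ := Fst_Sh hF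
    refine ES_pos hpos (s := σ) (ES_iff.2 ⟨σ, le_rfl, ?_, hSh⟩)
    have := cfg_le_cF σ (p / 2)
    omega
  rcases h2 with ⟨⟨m, hm, hMi⟩, hSh⟩ | ⟨hno, hF⟩
  · have h3 := h1 m hm hMi
    obtain ⟨a1, a2, a3, a4⟩ := hMi
    have h4 := hS₁ (p / 2) (by omega) m (by omega) a2
      (fun j hj => ⟨fun h => (hTP j (by omega)).1 (a3 j hj h),
        fun h => a4 j hj ((hTP j (by omega)).2 h)⟩) _ h3
    exact ES_pos hpos (s := n.unpair.1) (ES_iff.2 ⟨n.unpair.1, le_rfl, h4, hSh⟩)
  · by_cases hC : Cor k (p / 2)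
    · by_cases hr : k < rB (p / 2)
      · exact hS₃ (p / 2) (by omega) hC hr p rfl _ _ hF
      · exact zero_case (hS₄ (p / 2) (by omega) (by omega) (Cor_le (by omega) hC)) hF
    · unfold Cor at hC
      push Not at hC
      have hex2 : ∃ j, j < k + 1 ∧ ¬ (j ∈ GB (p / 2) ↔ TP j) := by
        obtain ⟨j, hj, h⟩ := hC
        refine ⟨j, hj, fun h' => ?_⟩
        rcases h with h | h
        · exact h.2 (h'.1 h.1)
        · exact h.1 (h'.2 h.2)
      obtain ⟨b1, b2⟩ := Nat.find_spec hex2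
      have b3 : ∀ j < Nat.find hex2, (j ∈ GB (p / 2) ↔ TP j) := by
        intro j hj
        by_contra hcon
        exact Nat.find_min hex2 hj ⟨by omega, hcon⟩
      set m := Nat.find hex2
      by_cases hmT : TP m
      · exfalso
        refine hno ⟨m, b1, (hTP m b1).2 hmT, fun h => b2 ⟨fun _ => hmT, fun _ => h⟩,
          fun j hj h => (hTP j (by omega)).2 ((b3 j hj).1 h),
          fun j hj h => (b3 j hj).2 ((hTP j (by omega)).1 h)⟩
      · have hmG : m ∈ GB (p / 2) := by
          by_contra hcon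
          exact b2 ⟨fun h => absurd h hcon, fun h => absurd h hmT⟩
        exact zero_case (hS₂ (p / 2) (by omega) m (by omega) hmT hmG b3) hF

theorem main : ∃ f : ℕ → ℕ, Computable f ∧ ∀ p, pos (f p) = p := by
  obtain ⟨f, hf, N, hN⟩ := main_aux hpos hsurj hk hφ hred hd
  have h : ∀ n, ∃ g : ℕ → ℕ, Computable g ∧ ∀ p, (p < n ∨ N ≤ p) → pos (g p) = p := by
    intro n
    induction n with
    | zero => exact ⟨f, hf, fun p hp => hN p (by omega)⟩
    | succ n ih =>
      obtain ⟨g, hg, h⟩ := ih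
      obtain ⟨t, ht⟩ := hsurj n
      refine ⟨fun p => if p = n then t else g p, ?_, fun p hp => ?_⟩
      · refine ComputablePred.ite (Computable.const t) hg ?_
        exact PrimrecPred.computablePred (Primrec.eq.comp Primrec.id (Primrec.const n))
      · by_cases hpn : p = n
        · simp only [hpn, if_pos]; exact ht
        · simp only [if_neg hpn]
          exact h p (by omega)
  obtain ⟨g, hg, h'⟩ := h N
  exact ⟨g, hg, fun p => h' p (by omega)⟩

end Main2

/-! ### The Ershov hierarchy -/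

theorem exists_change {f : ℕ → Bool} {a b : ℕ} (h : a ≤ b) (hf : f a ≠ f b) :
    ∃ s, a ≤ s ∧ s < b ∧ f (s + 1) ≠ f s := by
  induction h with
  | refl => exact absurd rfl hf
  | @step m hm ih =>
    by_cases h1 : f a = f m
    · exact ⟨m, hm, by omega, fun h2 => hf (by rw [h1, ← h2])⟩
    · obtain ⟨s, h2, h3, h4⟩ := ih h1
      exact ⟨s, h2, by omega, h4⟩

theorem change_le_two {f : ℕ → Bool} (h : ∀ a b c, a ≤ b → b ≤ c → f a = true → f b = false →
    f c = false) : {s | f (s + 1) ≠ f s}.encard ≤ 2 := by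
  have hsub : {s | f (s + 1) ≠ f s} ⊆
      {s | f s = false ∧ f (s + 1) = true} ∪ {s | f s = true ∧ f (s + 1) = false} := by
    intro s hs
    simp only [Set.mem_ofPred_eq] at hs
    cases h1 : f s <;> cases h2 : f (s + 1) <;> simp_all
  refine (Set.encard_mono hsub).trans ((Set.encard_union_le _ _).trans ?_)
  have e1 : {s | f s = false ∧ f (s + 1) = true}.encard ≤ 1 := by
    rw [Set.encard_le_one_iff]
    rintro a b ⟨a1, a2⟩ ⟨b1, b2⟩
    rcases lt_trichotomy a b with hab | hab | hab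
    · have := h (a + 1) b (b + 1) (by omega) (by omega) a2 b1
      rw [this] at b2; exact absurd b2 (by simp)
    · exact hab
    · have := h (b + 1) a (a + 1) (by omega) (by omega) b2 a1
      rw [this] at a2; exact absurd a2 (by simp)
  have e2 : {s | f s = true ∧ f (s + 1) = false}.encard ≤ 1 := by
    rw [Set.encard_le_one_iff]
    rintro a b ⟨a1, a2⟩ ⟨b1, b2⟩
    rcases lt_trichotomy a b with hab | hab | hab
    · have := h a (a + 1) b (by omega) (by omega) a1 a2
      rw [this] at b1; exact absurd b1 (by simp)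
    · exact hab
    · have := h b (b + 1) a (by omega) (by omega) b1 b2
      rw [this] at a1; exact absurd a1 (by simp)
  calc _ ≤ (1 : ℕ∞) + 1 := add_le_add e1 e2
    _ = 2 := by norm_num

theorem no_three {f : ℕ → Bool} (h : {s | f (s + 1) ≠ f s}.encard ≤ 2) (h0 : f 0 = false)
    {a b c : ℕ} (hab : a ≤ b) (hbc : b ≤ c) (ha : f a = true) (hb : f b = false)
    (hc : f c = true) : False := by
  obtain ⟨x, _, x2, x3⟩ := exists_change (f := f) (Nat.zero_le a) (by rw [h0, ha]; simp)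
  obtain ⟨y, y1, y2, y3⟩ := exists_change (f := f) hab (by rw [ha, hb]; simp)
  obtain ⟨z, z1, _, z3⟩ := exists_change (f := f) hbc (by rw [hb, hc]; simp)
  have hsub : (({x, y, z} : Finset ℕ) : Set ℕ) ⊆ {s | f (s + 1) ≠ f s} := by
    intro s hs
    simp only [Finset.coe_insert, Finset.coe_singleton, Set.mem_insert_iff,
      Set.mem_singleton_iff] at hs
    rcases hs with rfl | rfl | rfl
    · exact x3
    · exact y3
    · exact z3
  have hcard : ({x, y, z} : Finset ℕ).card = 3 := by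
    rw [Finset.card_eq_three]
    exact ⟨x, y, z, by omega, by omega, by omega, rfl⟩
  have := (Set.encard_mono hsub).trans h
  rw [Set.encard_coe_eq_coe_finsetCard, hcard] at this
  exact absurd this (by decide)

/-- enumeration of the domain of a search -/
theorem exists_W {p : ℕ → ℕ → Bool} (hp : Computable₂ p) :
    ∃ e, ∀ y, (∃ s, W s e y = true) ↔ ∃ n, p y n = true := by
  have h : Partrec (fun y : ℕ => Nat.rfind fun n => Part.some (p y n)) := by
    refine Partrec.rfind ?_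
    exact hp.partrec₂
  obtain ⟨c, hc⟩ := Code.exists_code.1 (Partrec.nat_iff.1 h)
  refine ⟨Encodable.encode c, fun y => ?_⟩
  have h1 : (∃ s, W s (Encodable.encode c) y = true) ↔ (c.eval y).Dom := by
    rw [Part.dom_iff_mem]
    constructor
    · rintro ⟨s, hs⟩
      unfold W at hs
      rw [Denumerable.ofNat_encode] at hs
      obtain ⟨v, hv⟩ := Option.isSome_iff_exists.1 hs
      exact ⟨v, Code.evaln_sound hv⟩
    · rintro ⟨v, hv⟩
      obtain ⟨s, hs⟩ := Code.evaln_complete.1 hv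
      refine ⟨s, ?_⟩
      unfold W
      rw [Denumerable.ofNat_encode]
      exact Option.isSome_iff_exists.2 ⟨v, hs⟩
  rw [h1, hc, Nat.rfind_dom]
  simp

theorem Dl_iff (w x : ℕ) : Dl w x ↔
    (∃ s, W s w.unpair.1.unpair.1 (Nat.pair w.unpair.2 x) = true) ∧
      ¬ ∃ s, W s w.unpair.1.unpair.2 (Nat.pair w.unpair.2 x) = true := by
  constructor
  · rintro ⟨s₀, h⟩
    refine ⟨⟨s₀, (Dm_true (h s₀ le_rfl)).1⟩, ?_⟩
    rintro ⟨s, hs⟩
    have h1 := (Dm_true (h (max s₀ s) (le_max_left _ _))).2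
    rw [W_mono (le_max_right _ _) hs] at h1
    exact Bool.noConfusion h1
  · rintro ⟨⟨s, hs⟩, h⟩
    refine ⟨s, fun s' hs' => ?_⟩
    push Not at h
    have := h s'
    simp only [Bool.not_eq_true] at this
    unfold Dm
    rw [W_mono hs' hs, this]; rfl

/-- normal form of `2`-c.e. sets -/
theorem nce_two {X : Set ℕ} (h : NCE 2 X) :
    ∃ e, ∀ t x, Dl (Nat.pair e t) x ↔ Nat.pair t x ∈ X := by
  obtain ⟨g, hg, hx⟩ := h
  obtain ⟨e₀, h₀⟩ := exists_W hg
  obtain ⟨e₁, h₁⟩ := exists_W (p := fun y n => g y n.unpair.1 && !g y (n.unpair.1 + n.unpair.2)) (by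
    have a : Computable (fun q : ℕ × ℕ => g q.1 q.2.unpair.1) :=
      hg.comp Computable.fst (primrec_u1.comp Primrec.snd).to_comp
    have b : Computable (fun q : ℕ × ℕ => g q.1 (q.2.unpair.1 + q.2.unpair.2)) :=
      hg.comp Computable.fst (Primrec.nat_add.comp (primrec_u1.comp Primrec.snd)
        (primrec_u2.comp Primrec.snd)).to_comp
    exact Primrec.and.to_comp.comp a (Primrec.not.to_comp.comp b))
  refine ⟨Nat.pair e₀ e₁, fun t x => ?_⟩
  rw [Dl_iff]
  simp only [Nat.unpair_pair]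
  rw [h₀, h₁]
  obtain ⟨a0, ⟨s₀, hs₀⟩, a2⟩ := hx (Nat.pair t x)
  have a2' : {s | g (Nat.pair t x) (s + 1) ≠ g (Nat.pair t x) s}.encard ≤ 2 := by
    exact_mod_cast a2
  constructor
  · rintro ⟨⟨n, hn⟩, hno⟩
    by_contra hX
    refine hno ⟨Nat.pair n s₀, ?_⟩
    simp only [Nat.unpair_pair]
    have : g (Nat.pair t x) (n + s₀) = false := by
      rw [← Bool.not_eq_true]
      exact fun h' => hX ((hs₀ _ (by omega)).1 h')
    rw [hn, this]; rfl
  · intro hX
    refine ⟨⟨s₀, (hs₀ s₀ le_rfl).2 hX⟩, ?_⟩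
    rintro ⟨n, hn⟩
    simp only [Bool.and_eq_true, Bool.not_eq_true'] at hn
    exact no_three a2' a0 (Nat.le_add_right _ _) (Nat.le_add_left _ s₀) hn.1 hn.2
      ((hs₀ _ (by omega)).2 hX)

theorem NCE.comp {n : ℕ} {X : Set ℕ} (h : NCE n X) {f : ℕ → ℕ} (hf : Computable f) :
    NCE n {y | f y ∈ X} := by
  obtain ⟨g, hg, hx⟩ := h
  exact ⟨fun y s => g (f y) s, hg.comp (hf.comp Computable.fst) Computable.snd,
    fun y => hx (f y)⟩

/-! ### The second numbering -/

open Classical in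
/-- position created at the stage `s` -/
noncomputable def posC (s : ℕ) : ℕ :=
  if cfg (hist s) s.unpair.1 = 0 ∧ cfg (hist (s + 1)) s.unpair.1 = 1 then
    2 * s.unpair.1 + 1 else 0

/-- position of the index `n` at the stage `s` -/
noncomputable def nuP (s n : ℕ) : ℕ :=
  if n % 3 = 0 then 2 * (n / 3) else
    if n % 3 = 1 then 2 * (n / 3) + (cfg (hist s) (n / 3) + 1) % 2 else posC (n / 3)

/-- final position of the index `n` -/
noncomputable def nuQ (n : ℕ) : ℕ :=
  if n % 3 = 0 then 2 * (n / 3) else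
    if n % 3 = 1 then 2 * (n / 3) + (cF (n / 3) + 1) % 2 else posC (n / 3)

noncomputable def nu (n : ℕ) : Set ℕ := mu (nuQ n)

theorem posC_spec (s : ℕ) : posC s = 0 ∨
    (posC s = 2 * s.unpair.1 + 1 ∧ cF s.unpair.1 ≠ 0) := by
  unfold posC
  split_ifs with h
  · right
    refine ⟨rfl, ?_⟩
    have := cfg_le_cF (s + 1) s.unpair.1
    omega
  · left; rfl

theorem nuQ_surj (p : ℕ) : ∃ n, nuQ n = p := by
  rcases Nat.even_or_odd' p with ⟨b, hb | hb⟩
  · refine ⟨3 * b, ?_⟩
    unfold nuQ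
    rw [if_pos (by omega)]
    omega
  · by_cases h : cF b % 2 = 0
    · refine ⟨3 * b + 1, ?_⟩
      unfold nuQ
      rw [if_neg (by omega), if_pos (by omega), show (3 * b + 1) / 3 = b by omega]
      omega
    · obtain ⟨s, _, hs⟩ := cfg_pos_B (s := sF b) (b := b)
        (by rw [cfg_final le_rfl]; omega)
      refine ⟨3 * s + 2, ?_⟩
      unfold nuQ
      rw [if_neg (by omega), if_neg (by omega), show (3 * s + 2) / 3 = s by omega]
      unfold posC
      rw [hs.1, if_pos ⟨hs.2.1, cfg_B hs⟩, hb]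

theorem range_nu : Set.range nu = Set.range mu := by
  ext X
  constructor
  · rintro ⟨p, rfl⟩; exact ⟨nuQ p, rfl⟩
  · rintro ⟨p, rfl⟩
    obtain ⟨n, hn⟩ := nuQ_surj p
    exact ⟨n, by unfold nu; rw [hn]⟩

open Classical in
/-- the first numbering does not reduce to the second -/
theorem mu_not_red {f : ℕ → ℕ} (hf : Computable f) (h : ∀ p, mu p = nu (f p)) : False := by
  obtain ⟨c, hc⟩ := Code.exists_code.1 (Partrec.nat_iff.1 hf.partrec)
  set r := Encodable.encode c with hr
  have hev : ∀ x, ∃ s₀, ∀ s ≥ s₀, ev s r x = some (f x) := by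
    intro x
    have h1 : f x ∈ c.eval x := by rw [hc]; exact Part.mem_some _
    obtain ⟨k, hk⟩ := Code.evaln_complete.1 h1
    refine ⟨k, fun s hs => ev_mono hs ?_⟩
    unfold ev
    rw [hr, Denumerable.ofNat_encode]
    exact hk
  have hQ : ∀ p, nuQ (f p) = p := fun p => (mu_inj (h p)).symm
  -- a broken block with label `r` is finally in an even configuration
  have hbr : ∀ b, rB b = r → cF b % 2 = 0 := by
    intro b hb
    by_contra hne
    obtain ⟨s, _, hs⟩ := cfg_pos_B (s := sF b) (b := b)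
      (by rw [cfg_final le_rfl]; omega)
    have h1 := hs.2.2.2.2.1
    rw [hist_length, hb] at h1
    obtain ⟨s₀, hs₀⟩ := hev (2 * b + 1)
    have h2 := ev_inj h1 (hs₀ s₀ le_rfl)
    have h3 := hQ (2 * b + 1)
    rw [← h2] at h3
    unfold nuQ at h3
    rw [if_neg (by omega), if_pos (by omega), show (3 * b + 1) / 3 = b by omega] at h3
    omega
  obtain ⟨S, hS⟩ := M5' r
  obtain ⟨B, hB⟩ := not_Fz r
  obtain ⟨T, hT⟩ := exists_list TP r
  set b := Nat.pair r (Nat.pair (Encodable.encode T) (S + B)) with hb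
  have hrb : rB b = r := by simp [rB, hb]
  have hGb : GB b = T := by simp [GB, hb]
  have hbN : S + B ≤ b := (Nat.right_le_pair _ _).trans (Nat.right_le_pair _ _)
  have hC : Cor r b := by
    intro j hj
    rw [hGb]
    exact hT j hj
  have hc0 : cF b = 0 := hS b (by omega) (by omega) (by rw [hrb]; exact hC)
  have hf1 : f (2 * b + 1) = 3 * b + 1 := by
    have h3 := hQ (2 * b + 1)
    unfold nuQ at h3
    split_ifs at h3 with g1 g2
    · omega
    · omega
    · exfalso
      rcases posC_spec (f (2 * b + 1) / 3) with g | ⟨g, g'⟩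
      · omega
      · have : (f (2 * b + 1) / 3).unpair.1 = b := by omega
        rw [this] at g'
        exact g' hc0
  obtain ⟨s₁, hs₁⟩ := hev (2 * b + 1)
  rw [hf1] at hs₁
  obtain ⟨s₂, hs₂⟩ := bdd_all (n := r + 1) (P := fun e s => e ∈ GB b → seen (hist s) e b) (by
    intro e he
    by_cases h : e ∈ GB b
    · obtain ⟨s, hs⟩ := seen_ev (b := b) ((hC e he).1 h)
      exact ⟨s, fun s' hs' _ => hs s' hs'⟩
    · exact ⟨0, fun _ _ h' => absurd h' h⟩)
  obtain ⟨s₃, hs₃⟩ := bdd_all (n := S) (P := fun b s => sF b ≤ s)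
    fun b _ => ⟨sF b, fun s hs => hs⟩
  set N := s₁ + s₂ + s₃ with hN
  have hNle : N ≤ Nat.pair b N := Nat.right_le_pair _ _
  have hcb : ∀ s, cfg (hist s) b = 0 := by
    intro s
    have := cfg_le_cF s b
    omega
  have hB : IsB (Nat.pair b N) b := by
    refine ⟨by simp, hcb _, ?_, ?_, ?_, ?_⟩
    · rw [hrb]; exact hs₂ _ (by omega)
    · rw [hrb]; exact hB b (by omega) hC _
    · rw [hist_length, hrb]; exact hs₁ _ (by omega)
    · intro b' _ h1 h2
      rw [hrb] at h1 h2
      have hC' : Cor r b' := Cor_of_SV h2 hC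
      by_cases hb' : b' < S
      · rw [cfg_final (hs₃ _ (by omega) b' hb')]
        exact hbr b' h1
      · have := hS b' (by omega) (by omega) (by rw [h1]; exact hC')
        have := cfg_le_cF (Nat.pair b N) b'
        omega
  have := cfg_B hB
  rw [hcb] at this
  omega

/-! ### The numberings are computable -/

def KS (s z : ℕ) : Prop :=
  ∃ s₂ < s, ∃ s₁ < s₂, shown (hist s₁) z ∧ Dm s₂ (wN z) z = false ∧
    cN z = cfg (hist s₂) (pN z / 2)

def LS (s z : ℕ) : Prop :=
  ∃ s₂ < s, ∃ s₁ < s₂, shown (hist s₁) z ∧ Dm s₂ (wN z) z = false ∧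
    ∃ z' < s₂, wN z' = wN z ∧ pN z' / 2 ≠ pN z / 2 ∧ shown (hist s₂) z'

def DS (s z : ℕ) : Prop :=
  ∃ s₂ < s, ∃ s₁ < s₂, shown (hist s₁) z ∧ Dm s₂ (wN z) z = false

def memS (s p z : ℕ) : Prop :=
  (pN z = p ∧ cN z = cfg (hist s) (pN z / 2)) ∨ KS (s + 1) z ∨
    (LS (s + 1) z ∧ pN z / 2 ≠ p / 2) ∨
    (sw (pN z) = p ∧ DS (s + 1) z ∧ BL z (cfg (hist s) (p / 2)))

section P2
variable {α : Type*} [Primcodable α]

theorem primrec_shown {L : α → List ℕ} {z : α → ℕ} (hL : Primrec L) (hz : Primrec z) :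
    PrimrecPred (fun a => shown (L a) (z a)) := by
  unfold shown
  exact (Primrec.eq.comp (primrec_Dm (Primrec.list_length.comp hL) (primrec_wN.comp hz) hz)
    (Primrec.const true)).and (Primrec.eq.comp (primrec_cN.comp hz)
      (primrec_cfg hL (primrec_half (primrec_pN.comp hz))))

theorem primrec_KS {f g : α → ℕ} (hf : Primrec f) (hg : Primrec g) :
    PrimrecPred (fun a => KS (f a) (g a)) := by
  unfold KS
  refine ex_lt (R := fun s₂ a => ∃ s₁ < s₂, shown (hist s₁) (g a) ∧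
    Dm s₂ (wN (g a)) (g a) = false ∧ cN (g a) = cfg (hist s₂) (pN (g a) / 2)) ?_ hf
  refine ex_lt (R := fun s₁ (x : ℕ × α) => shown (hist s₁) (g x.2) ∧
    Dm x.1 (wN (g x.2)) (g x.2) = false ∧ cN (g x.2) = cfg (hist x.1) (pN (g x.2) / 2)) ?_
    Primrec.fst
  have g' : Primrec (fun x : ℕ × (ℕ × α) => g x.2.2) := hg.comp (Primrec.snd.comp Primrec.snd)
  have s₂ : Primrec (fun x : ℕ × (ℕ × α) => x.2.1) := Primrec.fst.comp Primrec.snd
  exact (primrec_shown (primrec_hist.comp Primrec.fst) g').and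
    ((Primrec.eq.comp (primrec_Dm s₂ (primrec_wN.comp g') g') (Primrec.const false)).and
      (Primrec.eq.comp (primrec_cN.comp g')
        (primrec_cfg (primrec_hist.comp s₂) (primrec_half (primrec_pN.comp g')))))

theorem primrec_DS {f g : α → ℕ} (hf : Primrec f) (hg : Primrec g) :
    PrimrecPred (fun a => DS (f a) (g a)) := by
  unfold DS
  refine ex_lt (R := fun s₂ a => ∃ s₁ < s₂, shown (hist s₁) (g a) ∧
    Dm s₂ (wN (g a)) (g a) = false) ?_ hf
  refine ex_lt (R := fun s₁ (x : ℕ × α) => shown (hist s₁) (g x.2) ∧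
    Dm x.1 (wN (g x.2)) (g x.2) = false) ?_ Primrec.fst
  have g' : Primrec (fun x : ℕ × (ℕ × α) => g x.2.2) := hg.comp (Primrec.snd.comp Primrec.snd)
  have s₂ : Primrec (fun x : ℕ × (ℕ × α) => x.2.1) := Primrec.fst.comp Primrec.snd
  exact (primrec_shown (primrec_hist.comp Primrec.fst) g').and
    (Primrec.eq.comp (primrec_Dm s₂ (primrec_wN.comp g') g') (Primrec.const false))

theorem primrec_LS {f g : α → ℕ} (hf : Primrec f) (hg : Primrec g) :
    PrimrecPred (fun a => LS (f a) (g a)) := by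
  unfold LS
  refine ex_lt (R := fun s₂ a => ∃ s₁ < s₂, shown (hist s₁) (g a) ∧
    Dm s₂ (wN (g a)) (g a) = false ∧ ∃ z' < s₂, wN z' = wN (g a) ∧
      pN z' / 2 ≠ pN (g a) / 2 ∧ shown (hist s₂) z') ?_ hf
  refine ex_lt (R := fun s₁ (x : ℕ × α) => shown (hist s₁) (g x.2) ∧
    Dm x.1 (wN (g x.2)) (g x.2) = false ∧ ∃ z' < x.1, wN z' = wN (g x.2) ∧
      pN z' / 2 ≠ pN (g x.2) / 2 ∧ shown (hist x.1) z') ?_ Primrec.fst
  have g' : Primrec (fun x : ℕ × (ℕ × α) => g x.2.2) := hg.comp (Primrec.snd.comp Primrec.snd)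
  have s₂ : Primrec (fun x : ℕ × (ℕ × α) => x.2.1) := Primrec.fst.comp Primrec.snd
  refine (primrec_shown (primrec_hist.comp Primrec.fst) g').and
    ((Primrec.eq.comp (primrec_Dm s₂ (primrec_wN.comp g') g') (Primrec.const false)).and ?_)
  refine ex_lt (R := fun z' (x : ℕ × (ℕ × α)) => wN z' = wN (g x.2.2) ∧
      pN z' / 2 ≠ pN (g x.2.2) / 2 ∧ shown (hist x.2.1) z') ?_ s₂
  exact (Primrec.eq.comp (primrec_wN.comp Primrec.fst) (primrec_wN.comp (g'.comp Primrec.snd))).and
    ((Primrec.eq.comp (primrec_half (primrec_pN.comp Primrec.fst))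
      (primrec_half (primrec_pN.comp (g'.comp Primrec.snd)))).not.and
      (primrec_shown (primrec_hist.comp (s₂.comp Primrec.snd)) Primrec.fst))

theorem primrec_BL {f g : α → ℕ} (hf : Primrec f) (hg : Primrec g) :
    PrimrecPred (fun a => BL (f a) (g a)) := by
  unfold BL
  have hc := primrec_cN.comp hf
  exact (Primrec.eq.comp hg (Primrec.succ.comp (Primrec.succ.comp hc))).or
    ((Primrec.eq.comp hg (Primrec.succ.comp hc)).and (Primrec.eq.comp (primrec_mod2
      (Primrec.nat_add.comp hc (primrec_pN.comp hf))) (Primrec.const 0)))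

theorem primrec_memS {f g h : α → ℕ} (hf : Primrec f) (hg : Primrec g) (hh : Primrec h) :
    PrimrecPred (fun a => memS (f a) (g a) (h a)) := by
  unfold memS
  have hp := primrec_pN.comp hh
  have hH := primrec_hist.comp hf
  refine ((Primrec.eq.comp hp hg).and (Primrec.eq.comp (primrec_cN.comp hh)
    (primrec_cfg hH (primrec_half hp)))).or
    ((primrec_KS (Primrec.succ.comp hf) hh).or
    (((primrec_LS (Primrec.succ.comp hf) hh).and
      (Primrec.eq.comp (primrec_half hp) (primrec_half hg)).not).or ?_))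
  exact (Primrec.eq.comp (primrec_sw.comp hp) hg).and
    ((primrec_DS (Primrec.succ.comp hf) hh).and
      (primrec_BL hh (primrec_cfg hH (primrec_half hg))))

theorem primrec_posC {f : α → ℕ} (hf : Primrec f) : Primrec (fun a => posC (f a)) := by
  classical
  unfold posC
  have hb := primrec_u1.comp hf
  exact Primrec.ite ((Primrec.eq.comp (primrec_cfg (primrec_hist.comp hf) hb)
    (Primrec.const 0)).and (Primrec.eq.comp (primrec_cfg (primrec_hist.comp
      (Primrec.succ.comp hf)) hb) (Primrec.const 1))) (primrec_dbl1 hb) (Primrec.const 0)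

theorem primrec_nuP {f g : α → ℕ} (hf : Primrec f) (hg : Primrec g) :
    Primrec (fun a => nuP (f a) (g a)) := by
  unfold nuP
  have h3 := Primrec.nat_div.comp hg (Primrec.const 3)
  have m3 := Primrec.nat_mod.comp hg (Primrec.const 3)
  refine Primrec.ite (Primrec.eq.comp m3 (Primrec.const 0)) (primrec_dbl h3)
    (Primrec.ite (Primrec.eq.comp m3 (Primrec.const 1)) ?_ (primrec_posC h3))
  exact Primrec.nat_add.comp (primrec_dbl h3) (primrec_mod2 (Primrec.succ.comp
    (primrec_cfg (primrec_hist.comp hf) h3)))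

end P2

theorem KS_mono {s s' z : ℕ} (h : s ≤ s') (hs : KS s z) : KS s' z := by
  obtain ⟨s₂, h1, h2⟩ := hs
  exact ⟨s₂, by omega, h2⟩

theorem LS_mono {s s' z : ℕ} (h : s ≤ s') (hs : LS s z) : LS s' z := by
  obtain ⟨s₂, h1, h2⟩ := hs
  exact ⟨s₂, by omega, h2⟩

theorem DS_mono {s s' z : ℕ} (h : s ≤ s') (hs : DS s z) : DS s' z := by
  obtain ⟨s₂, h1, h2⟩ := hs
  exact ⟨s₂, by omega, h2⟩

theorem KS_final (z : ℕ) : ∃ s₀, ∀ s ≥ s₀, (KS s z ↔ KF z) := by
  by_cases h : KF z
  · obtain ⟨s₁, s₂, h1, h2, h3, h4⟩ := id h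
    exact ⟨s₂ + 1, fun s hs => ⟨fun _ => h, fun _ => ⟨s₂, by omega, s₁, h1, h2, h3, h4⟩⟩⟩
  · refine ⟨0, fun s _ => ⟨?_, fun h' => absurd h' h⟩⟩
    rintro ⟨s₂, _, s₁, h1, h2, h3, h4⟩
    exact ⟨s₁, s₂, h1, h2, h3, h4⟩

theorem DS_final (z : ℕ) : ∃ s₀, ∀ s ≥ s₀, (DS s z ↔ DF z) := by
  by_cases h : DF z
  · obtain ⟨s₁, s₂, h1, h2, h3⟩ := id h
    exact ⟨s₂ + 1, fun s hs => ⟨fun _ => h, fun _ => ⟨s₂, by omega, s₁, h1, h2, h3⟩⟩⟩
  · refine ⟨0, fun s _ => ⟨?_, fun h' => absurd h' h⟩⟩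
    rintro ⟨s₂, _, s₁, h1, h2, h3⟩
    exact ⟨s₁, s₂, h1, h2, h3⟩

theorem LS_final (z : ℕ) : ∃ s₀, ∀ s ≥ s₀, (LS s z ↔ LF z) := by
  by_cases h : LF z
  · obtain ⟨s₁, s₂, h1, h2, h3, z', h4, h5, h6⟩ := id h
    refine ⟨s₂ + 1, fun s hs => ⟨fun _ => h, fun _ => ⟨s₂, by omega, s₁, h1, h2, h3, z', ?_,
      h4, h5, h6⟩⟩⟩
    have := h6.1
    rw [hist_length] at this
    exact Dm_lt this
  · refine ⟨0, fun s _ => ⟨?_, fun h' => absurd h' h⟩⟩
    rintro ⟨s₂, _, s₁, h1, h2, h3, z', _, h4⟩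
    exact ⟨s₁, s₂, h1, h2, h3, z', h4⟩

/-- common treatment of the two numberings; `P s n` is the position of the index at stage `s` -/
theorem nce_aux {P : ℕ → ℕ → ℕ} (hP : Primrec₂ P) (Q : ℕ → ℕ)
    (h1 : ∀ n, (∀ s, P s n = Q n) ∨ ∃ b, (∀ s, P s n = 2 * b + (cfg (hist s) b + 1) % 2) ∧
      Q n = 2 * b + (cF b + 1) % 2) :
    NCE 2 {z | z.unpair.2 ∈ mu (Q z.unpair.1)} := by
  classical
  refine ⟨fun y s => decide (s ≠ 0 ∧ memS (s - 1) (P (s - 1) y.unpair.1) y.unpair.2), ?_, ?_⟩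
  · have h : PrimrecPred (fun a : ℕ × ℕ =>
        a.2 ≠ 0 ∧ memS (a.2 - 1) (P (a.2 - 1) a.1.unpair.1) a.1.unpair.2) := by
      refine (Primrec.eq.comp Primrec.snd (Primrec.const 0)).not.and ?_
      have a1 : Primrec (fun a : ℕ × ℕ => a.2 - 1) := Primrec.pred.comp Primrec.snd
      exact primrec_memS a1 (hP.comp a1 (primrec_u1.comp Primrec.fst))
        (primrec_u2.comp Primrec.fst)
    exact h.decide.to_comp
  · intro y
    set n := y.unpair.1
    set z := y.unpair.2
    have hblock : ∀ s s', P s n / 2 = P s' n / 2 := by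
      intro s s'
      rcases h1 n with h | ⟨b, h, _⟩
      · rw [h, h]
      · rw [h, h]; omega
    refine ⟨by simp, ?_, ?_⟩
    · obtain ⟨b, hb⟩ := KS_final z
      obtain ⟨c, hc⟩ := LS_final z
      obtain ⟨c', hc'⟩ := DS_final z
      obtain ⟨d, hd⟩ : ∃ s₀, ∀ s ≥ s₀, P s n = Q n := by
        rcases h1 n with h | ⟨b, h, h'⟩
        · exact ⟨0, fun s _ => h s⟩
        · exact ⟨sF b, fun s hs => by rw [h, h', cfg_final hs]⟩
      refine ⟨sF (pN z / 2) + sF (Q n / 2) + b + c + c' + d + 1, fun s hs => ?_⟩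
      simp only [decide_eq_true_eq, Set.mem_ofPred_eq]
      have e : memS (s - 1) (P (s - 1) n) z ↔ z ∈ mu (Q n) := by
        unfold memS mu
        rw [hb _ (by omega), hc _ (by omega), hc' _ (by omega), hd _ (by omega),
          cfg_final (by omega), cfg_final (by omega)]
        rfl
      rw [e]
      exact ⟨fun h' => h'.2, fun h' => ⟨by omega, h'⟩⟩
    · refine (change_le_two (f := fun s => decide (s ≠ 0 ∧ memS (s - 1) (P (s - 1) n) z))
        ?_).trans (le_of_eq rfl)
      intro s₁ s₂ s₃ h12 h23 ha hb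
      simp only [decide_eq_true_eq, decide_eq_false_iff_not] at ha hb ⊢
      obtain ⟨ha0, ha⟩ := ha
      rintro ⟨_, hc⟩
      have hb' : ¬ memS (s₂ - 1) (P (s₂ - 1) n) z := fun h' => hb ⟨by omega, h'⟩
      have b12 := hblock (s₁ - 1) (s₂ - 1)
      have b23 := hblock (s₂ - 1) (s₃ - 1)
      unfold memS at ha hb' hc
      push Not at hb'
      obtain ⟨b1, b2, b3, b4⟩ := hb'
      have ha' : (pN z = P (s₁ - 1) n ∧ cN z = cfg (hist (s₁ - 1)) (pN z / 2)) ∨
          (sw (pN z) = P (s₁ - 1) n ∧ DS (s₁ - 1 + 1) z ∧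
            BL z (cfg (hist (s₁ - 1)) (P (s₁ - 1) n / 2))) := by
        rcases ha with ha | ha | ha | ha
        · exact Or.inl ha
        · exact absurd (KS_mono (by omega) ha) b2
        · have := b3 (LS_mono (by omega) ha.1)
          rw [← b12] at this
          exact absurd this ha.2
        · exact Or.inr ha
      clear ha
      have hbl : pN z / 2 = P (s₁ - 1) n / 2 := by
        rcases ha' with ha | ha
        · rw [ha.1]
        · rw [← ha.1, sw_half]
      have c12 : cfg (hist (s₁ - 1)) (pN z / 2) ≤ cfg (hist (s₂ - 1)) (pN z / 2) :=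
        cfg_mono (by omega)
      have c23 : cfg (hist (s₂ - 1)) (pN z / 2) ≤ cfg (hist (s₃ - 1)) (pN z / 2) :=
        cfg_mono (by omega)
      rw [← b12, ← hbl] at b4
      rw [← b23, ← b12, ← hbl] at hc
      rw [← hbl] at ha'
      -- description of the position
      have hPos : (P (s₂ - 1) n = P (s₁ - 1) n ∧ P (s₃ - 1) n = P (s₁ - 1) n) ∨
          (P (s₁ - 1) n = 2 * (pN z / 2) + (cfg (hist (s₁ - 1)) (pN z / 2) + 1) % 2 ∧
           P (s₂ - 1) n = 2 * (pN z / 2) + (cfg (hist (s₂ - 1)) (pN z / 2) + 1) % 2 ∧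
           P (s₃ - 1) n = 2 * (pN z / 2) + (cfg (hist (s₃ - 1)) (pN z / 2) + 1) % 2) := by
        rcases h1 n with h | ⟨b, h, h'⟩
        · left; rw [h, h, h]; exact ⟨rfl, rfl⟩
        · right
          have : pN z / 2 = b := by rw [hbl, h]; omega
          rw [this]
          exact ⟨h _, h _, h _⟩
      have hsw : ∀ p, sw p = if p % 2 = 0 then p + 1 else p - 1 := fun _ => rfl
      -- the configuration changed between the first two stages
      have hdead : cN z < cfg (hist (s₂ - 1)) (pN z / 2) := by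
        rcases ha' with ⟨a1, a2⟩ | ⟨a1, a2, a3⟩
        · by_contra hlt
          have e1 : cfg (hist (s₂ - 1)) (pN z / 2) = cfg (hist (s₁ - 1)) (pN z / 2) := by omega
          refine b1 ?_ (by omega)
          rcases hPos with h | h
          · rw [h.1]; exact a1
          · rw [h.2.1, e1, ← h.1]; exact a1
        · unfold BL at a3; omega
      rcases hc with hc | hc | hc | hc
      · have := hc.2; omega
      · obtain ⟨t₂, t0, t₁, t3, t4, t5, t6⟩ := hc
        refine b2 ⟨t₂, ?_, t₁, t3, t4, t5, t6⟩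
        by_contra hno
        have : cfg (hist (s₂ - 1)) (pN z / 2) ≤ cfg (hist t₂) (pN z / 2) :=
          cfg_mono (by omega)
        omega
      · exact hc.2 rfl
      · obtain ⟨d1, _, d3⟩ := hc
        rcases ha' with ⟨a1, a2⟩ | ⟨a1, a2, a3⟩
        · rcases hPos with h | h
          · rw [h.2, ← a1] at d1
            exact sw_ne _ d1
          · rw [hsw] at d1
            unfold BL at d3
            split_ifs at d1 <;> omega
        · have a2' := DS_mono (s' := s₂ - 1 + 1) (by omega) a2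
          rcases hPos with h | h
          · have b5 := b4 (by rw [h.1]; exact a1) a2'
            unfold BL at a3 b5 d3
            omega
          · by_cases e1 : sw (pN z) = P (s₂ - 1) n
            · have b5 := b4 e1 a2'
              rw [hsw] at a1 d1 e1
              unfold BL at a3 b5 d3
              split_ifs at a1 d1 e1 <;> omega
            · rw [hsw] at a1 d1 e1
              unfold BL at a3 d3
              split_ifs at a1 d1 e1 <;> omega

theorem mu_nce : NCE 2 {z | z.unpair.2 ∈ mu z.unpair.1} :=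
  nce_aux (P := fun _ p => p) Primrec₂.right id (fun _ => Or.inl fun _ => rfl)

theorem nu_nce : NCE 2 {z | z.unpair.2 ∈ nu z.unpair.1} := by
  refine nce_aux (P := nuP) (primrec_nuP Primrec.fst Primrec.snd) nuQ fun n => ?_
  unfold nuP nuQ
  by_cases h0 : n % 3 = 0
  · left; intro s; rw [if_pos h0, if_pos h0]
  by_cases h1 : n % 3 = 1
  · right
    refine ⟨n / 3, fun s => ?_, ?_⟩
    · rw [if_neg h0, if_pos h1]
    · rw [if_neg h0, if_pos h1]
  · left; intro s; rw [if_neg h0, if_neg h1, if_neg h0, if_neg h1]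

/-! ### The main theorem -/

theorem repred_W {p : ℕ → Prop} (h : REPred p) : ∃ e, ∀ y, (∃ s, W s e y = true) ↔ p y := by
  have h' : Partrec (fun n : ℕ => (Part.assert (p n) fun _ => Part.some ()).map fun _ => 0) :=
    Partrec.map h (Computable.const 0).to₂
  obtain ⟨c, hc⟩ := Code.exists_code.1 (Partrec.nat_iff.1 h')
  refine ⟨Encodable.encode c, fun y => ?_⟩
  have h1 : (∃ s, W s (Encodable.encode c) y = true) ↔ (c.eval y).Dom := by
    rw [Part.dom_iff_mem]
    constructor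
    · rintro ⟨s, hs⟩
      unfold W at hs
      rw [Denumerable.ofNat_encode] at hs
      obtain ⟨v, hv⟩ := Option.isSome_iff_exists.1 hs
      exact ⟨v, Code.evaln_sound hv⟩
    · rintro ⟨v, hv⟩
      obtain ⟨s, hs⟩ := Code.evaln_complete.1 hv
      refine ⟨s, ?_⟩
      unfold W
      rw [Denumerable.ofNat_encode]
      exact Option.isSome_iff_exists.2 ⟨v, hs⟩
  rw [h1, hc]
  simp [Part.assert, Part.map]

theorem positive_minimal {A : Set (Set ℕ)} {α : ℕ → Set ℕ} (hα : CompNum 2 A α)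
    (hp : Positive α) : MinimalElement 2 A α := by
  classical
  refine ⟨hα, fun β hβ ⟨f, hf, hfβ⟩ => ?_⟩
  have hp' : REPred fun n : ℕ => α n.unpair.1 = α n.unpair.2 :=
    Partrec.comp hp Computable.unpair
  obtain ⟨e, he⟩ := repred_W hp'
  have hex : ∀ x, ∃ n, W (Nat.unpair n).1 e (Nat.pair (f (Nat.unpair n).2) x) = true := by
    intro x
    have : α x ∈ Set.range β := by rw [hβ.range_eq, ← hα.range_eq]; exact ⟨x, rfl⟩
    obtain ⟨y, hy⟩ := this
    rw [hfβ] at hy
    obtain ⟨s, hs⟩ := (he (Nat.pair (f y) x)).2 (by simpa using hy)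
    exact ⟨Nat.pair s y, by simpa using hs⟩
  have hP : ComputablePred (fun q : ℕ × ℕ =>
      W q.2.unpair.1 e (Nat.pair (f q.2.unpair.2) q.1) = true) := by
    have a1 : Computable (fun q : ℕ × ℕ => q.2.unpair.1) :=
      (primrec_u1.comp (Primrec.snd (α := ℕ) (β := ℕ))).to_comp
    have a2 : Computable (fun q : ℕ × ℕ => f q.2.unpair.2) :=
      hf.comp (primrec_u2.comp (Primrec.snd (α := ℕ) (β := ℕ))).to_comp
    have a3 : Computable (fun q : ℕ × ℕ => Nat.pair (f q.2.unpair.2) q.1) :=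
      Primrec₂.natPair.to_comp.comp a2 Computable.fst
    have a4 : Computable (fun q : ℕ × ℕ => (q.2.unpair.1, e, Nat.pair (f q.2.unpair.2) q.1)) :=
      a1.pair ((Computable.const e).pair a3)
    have c1 := primrec_W.to_comp.comp a4
    refine Computable.computablePred (c1.of_eq fun q => ?_)
    simp only [Bool.decide_eq_true]
  refine ⟨fun x => (Nat.find (hex x)).unpair.2,
    primrec_u2.to_comp.comp (Computable.find hP hex), fun x => ?_⟩
  have h1 := (he _).1 ⟨_, Nat.find_spec (hex x)⟩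
  simp only [Nat.unpair_pair] at h1
  rw [hfβ]
  exact h1.symm

theorem minimal_equi {β : ℕ → Set ℕ} (hβ : MinimalElement 2 (Set.range mu) β) : Equi mu β := by
  classical
  obtain ⟨hC, hmin⟩ := hβ
  obtain ⟨e, he⟩ := nce_two hC.nce
  have hmem : ∀ t, ∃ p, β t = mu p := by
    intro t
    have : β t ∈ Set.range mu := by rw [← hC.range_eq]; exact ⟨t, rfl⟩
    obtain ⟨p, hp⟩ := this
    exact ⟨p, hp.symm⟩
  choose pos hposβ using hmem
  have hpos : ∀ t x, Dl (Nat.pair e t) x ↔ x ∈ mu (pos t) := by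
    intro t x
    rw [he, ← hposβ]
    simp
  have hsurj : ∀ p, ∃ t, pos t = p := by
    intro p
    have : mu p ∈ Set.range β := by rw [hC.range_eq]; exact ⟨p, rfl⟩
    obtain ⟨t, ht⟩ := this
    exact ⟨t, mu_inj (by rw [← hposβ, ht])⟩
  obtain ⟨d, hd⟩ := hsurj 0
  have htau : Computable (tau e d) := (primrec_tau e d).to_comp
  have hγ : CompNum 2 (Set.range mu) (fun n => β (tau e d n)) := by
    constructor
    · ext X
      constructor
      · rintro ⟨n, rfl⟩
        exact ⟨pos (tau e d n), (hposβ _).symm⟩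
      · rintro ⟨p, rfl⟩
        obtain ⟨t, s, h1, h2⟩ := cover hpos hsurj p
        refine ⟨Nat.pair t s, ?_⟩
        have : tau e d (Nat.pair t s) = t := by
          unfold tau
          simp only [Nat.unpair_pair]
          rw [if_pos h1]
        simp only [this, hposβ, h2]
    · have := hC.nce.comp (f := fun y => Nat.pair (tau e d y.unpair.1) y.unpair.2)
        (Primrec₂.natPair.to_comp.comp (htau.comp primrec_u1.to_comp) primrec_u2.to_comp)
      simpa using this
  obtain ⟨φ, hφ, hφ'⟩ := hmin _ hγ ⟨tau e d, htau, fun _ => rfl⟩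
  obtain ⟨c, hc⟩ := Code.exists_code.1 (Partrec.nat_iff.1 hφ.partrec)
  have hev : ∀ x, ∃ s, ev s (iQ (Nat.pair e (Encodable.encode c))) x = some (φ x) := by
    intro x
    have h1 : φ x ∈ c.eval x := by rw [hc]; exact Part.mem_some _
    obtain ⟨k, hk⟩ := Code.evaln_complete.1 h1
    refine ⟨k, ?_⟩
    unfold ev iQ
    rw [Nat.unpair_pair, Denumerable.ofNat_encode]
    exact hk
  obtain ⟨f, hf, hf'⟩ := main hpos hsurj (k := Nat.pair e (Encodable.encode c)) (d := d)
    (φ := φ) (by simp [eQ]) hev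
    (fun x => mu_inj (by rw [← hposβ, ← hposβ]; exact hφ' x)) hd
  have hred : Red mu β := ⟨f, hf, fun p => by rw [hposβ, hf']⟩
  exact ⟨hred, hmin _ ⟨rfl, mu_nce⟩ hred⟩

/-- There is a family of `2`-c.e. sets with a unique positive numbering, which is injective but
not least, and whose Rogers semilattice has exactly one minimal element. -/
theorem result : ∃ (A : Set (Set ℕ)) (α : ℕ → Set ℕ),
    CompNum 2 A α ∧ Positive α ∧ (∀ β, CompNum 2 A β → Positive β → Equi α β) ∧
    Function.Injective α ∧ ¬ Least 2 A α ∧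
    MinimalElement 2 A α ∧ ∀ β, MinimalElement 2 A β → Equi α β := by
  have hC : CompNum 2 (Set.range mu) mu := ⟨rfl, mu_nce⟩
  have hP : Positive mu := by
    have h : ComputablePred (fun p : ℕ × ℕ => mu p.1 = mu p.2) :=
      (PrimrecPred.computablePred (Primrec.eq.comp (Primrec.fst (α := ℕ) (β := ℕ))
        Primrec.snd)).of_eq fun p => ⟨fun h => by rw [h], fun h => mu_inj h⟩
    exact h.to_re
  refine ⟨Set.range mu, mu, hC, hP, fun β hβ hβP => minimal_equi (positive_minimal hβ hβP),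
    fun _ _ h => mu_inj h, ?_, positive_minimal hC hP, fun β hβ => minimal_equi hβ⟩
  intro hL
  obtain ⟨f, hf, h⟩ := hL nu ⟨range_nu, nu_nce⟩
  exact mu_not_red hf h

end Pool.Agent.Results.MP_5566a7_lc.UniqueMinimal
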